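import Pool.Agent.Lib.MP_06c549_co.Poly

/-!
# MP_06c549_co: definitions for the proof

Part 1 (the problem: real rectilinear polygons with holes) is in `Poly.lean`. Part 2 is the
combinatorial model (rectilinear curves with integer coordinates in general position) used in the
proof.
-/

namespace Pool.Agent.Lib.MP06c549

open Finset

/-! ## Part 2: the rank model -/

/-- The combinatorial model: `E` indexes the horizontal edges and also the vertical edges. The
horizontal edge `e` has height `Y e` and goes from abscissa `X e` to abscissa `X (s e)`. The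
vertical edge `e` has abscissa `X e` and goes from height `Y (s⁻¹ e)` to height `Y e`. `comp e` is
the boundary component of `e` and `o` is the outer component. -/
structure RM (ι E : Type) where
  s : Equiv.Perm E
  X : E → ℤ
  Y : E → ℤ
  comp : E → ι
  o : ι

namespace RM

variable {ι E : Type} [Fintype E] [DecidableEq E]

/-- left end of the horizontal edge `e` -/
def lo (M : RM ι E) (e : E) : ℤ := min (M.X e) (M.X (M.s e))

/-- right end of the horizontal edge `e` -/
def hi (M : RM ι E) (e : E) : ℤ := max (M.X e) (M.X (M.s e))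

/-- lower end of the vertical edge `f` -/
def bo (M : RM ι E) (f : E) : ℤ := min (M.Y (M.s.symm f)) (M.Y f)

/-- upper end of the vertical edge `f` -/
def tp (M : RM ι E) (f : E) : ℤ := max (M.Y (M.s.symm f)) (M.Y f)

/-- The horizontal edge `e` covers the column `a` (the strip `a ≤ x ≤ a+1`). -/
def Cov (M : RM ι E) (e : E) (a : ℤ) : Prop := M.lo e ≤ a ∧ a < M.hi e

instance (M : RM ι E) (e : E) (a : ℤ) : Decidable (M.Cov e a) := by
  unfold Cov; infer_instance

/-- number of horizontal edges of `K` above the cell `(a, b)` = `[a, a+1] × [b, b+1]` -/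
def cnt (M : RM ι E) (K : Finset E) (a b : ℤ) : ℕ :=
  (K.filter fun e => M.Cov e a ∧ b < M.Y e).card

/-- The cell `(a, b)` belongs to the polygon. -/
def S (M : RM ι E) (a b : ℤ) : Prop := Odd (M.cnt univ a b)

instance (M : RM ι E) (a b : ℤ) : Decidable (M.S a b) := by
  unfold S; infer_instance

/-- The hypotheses on the boundary curves: general position, edges do not cross, the components are
the cycles of `s`. -/
structure Good (M : RM ι E) : Prop where
  X_inj : Function.Injective M.X
  Y_inj : Function.Injective M.Y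
  s_ne : ∀ e, M.s e ≠ e
  nc : ∀ e f, ¬ (M.lo e < M.X f ∧ M.X f < M.hi e ∧ M.bo f < M.Y e ∧ M.Y e < M.tp f)
  comp_s : ∀ e, M.comp (M.s e) = M.comp e
  comp_conn : ∀ e f, M.comp e = M.comp f → ∃ n : ℕ, (M.s ^ n) e = f

/-- The components other than `o` are holes: cells enclosed by the component `i ≠ o` are not in the
polygon. Every component has an edge. -/
structure Holes [DecidableEq ι] (M : RM ι E) : Prop where
  surj : ∀ i, ∃ e, M.comp e = i
  hole : ∀ i, i ≠ M.o → ∀ a b, Odd (M.cnt (univ.filter fun e => M.comp e = i) a b) → ¬ M.S a b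

/-- rotation by 180 degrees; the cell `(a, b)` becomes the cell `(-1-a, -1-b)` -/
def rot (M : RM ι E) : RM ι E where
  s := M.s
  X := fun e => - M.X e
  Y := fun e => - M.Y e
  comp := M.comp
  o := M.o

/-- The edge `e` is a floor: the polygon lies above it. -/
def Fl (M : RM ι E) (e : E) : Prop := M.S (M.lo e) (M.Y e)

instance (M : RM ι E) (e : E) : Decidable (M.Fl e) := by
  unfold Fl; infer_instance

/-- abscissa of the A-vertex of the edge `e`: the left end of a floor, the right end of a ceiling;
its ordinate is `Y e`. -/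
def ax (M : RM ι E) (e : E) : ℤ := if M.Fl e then M.lo e else M.hi e

/-- abscissa of the B-vertex of the edge `e`: the right end of a floor, the left end of a ceiling -/
def bx (M : RM ι E) (e : E) : ℤ := if M.Fl e then M.hi e else M.lo e

/-- an element of `t` with the largest `Y` (junk `j` if `t` is empty) -/
noncomputable def top (M : RM ι E) (j : E) (t : Finset E) : E :=
  if h : t.Nonempty then (exists_max_image t M.Y h).choose else j

/-- the highest edge below the edge `C` in the column `a` (junk `C`) -/
noncomputable def bel (M : RM ι E) (C : E) (a : ℤ) : E :=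
  M.top C (univ.filter fun e => M.Cov e a ∧ M.Y e < M.Y C)

/-- the floor height in the column `a` under `C` -/
noncomputable def ht (M : RM ι E) (C : E) (a : ℤ) : ℤ := M.Y (M.bel C a)

/-- the lowest edge above the upper end of the vertical edge `f` (junk `f`) -/
noncomputable def ot (M : RM ι E) (f : E) : E :=
  M.rot.top f (univ.filter fun e => M.Cov e (M.X f) ∧ M.tp f < M.Y e)

end RM

/-- the leftmost `p ≥ l` such that `h ≤ h i` on `[p, i]` (for `l ≤ i`) -/
noncomputable def PP (h : ℤ → ℤ) (l i : ℤ) : ℤ :=
  sInf {p : ℤ | l ≤ p ∧ ∀ k, p ≤ k → k ≤ i → h k ≤ h i}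

/-- the largest `q ≤ r` such that `h ≤ h i` on `[i, q)` (for `i < r`) -/
noncomputable def UU (h : ℤ → ℤ) (r i : ℤ) : ℤ :=
  sSup {q : ℤ | q ≤ r ∧ ∀ k, i ≤ k → k < q → h k ≤ h i}

namespace RM

variable {ι E : Type} [Fintype E] [DecidableEq E]

/-- the upper right vertex seen from the run (column `i`, ceiling `C`): it is the A-vertex of the
edge `ur C i` -/
noncomputable def ur (M : RM ι E) (C : E) (i : ℤ) : E :=
  if UU (M.ht C) (M.hi C) i = M.hi C then C else M.bel C (UU (M.ht C) (M.hi C) i)

/-- the upper left vertex seen from the run (column `i`, ceiling `C`): it is the B-vertex of the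
edge `ul C i` -/
noncomputable def ul (M : RM ι E) (C : E) (i : ℤ) : E :=
  if PP (M.ht C) (M.lo C) i = M.lo C then C else M.bel C (PP (M.ht C) (M.lo C) i - 1)

/-- the upper end of the vertical edge `f` is a reflex vertex -/
def RT (M : RM ι E) (f : E) : Prop := M.S (M.X f) (M.tp f)

instance (M : RM ι E) (f : E) : Decidable (M.RT f) := by
  unfold RT; infer_instance

/-- the floor under `ot f` rises at the line of `f` (the upper end of `f` is an A-vertex) -/
def asc (M : RM ι E) (f : E) : Prop := M.ht (M.ot f) (M.X f - 1) < M.ht (M.ot f) (M.X f)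

noncomputable instance (M : RM ι E) (f : E) : Decidable (M.asc f) := by
  unfold asc; infer_instance

/-- the A-end of the arrow of the upper end of `f` is the A-vertex of the edge `ta f` -/
noncomputable def ta (M : RM ι E) (f : E) : E :=
  if M.asc f then M.bel (M.ot f) (M.X f) else M.ur (M.ot f) (M.X f - 1)

/-- the B-end of the arrow of the upper end of `f` is the B-vertex of the edge `tb f` -/
noncomputable def tb (M : RM ι E) (f : E) : E :=
  if M.asc f then M.ul (M.ot f) (M.X f) else M.bel (M.ot f) (M.X f - 1)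

/-- the line (abscissa) of the target of the arrow of the upper end of `f` -/
noncomputable def tl (M : RM ι E) (f : E) : ℤ :=
  if M.asc f then PP (M.ht (M.ot f)) (M.lo (M.ot f)) (M.X f)
  else UU (M.ht (M.ot f)) (M.hi (M.ot f)) (M.X f - 1)

/-- The jump across the upward chord of `f` when the arrow of (the upper end of) each edge `g` has
weight `w g`: each arrow uses the chord of its source and the chord of its target (if the target is
not an end of the ceiling). -/
noncomputable def jt (M : RM ι E) (w : E → ZMod 2) (f : E) : ZMod 2 :=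
  if M.RT f then w f + ∑ g ∈ univ.filter (fun g => M.RT g ∧ M.ot g = M.ot f ∧ M.tl g = M.X f), w g
  else 0

/-- The vertex `(gx, gy)` sees the whole cell `(a, b)` by boxes: every cell of the rectangle spanned
by the vertex and the cell is in the polygon. -/
def Sees (M : RM ι E) (gx gy a b : ℤ) : Prop :=
  ∀ a' b', min a gx ≤ a' → a' < max (a + 1) gx → min b gy ≤ b' → b' < max (b + 1) gy → M.S a' b'

end RM

/-! ## Part 3: real data -/

/-- Real rectilinear curves, indexed as in the rank model. -/
structure RD (ι E : Type) where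
  s : Equiv.Perm E
  x : E → ℝ
  y : E → ℝ
  comp : E → ι
  o : ι

namespace RD

variable {ι E : Type} [Fintype E] [DecidableEq E] [DecidableEq ι]

def hE (D : RD ι E) (e : E) : Set (ℝ × ℝ) :=
  {p | p.2 = D.y e ∧ p.1 ∈ Set.uIcc (D.x e) (D.x (D.s e))}

def vE (D : RD ι E) (f : E) : Set (ℝ × ℝ) :=
  {p | p.1 = D.x f ∧ p.2 ∈ Set.uIcc (D.y (D.s.symm f)) (D.y f)}

def car (D : RD ι E) (i : ι) : Set (ℝ × ℝ) := {p | ∃ e, D.comp e = i ∧ (p ∈ D.hE e ∨ p ∈ D.vE e)}

open Classical in
/-- number of horizontal edges of the component `i` above `p` -/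
noncomputable def rp (D : RD ι E) (i : ι) (p : ℝ × ℝ) : ℕ :=
  (univ.filter fun e => D.comp e = i ∧ p.2 < D.y e ∧ min (D.x e) (D.x (D.s e)) ≤ p.1 ∧
    p.1 < max (D.x e) (D.x (D.s e))).card

def ins (D : RD ι E) (i : ι) : Set (ℝ × ℝ) := {p | p ∉ D.car i ∧ Odd (D.rp i p)}

def reg (D : RD ι E) (i : ι) : Set (ℝ × ℝ) := D.car i ∪ D.ins i

def region (D : RD ι E) : Set (ℝ × ℝ) := D.reg D.o \ {p | ∃ i, i ≠ D.o ∧ p ∈ D.ins i}

structure OK (D : RD ι E) : Prop where
  xne : ∀ e, D.x e ≠ D.x (D.s e)
  yne : ∀ f, D.y (D.s.symm f) ≠ D.y f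
  hh : ∀ e f, e ≠ f → Disjoint (D.hE e) (D.hE f)
  vv : ∀ e f, e ≠ f → Disjoint (D.vE e) (D.vE f)
  hv : ∀ e f, (D.hE e ∩ D.vE f).Nonempty → f = e ∨ f = D.s e
  comp_s : ∀ e, D.comp (D.s e) = D.comp e
  comp_conn : ∀ e f, D.comp e = D.comp f → ∃ n : ℕ, (D.s ^ n) e = f
  surj : ∀ i, ∃ e, D.comp e = i
  hole_in : ∀ i, i ≠ D.o → D.reg i ⊆ D.ins D.o
  hole_disj : ∀ i j, i ≠ D.o → j ≠ D.o → i ≠ j → Disjoint (D.reg i) (D.reg j)

/-- `X` ranks the numbers `x` (ties broken arbitrarily) -/
def Ranks (x : E → ℝ) (X : E → ℤ) : Prop := Function.Injective X ∧ ∀ e f, x e < x f → X e < X f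

/-- the rank model of the real data -/
def mod (D : RD ι E) (X Y : E → ℤ) : RM ι E where
  s := D.s
  X := X
  Y := Y
  comp := D.comp
  o := D.o

/-- the real closed box of the rank cell `(a, b)` -/
def box (D : RD ι E) (X Y : E → ℤ) (a b : ℤ) : Set (ℝ × ℝ) :=
  {q | (∀ e, X e ≤ a → D.x e ≤ q.1) ∧ (∀ e, a < X e → q.1 ≤ D.x e) ∧
    (∀ e, Y e ≤ b → D.y e ≤ q.2) ∧ (∀ e, b < Y e → q.2 ≤ D.y e)}

end RD

/-! ## Part 4: polygons as real data -/

namespace HPoly

/-- the boundary curves of the polygon, indexed by `Option (Fin h)`; `none` is the outer one -/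
def cu (P : HPoly) : Option (Fin P.h) → Curve
  | none => P.outer
  | some i => P.hole i

/-- index type of the horizontal (vertical) edges of the polygon -/
abbrev EE (P : HPoly) : Type := Σ i : Option (Fin P.h), ZMod (P.cu i).k

/-- the real data of the polygon -/
def rd (P : HPoly) : RD (Option (Fin P.h)) P.EE where
  s := Equiv.sigmaCongrRight fun _ => Equiv.addRight 1
  x := fun e => (P.cu e.1).x e.2
  y := fun e => (P.cu e.1).y e.2
  comp := fun e => e.1
  o := none

end HPoly

end Pool.Agent.Lib.MP06c549
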