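import Pool.Agent.Lib.MP_06c549_co.LOC

/-!
# Module EXA: exactness (the function `Q` with prescribed jumps)
-/

namespace Pool.Agent.Lib.MP06c549

open Finset

namespace EXAM

theorem two (x : ZMod 2) : x + x = 0 := CharTwo.add_self_eq_zero x

variable {ι E : Type} [Fintype E] [DecidableEq E] (M : RM ι E) (jt jb : E → ZMod 2) (ut ub : E → E)

/-- the jumps owned by the vertical edge `f` at the height of the horizontal edge `e` -/
def own (f e : E) : ZMod 2 :=
  (if M.Y e = M.tp f then jt f else 0) + (if M.Y e = M.bo f then jb f else 0)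

/-- the jump of the potential of the edge `e` at the chords of `f` -/
def dt (e f : E) : ZMod 2 := (if ut f = e then jt f else 0) + (if ub f = e then jb f else 0)

/-- the potential on the horizontal edge `e` in the column `t` -/
def be (p : E → ZMod 2) (t : ℤ) (e : E) : ZMod 2 :=
  p e + own M jt jb e e +
    if M.X e < M.X (M.s e) then ∑ f ∈ univ.filter (fun f => M.X f ≤ t), dt jt jb ut ub e f
    else ∑ f ∈ univ.filter (fun f => t < M.X f), dt jt jb ut ub e f

section

variable (hX : Function.Injective M.X) (hY : Function.Injective M.Y) (hs : ∀ e, M.s e ≠ e)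
include hX hs

theorem Xne (e : E) : M.X e ≠ M.X (M.s e) := fun h => hs e (hX h).symm

theorem lo_lt_hi (e : E) : M.lo e < M.hi e := by
  have := Xne M hX hs e
  unfold RM.lo RM.hi
  rcases lt_or_gt_of_ne this with h | h
  · rw [min_eq_left h.le, max_eq_right h.le]; exact h
  · rw [min_eq_right h.le, max_eq_left h.le]; exact h

omit hX in
include hY in
theorem Yne (f : E) : M.Y (M.s.symm f) ≠ M.Y f := fun h => by
  have h1 := hY h
  have h2 := hs (M.s.symm f)
  rw [Equiv.apply_symm_apply] at h2
  exact h2 h1.symm

omit hX in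
include hY in
/-- the two ends of a vertical edge -/
theorem ends (f : E) : (M.tp f = M.Y f ∧ M.bo f = M.Y (M.s.symm f) ∧ M.Y (M.s.symm f) < M.Y f) ∨
    (M.bo f = M.Y f ∧ M.tp f = M.Y (M.s.symm f) ∧ M.Y f < M.Y (M.s.symm f)) := by
  unfold RM.tp RM.bo
  rcases lt_or_gt_of_ne (Yne M hY hs f) with h | h
  · left; exact ⟨max_eq_right h.le, min_eq_left h.le, h⟩
  · right; exact ⟨min_eq_right h.le, max_eq_left h.le, h⟩

omit hX in
include hY in
theorem own_add (f : E) : own M jt jb f f + own M jt jb f (M.s.symm f) = jt f + jb f := by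
  unfold own
  rcases ends M hY hs f with ⟨h1, h2, h3⟩ | ⟨h1, h2, h3⟩
  · rw [h1, h2, if_pos rfl, if_neg h3.ne', if_neg h3.ne, if_pos rfl]; ring
  · rw [h1, h2, if_pos rfl, if_neg h3.ne, if_neg h3.ne', if_pos rfl]; ring

omit hX in
include hY in
theorem own_sum (f : E) (c : ZMod 2) (b : ℤ) :
    (if b < M.Y f then c + own M jt jb f f else 0) +
      (if b < M.Y (M.s.symm f) then c + own M jt jb f (M.s.symm f) else 0) =
    (if b < M.tp f then c + jt f else 0) + (if b < M.bo f then c + jb f else 0) := by
  unfold own
  rcases ends M hY hs f with ⟨h1, h2, h3⟩ | ⟨h1, h2, h3⟩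
  · rw [h1, h2, if_pos rfl, if_neg h3.ne', if_neg h3.ne, if_pos rfl, add_zero, zero_add]
  · rw [h1, h2, if_pos rfl, if_neg h3.ne, if_neg h3.ne', if_pos rfl, add_zero, zero_add, add_comm]

end

section

variable (hX : Function.Injective M.X) (hY : Function.Injective M.Y) (hs : ∀ e, M.s e ≠ e)
  (hut : ∀ f, jt f ≠ 0 → M.lo (ut f) < M.X f ∧ M.X f < M.hi (ut f) ∧ M.tp f < M.Y (ut f))
  (hub : ∀ f, jb f ≠ 0 → M.lo (ub f) < M.X f ∧ M.X f < M.hi (ub f) ∧ M.Y (ub f) < M.bo f)

include hut hub in
theorem dt_ne {e f : E} (h : dt jt jb ut ub e f ≠ 0) : M.lo e < M.X f ∧ M.X f < M.hi e := by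
  unfold dt at h
  by_cases h1 : (if ut f = e then jt f else 0) = 0
  · rw [h1, zero_add] at h
    split_ifs at h with h2
    · have := hub f h
      rw [h2] at this
      exact ⟨this.1, this.2.1⟩
    · exact absurd rfl h
  · split_ifs at h1 with h2
    · have := hut f h1
      rw [h2] at this
      exact ⟨this.1, this.2.1⟩
    · exact absurd rfl h1

include hX hs hut hub

/-- the contribution of the edge `e` to the jump at the line `t` -/
theorem jump_edge (p : E → ZMod 2)
    (hp : ∀ e, p (M.s e) = p e + (own M jt jb e e + own M jt jb (M.s e) e +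
      ∑ f, dt jt jb ut ub e f)) (t : ℤ) (e : E) :
    (if M.Cov e t then be M jt jb ut ub p t e else 0) +
      (if M.Cov e (t - 1) then be M jt jb ut ub p (t - 1) e else 0) =
    ∑ f ∈ univ.filter (fun f => M.X f = t), dt jt jb ut ub e f +
      (if M.X e = t then p e + own M jt jb e e else 0) +
      (if M.X (M.s e) = t then p (M.s e) + own M jt jb (M.s e) e else 0) := by
  have hlh := lo_lt_hi M hX hs e
  have hd := fun f => dt_ne M jt jb ut ub hut hub (e := e) (f := f)
  -- sums over filters
  have hz : ∀ P : E → Prop, [DecidablePred P] → (∀ f, M.lo e < M.X f → M.X f < M.hi e → ¬ P f) →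
      ∑ f ∈ univ.filter P, dt jt jb ut ub e f = 0 := by
    intro P _ hP
    refine sum_eq_zero fun f hf => ?_
    rw [mem_filter] at hf
    by_contra hne
    exact hP f (hd f hne).1 (hd f hne).2 hf.2
  have hfull : ∀ P : E → Prop, [DecidablePred P] → (∀ f, M.lo e < M.X f → M.X f < M.hi e → P f) →
      ∑ f ∈ univ.filter P, dt jt jb ut ub e f = ∑ f, dt jt jb ut ub e f := by
    intro P _ hP
    refine sum_subset (filter_subset _ _) fun f _ hf => ?_
    by_contra hne
    exact hf (mem_filter.2 ⟨mem_univ _, hP f (hd f hne).1 (hd f hne).2⟩)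
  have hps := hp e
  have hXne := Xne M hX hs e
  rcases lt_or_gt_of_ne hXne with hlt | hlt
  · have hlo : M.lo e = M.X e := min_eq_left hlt.le
    have hhi : M.hi e = M.X (M.s e) := max_eq_right hlt.le
    by_cases h1 : t < M.lo e
    · rw [if_neg (fun h => by have := h.1; omega), if_neg (fun h => by have := h.1; omega),
        if_neg (by omega), if_neg (by omega), hz _ (fun f h2 h3 => by omega)]
      ring
    by_cases h2 : t = M.lo e
    · rw [if_pos ⟨by omega, by omega⟩, if_neg (fun h => by have := h.1; omega),
        if_pos (by omega), if_neg (by omega), hz _ (fun f h2 h3 => by omega)]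
      unfold be
      rw [if_pos hlt, hz _ (fun f h2 h3 => by omega)]
      ring
    by_cases h3 : t < M.hi e
    · rw [if_pos ⟨by omega, by omega⟩, if_pos ⟨by omega, by omega⟩,
        if_neg (by omega), if_neg (by omega)]
      unfold be
      rw [if_pos hlt, if_pos hlt]
      have h4 : ∑ f ∈ univ.filter (fun f => M.X f ≤ t), dt jt jb ut ub e f =
          ∑ f ∈ univ.filter (fun f => M.X f = t), dt jt jb ut ub e f +
          ∑ f ∈ univ.filter (fun f => M.X f ≤ t - 1), dt jt jb ut ub e f := by
        rw [← sum_union]
        · congr 1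
          ext f
          simp only [mem_filter, mem_union, mem_univ, true_and]
          omega
        · rw [disjoint_filter]
          intro f _ h5 h6
          omega
      rw [h4]
      linear_combination two (p e) + two (own M jt jb e e) +
        two (∑ f ∈ univ.filter (fun f => M.X f ≤ t - 1), dt jt jb ut ub e f)
    by_cases h4 : t = M.hi e
    · rw [if_neg (fun h => by have := h.2; omega), if_pos ⟨by omega, by omega⟩,
        if_neg (by omega), if_pos (by omega), hz _ (fun f h2 h3 => by omega)]
      unfold be
      rw [if_pos hlt, hfull _ (fun f h2 h3 => by omega)]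
      linear_combination - hps - two (own M jt jb (M.s e) e)
    · rw [if_neg (fun h => by have := h.2; omega), if_neg (fun h => by have := h.2; omega),
        if_neg (by omega), if_neg (by omega), hz _ (fun f h2 h3 => by omega)]
      ring
  · have hlo : M.lo e = M.X (M.s e) := min_eq_right hlt.le
    have hhi : M.hi e = M.X e := max_eq_left hlt.le
    by_cases h1 : t < M.lo e
    · rw [if_neg (fun h => by have := h.1; omega), if_neg (fun h => by have := h.1; omega),
        if_neg (by omega), if_neg (by omega), hz _ (fun f h2 h3 => by omega)]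
      ring
    by_cases h2 : t = M.lo e
    · rw [if_pos ⟨by omega, by omega⟩, if_neg (fun h => by have := h.1; omega),
        if_neg (by omega), if_pos (by omega), hz _ (fun f h2 h3 => by omega)]
      unfold be
      rw [if_neg (not_lt.2 hlt.le), hfull _ (fun f h2 h3 => by omega)]
      linear_combination - hps - two (own M jt jb (M.s e) e)
    by_cases h3 : t < M.hi e
    · rw [if_pos ⟨by omega, by omega⟩, if_pos ⟨by omega, by omega⟩,
        if_neg (by omega), if_neg (by omega)]
      unfold be
      rw [if_neg (not_lt.2 hlt.le), if_neg (not_lt.2 hlt.le)]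
      have h4 : ∑ f ∈ univ.filter (fun f => t - 1 < M.X f), dt jt jb ut ub e f =
          ∑ f ∈ univ.filter (fun f => M.X f = t), dt jt jb ut ub e f +
          ∑ f ∈ univ.filter (fun f => t < M.X f), dt jt jb ut ub e f := by
        rw [← sum_union]
        · congr 1
          ext f
          simp only [mem_filter, mem_union, mem_univ, true_and]
          omega
        · rw [disjoint_filter]
          intro f _ h5 h6
          omega
      rw [h4]
      linear_combination two (p e) + two (own M jt jb e e) +
        two (∑ f ∈ univ.filter (fun f => t < M.X f), dt jt jb ut ub e f)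
    by_cases h4 : t = M.hi e
    · rw [if_neg (fun h => by have := h.2; omega), if_pos ⟨by omega, by omega⟩,
        if_pos (by omega), if_neg (by omega), hz _ (fun f h2 h3 => by omega)]
      unfold be
      rw [if_neg (not_lt.2 hlt.le), hz _ (fun f h2 h3 => by omega)]
      ring
    · rw [if_neg (fun h => by have := h.2; omega), if_neg (fun h => by have := h.2; omega),
        if_neg (by omega), if_neg (by omega), hz _ (fun f h2 h3 => by omega)]
      ring

end

/-- the function `Q` -/
def Q (p : E → ZMod 2) (a b : ℤ) : ZMod 2 :=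
  ∑ e ∈ univ.filter (fun e => b < M.Y e), if M.Cov e a then be M jt jb ut ub p a e else 0

section

variable (hX : Function.Injective M.X) (hY : Function.Injective M.Y) (hs : ∀ e, M.s e ≠ e)
  (hut : ∀ f, jt f ≠ 0 → M.lo (ut f) < M.X f ∧ M.X f < M.hi (ut f) ∧ M.tp f < M.Y (ut f))
  (hub : ∀ f, jb f ≠ 0 → M.lo (ub f) < M.X f ∧ M.X f < M.hi (ub f) ∧ M.Y (ub f) < M.bo f)
include hX hs hut hub

theorem jump (p : E → ZMod 2)
    (hp : ∀ e, p (M.s e) = p e + (own M jt jb e e + own M jt jb (M.s e) e +
      ∑ f, dt jt jb ut ub e f)) (t b : ℤ) :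
    Q M jt jb ut ub p t b + Q M jt jb ut ub p (t - 1) b =
    ∑ f ∈ univ.filter (fun f => M.X f = t), ((if b < M.Y (ut f) then jt f else 0) +
      (if b < M.Y (ub f) then jb f else 0) +
      (if b < M.Y f then p f + own M jt jb f f else 0) +
      (if b < M.Y (M.s.symm f) then p f + own M jt jb f (M.s.symm f) else 0)) := by
  unfold Q
  rw [← sum_add_distrib, sum_congr rfl (fun e _ => jump_edge M jt jb ut ub hX hs hut hub p hp t e),
    sum_add_distrib, sum_add_distrib, sum_add_distrib, sum_add_distrib, sum_add_distrib]
  congr 1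
  · congr 1
    · rw [sum_comm, ← sum_add_distrib]
      refine sum_congr rfl fun f _ => ?_
      unfold dt
      rw [sum_add_distrib, sum_ite_eq, sum_ite_eq]
      simp only [mem_filter, mem_univ, true_and]
    · rw [← sum_filter, ← sum_filter, filter_filter, filter_filter]
      refine sum_congr ?_ fun _ _ => rfl
      ext f
      simp only [mem_filter, mem_univ, true_and]
      tauto
  · rw [← sum_filter, ← sum_filter, filter_filter, filter_filter]
    refine sum_bij (fun e _ => M.s e) ?_ ?_ ?_ ?_
    · intro e he
      simp only [mem_filter, mem_univ, true_and, Equiv.symm_apply_apply] at he ⊢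
      exact ⟨he.2, he.1⟩
    · intro e _ f _ h
      exact M.s.injective h
    · intro f hf
      refine ⟨M.s.symm f, ?_, Equiv.apply_symm_apply _ _⟩
      simp only [mem_filter, mem_univ, true_and, Equiv.apply_symm_apply] at hf ⊢
      exact ⟨hf.2, hf.1⟩
    · intro e _
      rw [Equiv.symm_apply_apply]

end

end EXAM

theorem specEXA (hPOT : SpecPOT) : SpecEXA := by
  intro ι E _ _ _ M hM jt jb ut ub hut hub hbal
  have hX := hM.X_inj
  have hY := hM.Y_inj
  have hs := hM.s_ne
  obtain ⟨p, hp⟩ := hPOT ι E M.s M.comp (fun e => EXAM.own M jt jb e e + EXAM.own M jt jb (M.s e) e +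
      ∑ f, EXAM.dt jt jb ut ub e f) hM.comp_s hM.comp_conn (by
    intro i
    rw [← hbal i, sum_add_distrib, sum_add_distrib]
    have h1 : ∑ e ∈ univ.filter (fun e => M.comp e = i), EXAM.own M jt jb (M.s e) e =
        ∑ f ∈ univ.filter (fun f => M.comp f = i), EXAM.own M jt jb f (M.s.symm f) := by
      refine sum_bij (fun e _ => M.s e) ?_ ?_ ?_ ?_
      · intro e he
        simp only [mem_filter, mem_univ, true_and] at he ⊢
        rw [hM.comp_s, he]
      · intro e _ f _ h
        exact M.s.injective h
      · intro f hf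
        refine ⟨M.s.symm f, ?_, Equiv.apply_symm_apply _ _⟩
        simp only [mem_filter, mem_univ, true_and] at hf ⊢
        rw [← hM.comp_s, Equiv.apply_symm_apply, hf]
      · intro e _
        rw [Equiv.symm_apply_apply]
    have h2 : ∑ e ∈ univ.filter (fun e => M.comp e = i), ∑ f, EXAM.dt jt jb ut ub e f =
        ∑ f ∈ univ.filter (fun f => M.comp (ut f) = i), jt f +
        ∑ f ∈ univ.filter (fun f => M.comp (ub f) = i), jb f := by
      rw [sum_comm, sum_filter, sum_filter, ← sum_add_distrib]
      refine sum_congr rfl fun f _ => ?_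
      unfold EXAM.dt
      rw [sum_add_distrib, sum_ite_eq, sum_ite_eq]
      simp only [mem_filter, mem_univ, true_and]
    rw [h1, h2, ← sum_add_distrib, sum_congr rfl (fun f _ => EXAM.own_add M jt jb hY hs f)]
    ring)
  have hj := EXAM.jump M jt jb ut ub hX hs hut hub p hp
  have hline : ∀ f : E, univ.filter (fun g => M.X g = M.X f) = {f} := by
    intro f
    ext g
    simp only [mem_filter, mem_univ, true_and, mem_singleton]
    exact hX.eq_iff
  have hbt : ∀ f, M.bo f ≤ M.tp f := fun f => min_le_max
  refine ⟨EXAM.Q M jt jb ut ub p, ?_, ?_, ?_, ?_⟩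
  · intro a b hb
    unfold EXAM.Q
    rw [← sum_filter, ← sum_filter, filter_filter, filter_filter]
    refine sum_congr ?_ fun _ _ => rfl
    ext e
    simp only [mem_filter, mem_univ, true_and]
    constructor
    · rintro ⟨h1, h2⟩
      exact ⟨by omega, h2⟩
    · rintro ⟨h1, h2⟩
      refine ⟨?_, h2⟩
      by_contra h3
      exact hb e (by omega) h2
  · intro f b hb
    rw [hj, hline, sum_singleton]
    have h1 := EXAM.own_sum M jt jb hY hs f (p f) b
    have h2 := hbt f
    rw [if_neg (by omega : ¬ b < M.tp f), if_neg (by omega : ¬ b < M.bo f)] at h1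
    have h3 : (if b < M.Y (ub f) then jb f else 0) = 0 := by
      split_ifs with h4
      · by_contra h5
        have := (hub f h5).2.2
        omega
      · rfl
    rw [h3]
    linear_combination h1
  · intro f b hb
    rw [hj, hline, sum_singleton]
    have h1 := EXAM.own_sum M jt jb hY hs f (p f) b
    have h2 := hbt f
    rw [if_pos (by omega : b < M.tp f), if_pos (by omega : b < M.bo f)] at h1
    have h3 : (if b < M.Y (ut f) then jt f else 0) = jt f := by
      split_ifs with h4
      · rfl
      · by_contra h5
        have := (hut f (Ne.symm h5)).2.2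
        omega
    have h4 : (if b < M.Y (ub f) then jb f else 0) + jb f = if M.Y (ub f) ≤ b then jb f else 0 := by
      by_cases h5 : b < M.Y (ub f)
      · rw [if_pos h5, if_neg (not_le.2 h5), EXAM.two]
      · rw [if_neg h5, if_pos (not_lt.1 h5), zero_add]
    rw [h3]
    linear_combination h1 + h4 + EXAM.two (jt f) + EXAM.two (p f)
  · intro t b ht
    have h1 := hj t b
    rw [show univ.filter (fun f => M.X f = t) = (∅ : Finset E) from
      filter_eq_empty_iff.2 (fun f _ => ht f), sum_empty] at h1
    linear_combination h1 - EXAM.two (EXAM.Q M jt jb ut ub p (t - 1) b)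

end Pool.Agent.Lib.MP06c549
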