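import Pool.Agent.Lib.MP_06c549_co.Spec

section
/-!
# Module BAL: the balance of the chord ends
-/
namespace Pool.Agent.Lib.MP06c549

open Finset

namespace BALM

lemma two (x : ZMod 2) : x + x = 0 := CharTwo.add_self_eq_zero x

variable {ι E : Type} [DecidableEq ι] [Fintype E] [DecidableEq E]

/-- the two ends of the chord of `f` -/
noncomputable def cc (M : RM ι E) (i : ι) (f : E) : ZMod 2 :=
  (if M.comp f = i then 1 else 0) + (if M.comp (M.ot f) = i then 1 else 0)

lemma key (hLIN : SpecLIN) (hTGA : SpecTGA) (hTGD : SpecTGD) (M : RM ι E) (hM : M.Good) (i : ι)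
    (g : E) (hg : M.RT g) :
    cc M i g + ∑ f ∈ univ.filter (fun f => M.RT f ∧ M.ot g = M.ot f ∧ M.tl g = M.X f), cc M i f =
    (if M.comp (M.ta g) = i then 1 else 0) + (if M.comp (M.tb g) = i then 1 else 0) := by
  obtain ⟨-, l2, -, -⟩ := hLIN ι E M hM
  have one : ∀ f₀, M.RT f₀ → M.ot f₀ = M.ot g → M.X f₀ = M.tl g →
      univ.filter (fun f => M.RT f ∧ M.ot g = M.ot f ∧ M.tl g = M.X f) = {f₀} := by
    intro f₀ h1 h2 h3
    ext f
    simp only [mem_filter, mem_univ, true_and, mem_singleton]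
    constructor
    · rintro ⟨-, -, h⟩
      exact hM.X_inj (by rw [← h, h3])
    · rintro rfl
      exact ⟨h1, h2.symm, h3.symm⟩
  have none : M.tl g = M.lo (M.ot g) ∨ M.tl g = M.hi (M.ot g) →
      univ.filter (fun f => M.RT f ∧ M.ot g = M.ot f ∧ M.tl g = M.X f) = ∅ := by
    intro h
    rw [filter_eq_empty_iff]
    rintro f - ⟨h1, h2, h3⟩
    obtain ⟨-, k2, k3, -⟩ := l2 f h1
    rw [← h2] at k2 k3
    omega
  by_cases ha : M.asc g
  · obtain ⟨-, -, -, t4, -, -, -, t8⟩ := hTGA ι E M hM g hg ha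
    rcases t8 with ⟨h1, h2⟩ | ⟨-, f₀, h1, h2, h3, -, -, h6⟩
    · rw [none (Or.inl h1), sum_empty, add_zero, t4, h2]
      rfl
    · rw [one f₀ h1 h2 h3, sum_singleton, t4]
      unfold cc
      rw [h6, h2]
      linear_combination two (if M.comp (M.ot g) = i then 1 else 0)
  · obtain ⟨-, -, -, t4, -, -, -, t8⟩ := hTGD ι E M hM g hg ha
    rcases t8 with ⟨h1, h2⟩ | ⟨-, f₀, h1, h2, h3, -, -, h6⟩
    · rw [none (Or.inr h1), sum_empty, add_zero, t4, h2]
      unfold cc
      ring
    · rw [one f₀ h1 h2 h3, sum_singleton, t4]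
      unfold cc
      rw [h6, h2]
      linear_combination two (if M.comp (M.ot g) = i then 1 else 0)

end BALM

open BALM in
/-- BAL. -/
theorem specBAL (hLIN : SpecLIN) (hTGA : SpecTGA) (hTGD : SpecTGD) : SpecBAL := by
  intro ι E _ _ _ M hM w i
  have e1 : ∑ f ∈ univ.filter (fun f => M.comp f = i), M.jt w f +
      ∑ f ∈ univ.filter (fun f => M.comp (M.ot f) = i), M.jt w f =
      ∑ f ∈ univ.filter (fun f => M.RT f), (w f +
        ∑ g ∈ univ.filter (fun g => M.RT g ∧ M.ot g = M.ot f ∧ M.tl g = M.X f), w g) *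
          cc M i f := by
    rw [sum_filter, sum_filter, ← sum_add_distrib, sum_filter]
    refine sum_congr rfl fun f _ => ?_
    unfold RM.jt cc
    by_cases h1 : M.RT f
    · simp only [if_pos h1]
      rw [mul_add, mul_ite, mul_ite, mul_one, mul_zero]
    · simp only [if_neg h1, ite_self, add_zero]
  rw [e1]
  have e2 : ∀ f ∈ univ.filter (fun f => M.RT f), (w f +
      ∑ g ∈ univ.filter (fun g => M.RT g ∧ M.ot g = M.ot f ∧ M.tl g = M.X f), w g) * cc M i f =
      w f * cc M i f + ∑ g ∈ univ.filter (fun g => M.RT g),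
        (if M.ot g = M.ot f ∧ M.tl g = M.X f then w g * cc M i f else 0) := by
    intro f _
    rw [add_mul, sum_mul, ← sum_filter, filter_filter]
  rw [sum_congr rfl e2, sum_add_distrib, sum_comm, ← sum_add_distrib]
  refine sum_congr rfl fun g hg => ?_
  rw [mem_filter] at hg
  rw [← key hLIN hTGA hTGD M hM i g hg.2, mul_add, ← sum_filter, filter_filter, mul_sum]

end Pool.Agent.Lib.MP06c549
end

section
/-! # Module BEL -/
namespace Pool.Agent.Lib.MP06c549

open Finset

namespace BELM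

variable {ι E : Type} [Fintype E] [DecidableEq E]

theorem top_spec (M : RM ι E) (j : E) (t : Finset E) (h : t.Nonempty) :
    M.top j t ∈ t ∧ ∀ x ∈ t, M.Y x ≤ M.Y (M.top j t) := by
  unfold RM.top
  rw [dif_pos h]
  exact (exists_max_image t M.Y h).choose_spec

end BELM

open BELM in
theorem specBEL (hSX : SpecSX) (hFLC : SpecFLC) : SpecBEL := by
  intro ι E _ _ M hM C a hC hCa
  obtain ⟨s1, s2, s3, s4, s5, s6⟩ := hSX ι E M hM
  have hS0 : M.S a (M.Y C - 1) := (hFLC ι E M hM C a hCa).2.2 hC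
  -- going down from `C` as long as no edge covers the column
  have down : ∀ (y : ℤ), (∀ e, M.Cov e a → M.Y e < M.Y C → M.Y e ≤ y) →
      ∀ n : ℕ, y ≤ M.Y C - 1 - n → M.S a (M.Y C - 1 - n) := by
    intro y hy n
    induction n with
    | zero => intro _; simpa using hS0
    | succ n ih =>
      intro hn
      push_cast at hn ⊢
      have h1 := ih (by omega)
      have h2 := s4 a (M.Y C - 1 - n) (by
        intro e he hc
        have := hy e hc (by omega)
        omega)
      rw [show M.Y C - 1 - (n + 1) = M.Y C - 1 - n - 1 by ring]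
      exact h2.1 h1
  have hne : (univ.filter fun e => M.Cov e a ∧ M.Y e < M.Y C).Nonempty := by
    by_contra hcon
    rw [not_nonempty_iff_eq_empty, filter_eq_empty_iff] at hcon
    obtain ⟨e₀, -, h⟩ := exists_min_image (univ : Finset E) M.Y ⟨C, mem_univ C⟩
    have h0 := h C (mem_univ C)
    have h1 := down (M.Y e₀ - 1) (fun e h1 h2 => (hcon (mem_univ e) ⟨h1, h2⟩).elim)
      (M.Y C - M.Y e₀).toNat (by rw [Int.toNat_of_nonneg (by omega)]; omega)
    rw [Int.toNat_of_nonneg (by omega)] at h1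
    refine s5 a _ ?_ h1
    intro e
    have := h e (mem_univ e)
    omega
  obtain ⟨hmem, hmax⟩ := top_spec M C _ hne
  have hbel : M.top C (univ.filter fun e => M.Cov e a ∧ M.Y e < M.Y C) = M.bel C a := rfl
  rw [hbel] at hmem hmax
  rw [mem_filter] at hmem
  obtain ⟨-, hF1, hF2⟩ := hmem
  have hmax' : ∀ e, M.Cov e a → M.Y e < M.Y C → M.Y e ≤ M.Y (M.bel C a) :=
    fun e h1 h2 => hmax e (mem_filter.2 ⟨mem_univ e, h1, h2⟩)
  have hS : ∀ b, M.Y (M.bel C a) ≤ b → b < M.Y C → M.S a b := by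
    intro b hb1 hb2
    have h1 := down (M.Y (M.bel C a)) hmax' (M.Y C - 1 - b).toNat
      (by rw [Int.toNat_of_nonneg (by omega)]; omega)
    rw [Int.toNat_of_nonneg (by omega)] at h1
    rwa [show M.Y C - 1 - (M.Y C - 1 - b) = b by ring] at h1
  refine ⟨hF1, hF2, (hFLC ι E M hM _ a hF1).1.1 (hS _ le_rfl hF2), hmax', hS, ?_⟩
  -- the rotated statement
  have hcov : ∀ e, M.rot.Cov e (-1 - a) ↔ M.Cov e a := by
    intro e
    show (min (- M.X e) (- M.X (M.s e)) ≤ -1 - a ∧ -1 - a < max (- M.X e) (- M.X (M.s e))) ↔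
      (min (M.X e) (M.X (M.s e)) ≤ a ∧ a < max (M.X e) (M.X (M.s e)))
    omega
  have hset : C ∈ (univ.filter fun e => M.rot.Cov e (-1 - a) ∧
      M.rot.Y e < M.rot.Y (M.bel C a)) := by
    rw [mem_filter, hcov]
    exact ⟨mem_univ C, hCa, neg_lt_neg hF2⟩
  obtain ⟨h1, h2⟩ := top_spec M.rot (M.bel C a) _ ⟨C, hset⟩
  have hrb : M.rot.top (M.bel C a) (univ.filter fun e => M.rot.Cov e (-1 - a) ∧
      M.rot.Y e < M.rot.Y (M.bel C a)) = M.rot.bel (M.bel C a) (-1 - a) := rfl
  rw [hrb] at h1 h2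
  rw [mem_filter, hcov] at h1
  obtain ⟨-, h3, h4⟩ := h1
  have h4' : - M.Y (M.rot.bel (M.bel C a) (-1 - a)) < - M.Y (M.bel C a) := h4
  have h5 : - M.Y C ≤ - M.Y (M.rot.bel (M.bel C a) (-1 - a)) := h2 C hset
  apply hM.Y_inj
  by_contra hne'
  have h6 := hmax' _ h3 (by omega)
  omega

end Pool.Agent.Lib.MP06c549
end

section
/-! # MP_06c549_co: module HO -/
namespace Pool.Agent.Lib.MP06c549

open Finset

namespace HOM

lemma odd_sum_congr {ι : Type} [Fintype ι] {f g : ι → ℕ} (h : ∀ i, (Odd (f i) ↔ Odd (g i))) :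
    Odd (∑ i, f i) ↔ Odd (∑ i, g i) := by
  classical
  rw [Finset.odd_sum_iff_odd_card_odd, Finset.odd_sum_iff_odd_card_odd]
  simp only [h]

lemma cnt_univ {ι E : Type} [Fintype ι] [DecidableEq ι] [Fintype E] [DecidableEq E] (M : RM ι E)
    (a b : ℤ) : M.cnt univ a b = ∑ i, M.cnt (univ.filter fun e => M.comp e = i) a b := by
  unfold RM.cnt
  rw [Finset.card_eq_sum_card_fiberwise (f := M.comp) (t := univ) (by intro x _; simp)]
  refine Finset.sum_congr rfl fun i _ => ?_
  congr 1
  ext e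
  simp only [mem_filter, mem_univ, true_and]
  tauto

end HOM

theorem specHO (hREP : SpecREP) (hREG : SpecREG) : SpecHO := by
  intro ι E _ _ _ _ D hD X Y hX hY
  refine ⟨hD.surj, ?_⟩
  intro i hi a b hodd
  obtain ⟨q, hq1, hq2, hq⟩ := hREP ι E D hD X Y hX hY a b
  have hcar : ∀ j, q ∉ D.car j := by
    rintro j ⟨e, _, h | h⟩
    · exact hq2 e h.1.symm
    · exact hq1 e h.1.symm
  have heven := (hREG ι E D hD q).2.2 i hi hcar ((hq i).1 hodd)
  unfold RM.S
  rw [HOM.cnt_univ, ← Nat.not_even_iff_odd, not_not]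
  rw [← Nat.not_odd_iff_even] at heven ⊢
  exact fun hc => heven ((HOM.odd_sum_congr hq).1 hc)

end Pool.Agent.Lib.MP06c549
end

section
/-! # MP_06c549_co: module BIN -/
namespace Pool.Agent.Lib.MP06c549

open Finset

theorem specBIN (hLOC : SpecLOC) (hREG : SpecREG) : SpecBIN := by
  intro ι E _ _ _ _ D hD X Y hX hY a b hS q hq
  obtain ⟨h1, h2, -⟩ := hREG ι E D hD q
  by_cases hex : ∃ i, q ∈ D.car i
  · exact h1 hex
  · push Not at hex
    rw [h2 hex]
    unfold RM.S at hS
    rw [HOM.cnt_univ] at hS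
    exact (HOM.odd_sum_congr fun i => hLOC ι E D hD X Y hX hY a b q hq i (hex i)).1 hS

end Pool.Agent.Lib.MP06c549
end

section
/-! # MP_06c549_co: module CAN -/
namespace Pool.Agent.Lib.MP06c549

open Finset

namespace CANM

variable {E : Type} [Fintype E]

omit [Fintype E] in
/-- the order of the ranks determines the weak order of the numbers -/
lemma le_of_rank {x : E → ℝ} {X : E → ℤ} (h : RD.Ranks x X) {e f : E} (hef : X e ≤ X f) :
    x e ≤ x f := by
  by_contra hc
  have := h.2 f e (not_le.mp hc)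
  omega

lemma mem_uIcc_of {u v t : ℝ} (h1 : u ≤ t ∨ v ≤ t) (h2 : t ≤ u ∨ t ≤ v) : t ∈ Set.uIcc u v := by
  rw [Set.mem_uIcc]
  rcases h1 with h1 | h1 <;> rcases h2 with h2 | h2
  · rcases le_total u v with h | h
    · exact Or.inl ⟨h1, h2.trans h⟩
    · exact Or.inr ⟨h.trans h1, h2⟩
  · exact Or.inl ⟨h1, h2⟩
  · exact Or.inr ⟨h1, h2⟩
  · rcases le_total u v with h | h
    · exact Or.inl ⟨h.trans h1, h2⟩
    · exact Or.inr ⟨h1, h2.trans h⟩

/-- the canonical column of a real number -/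
lemma can1 {x : E → ℝ} {X : E → ℤ} (h : RD.Ranks x X) (t : ℝ) : ∃ a : ℤ, ∀ e, X e ≤ a ↔ x e ≤ t := by
  classical
  by_cases hA : (univ.filter fun e => x e ≤ t).Nonempty
  · obtain ⟨e0, he0, hmax⟩ := exists_max_image _ X hA
    refine ⟨X e0, fun e => ⟨fun hle => ?_, fun hle => hmax e (by simp [hle])⟩⟩
    exact (le_of_rank h hle).trans (by simpa using he0)
  · obtain ⟨m, hm⟩ := (Set.finite_range X).bddBelow
    refine ⟨m - 1, fun e => ⟨fun hle => ?_, fun hle => ?_⟩⟩
    · have := hm ⟨e, rfl⟩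
      omega
    · exact absurd ⟨e, by simp [hle]⟩ hA

variable {ι : Type}

lemma rp_eq [DecidableEq ι] (D : RD ι E) {X Y : E → ℤ} {q : ℝ × ℝ} {a b : ℤ} (ha : ∀ e, X e ≤ a ↔ D.x e ≤ q.1)
    (hb : ∀ e, Y e ≤ b ↔ D.y e ≤ q.2) (i : ι) :
    D.rp i q = (D.mod X Y).cnt (univ.filter fun e => D.comp e = i) a b := by
  unfold RD.rp RM.cnt
  congr 1
  ext e
  have h1 : (D.mod X Y).Cov e a ↔ (min (D.x e) (D.x (D.s e)) ≤ q.1 ∧
      q.1 < max (D.x e) (D.x (D.s e))) := by
    unfold RM.Cov RM.lo RM.hi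
    simp only [RD.mod, min_le_iff, lt_max_iff]
    rw [ha, ha, ← not_le, ← not_le, ha, ha, not_le, not_le]
  have h2 : b < (D.mod X Y).Y e ↔ q.2 < D.y e := by
    simp only [RD.mod]
    rw [← not_le, hb, not_le]
  simp only [mem_filter, mem_univ, true_and, h1, h2]
  tauto

/-- horizontal move: the parity does not change if no spanning line is crossed -/
lemma hmove [DecidableEq E] (hCR : SpecCR) (M : RM ι E) (hX : Function.Injective M.X)
    (hY : Function.Injective M.Y) (hs : ∀ e, M.s e ≠ e) {K : Finset E}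
    (hK : ∀ e, M.s e ∈ K ↔ e ∈ K) {a a' b : ℤ} (haa : a ≤ a')
    (h : ∀ f ∈ K, a < M.X f → M.X f ≤ a' → ¬ (M.bo f ≤ b ∧ b < M.tp f)) :
    Odd (M.cnt K a' b) ↔ Odd (M.cnt K a b) := by
  obtain ⟨c1, c2, -, -, -⟩ := hCR ι E M hX hY hs K hK
  induction a', haa using Int.leInduction with
  | base => rfl
  | succ n hn ih =>
    rw [← ih fun f hf h1 h2 => h f hf h1 (by omega)]
    by_cases hex : ∃ f ∈ K, M.X f = n + 1
    · obtain ⟨f, hf, hfx⟩ := hex
      have h3 := (c1 f b).2 (fun h4 => h f hf (by omega) (by omega) ⟨h4.2.1, h4.2.2⟩)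
      rw [hfx, add_sub_cancel_right] at h3
      exact h3
    · push Not at hex
      have h3 := c2 (n + 1) b hex
      rw [add_sub_cancel_right] at h3
      exact h3

omit [Fintype E] in
/-- vertical move: nothing changes if no covering edge is crossed -/
lemma vmove (M : RM ι E) {K : Finset E} {a b b' : ℤ}
    (h : ∀ e ∈ K, M.Cov e a → (b < M.Y e ↔ b' < M.Y e)) :
    M.cnt K a b = M.cnt K a b' := by
  unfold RM.cnt
  congr 1
  ext e
  simp only [mem_filter]
  constructor
  · rintro ⟨h1, h2, h3⟩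
    exact ⟨h1, h2, (h e h1 h2).1 h3⟩
  · rintro ⟨h1, h2, h3⟩
    exact ⟨h1, h2, (h e h1 h2).2 h3⟩

lemma closed [DecidableEq ι] (D : RD ι E) (hD : D.OK) (i : ι) (e : E) :
    D.s e ∈ (univ.filter fun e => D.comp e = i) ↔ e ∈ (univ.filter fun e => D.comp e = i) := by
  simp [hD.comp_s]

lemma s_ne [DecidableEq ι] (D : RD ι E) (hD : D.OK) (e : E) : D.s e ≠ e := fun h => hD.xne e (by rw [h])

end CANM

theorem specCAN : SpecCAN := by
  intro ι E _ _ _ D _ X Y hX hY q
  obtain ⟨a, ha⟩ := CANM.can1 hX q.1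
  obtain ⟨b, hb⟩ := CANM.can1 hY q.2
  exact ⟨a, b, ha, hb, fun i => CANM.rp_eq D ha hb i⟩

end Pool.Agent.Lib.MP06c549
end

section
/-! # Module CEL -/
namespace Pool.Agent.Lib.MP06c549

open Finset

theorem specCEL (hSX : SpecSX) (hFLC : SpecFLC) (hBEL : SpecBEL) : SpecCEL := by
  intro ι E _ _ M hM a b hab
  obtain ⟨s1, s2, s3, s4, s5, s6⟩ := hSX ι E M hM
  have hne : (univ.filter fun e => M.Cov e a ∧ b < M.Y e).Nonempty := by
    rw [← card_pos]
    exact Odd.pos hab
  obtain ⟨C, hC, hmin⟩ := exists_min_image _ M.Y hne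
  rw [mem_filter] at hC
  obtain ⟨-, hC1, hC2⟩ := hC
  have hmin' : ∀ e, M.Cov e a → b < M.Y e → M.Y C ≤ M.Y e :=
    fun e h1 h2 => hmin e (mem_filter.2 ⟨mem_univ e, h1, h2⟩)
  have up : ∀ c, b ≤ c → c < M.Y C → M.S a c := by
    intro c hc
    induction c, hc using Int.le_induction with
    | base => intro _; exact hab
    | succ c hc ih =>
      intro hlt
      have h2 := s4 a (c + 1) (by
        intro e he hcov
        have := hmin' e hcov (by omega)
        omega)
      rw [add_sub_cancel_right] at h2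
      exact h2.2 (ih (by omega))
  have hFl : ¬ M.Fl C := (hFLC ι E M hM C a hC1).2.1 (up (M.Y C - 1) (by omega) (by omega))
  refine ⟨C, hFl, hC1, ?_, hC2⟩
  obtain ⟨h1, h2, -⟩ := hBEL ι E M hM C a hFl hC1
  by_contra hcon
  push Not at hcon
  have h3 := hmin' (M.bel C a) h1 hcon
  omega

end Pool.Agent.Lib.MP06c549
end

section
/-! # MP_06c549_co: the colouring (COL) -/
namespace Pool.Agent.Lib.MP06c549

open Finset

namespace COLM

variable {ι E : Type} [Fintype E] [DecidableEq E]

theorem add_self (x : ZMod 2) : x + x = 0 := CharTwo.add_self_eq_zero x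

/-- the colour of (the A-vertex of) the edge `e` -/
def colv (M : RM ι E) (Q : ℤ → ℤ → ZMod 2) (e : E) : ZMod 2 :=
  if M.Fl e then Q (M.lo e) (M.Y e) + 1 else Q (M.hi e - 1) (M.Y e - 1)

theorem claim (hU : SpecUPC) (hO : SpecOWN) (hF : SpecURF) {M : RM ι E} (hM : M.Good)
    {wt wb : E → ZMod 2} {Q : ℤ → ℤ → ZMod 2} {D : Finset E} (hQ : QGood M wt wb Q)
    (hw : ∀ f, M.RT f → M.ta f ∉ D → wt f = if M.asc f then 1 else 0)
    {C : E} {a : ℤ} (hC : ¬ M.Fl C) (hc : M.Cov C a) (hD : M.ur C a ∉ D) :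
    colv M Q (M.ur C a) = Q a (M.Y C - 1) := by
  have h1 := hU ι E M hM wt wb Q hQ C a hC hc (fun f f1 f2 f3 => by
    rw [hw f f1 (by rw [f3]; exact hD), if_neg f2])
  rw [h1]
  unfold colv RM.ax
  by_cases hfl : M.Fl (M.ur C a)
  · rw [if_pos hfl, if_pos hfl, if_pos hfl]
    obtain ⟨f, f1, f2, f3, _⟩ := (hF ι E M hM C a hC hc).1 hfl
    have hwf : wt f = 1 := by
      rw [hw f f1 (by rw [f3]; exact hD), if_pos f2]
    have h2 := hO ι E M hM wt wb Q hQ f f1 f2 hwf (fun g g1 g2 g3 => by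
      rw [hw g g1 (by rw [g3, f3]; exact hD), if_neg g2])
    rw [f3] at h2
    unfold RM.ax at h2
    rw [if_pos hfl] at h2
    rw [← h2, ← add_assoc, add_self, zero_add]
  · rw [if_neg hfl, if_neg hfl, if_neg hfl]

theorem vert_down {M : RM ι E} {wt wb : E → ZMod 2} {Q : ℤ → ℤ → ZMod 2}
    (hQ : QGood M wt wb Q) {a y : ℤ} (n : ℕ)
    (h : ∀ e b, y < b → b ≤ y + n → M.Y e = b → ¬ M.Cov e a) : Q a (y + n) = Q a y := by
  induction n with
  | zero => simp
  | succ n ih =>
    rw [hQ.vert a (y + (n + 1 : ℕ)) (fun e he => h e _ (by push_cast; omega) le_rfl he)]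
    have : y + ((n + 1 : ℕ) : ℤ) - 1 = y + n := by push_cast; ring
    rw [this]
    exact ih (fun e b b1 b2 => h e b b1 (by push_cast; omega))

theorem colv_rot (hR : SpecROT) {M : RM ι E} (hM : M.Good) (Q : ℤ → ℤ → ZMod 2) (e : E) :
    colv M.rot (fun a b => Q (-1 - a) (-1 - b)) e = colv M Q e + 1 := by
  obtain ⟨_, _, r3, _, _, r6, _, _⟩ := hR ι E M hM
  obtain ⟨s1, s2, _, _⟩ := r3 e
  unfold colv
  by_cases hfl : M.Fl e
  · have : ¬ M.rot.Fl e := fun h => (r6 e).1 h hfl
    rw [if_neg this, if_pos hfl, add_assoc, add_self, add_zero]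
    show Q (-1 - (M.rot.hi e - 1)) (-1 - (- M.Y e - 1)) = _
    rw [s2]
    congr 1 <;> ring
  · have : M.rot.Fl e := (r6 e).2 hfl
    rw [if_pos this, if_neg hfl]
    show Q (-1 - (M.rot.lo e)) (-1 - (- M.Y e)) + 1 = _
    rw [s1]
    congr 2 <;> ring

end COLM

open COLM in
theorem specCOL (hU : SpecUPC) (hO : SpecOWN) (hF : SpecURF) (hQR : SpecQRT) (hR : SpecROT)
    (hB : SpecBEL) : SpecCOL := by
  intro ι E _ _ M hM wt wb Q D hQ hw hw'
  refine ⟨colv M Q, fun C a hC hc => ?_⟩
  by_cases h1 : M.ur C a ∈ D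
  · exact Or.inl h1
  by_cases h2 : M.rot.ur (M.bel C a) (-1 - a) ∈ D
  · exact Or.inr (Or.inl h2)
  right; right
  have e1 := claim hU hO hF hM hQ hw hC hc h1
  obtain ⟨r1, _, _, r4, _, r6, _, _⟩ := hR ι E M hM
  obtain ⟨b1, b2, b3, b4, _, _⟩ := hB ι E M hM C a hC hc
  have hC' : ¬ M.rot.Fl (M.bel C a) := fun h => (r6 _).1 h b3
  have hc' : M.rot.Cov (M.bel C a) (-1 - a) := by
    rw [r4]
    have : -1 - (-1 - a) = a := by ring
    rw [this]
    exact b1
  have e2 := claim hU hO hF r1 (hQR ι E M hM wt wb Q hQ) hw' hC' hc' h2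
  rw [colv_rot hR hM] at e2
  have e3 : (fun a b => Q (-1 - a) (-1 - b)) (-1 - a) (M.rot.Y (M.bel C a) - 1) =
      Q a (M.Y (M.bel C a)) := by
    show Q (-1 - (-1 - a)) (-1 - (- M.Y (M.bel C a) - 1)) = _
    congr 1 <;> ring
  have e4 : Q a (M.Y C - 1) = Q a (M.Y (M.bel C a)) := by
    obtain ⟨n, hn⟩ := Int.eq_ofNat_of_zero_le (show 0 ≤ M.Y C - 1 - M.Y (M.bel C a) by omega)
    have := vert_down hQ (a := a) (y := M.Y (M.bel C a)) n (by
      intro e b k1 k2 k3 k4
      have := b4 e k4 (by omega)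
      omega)
    rw [← this]
    congr 1
    omega
  rw [e1, e4]
  have e5 : COLM.colv M Q (M.rot.ur (M.bel C a) (-1 - a)) + 1 = Q a (M.Y (M.bel C a)) := by
    rw [e2]
    exact e3
  rw [← e5]
  intro h
  exact one_ne_zero (left_eq_add.1 h.symm)

end Pool.Agent.Lib.MP06c549
end

section
/-!
# Module COV: the label of a run sees the run
-/
namespace Pool.Agent.Lib.MP06c549

open Finset

/-- COV. -/
theorem specCOV (hSEQ : SpecSEQ) (hLIN : SpecLIN) (hBEL : SpecBEL) : SpecCOV := by
  intro ι E _ _ M hM C a b hC hCa hab hb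
  obtain ⟨l1, l2, l3, l4⟩ := hLIN ι E M hM
  obtain ⟨s1, s2, s3, s4⟩ := hSEQ.2 (M.ht C) (M.hi C) a hCa.2
  set U := UU (M.ht C) (M.hi C) a with hU
  have hcell : ∀ k b', a ≤ k → k < U → M.ht C a ≤ b' → b' < M.Y C → M.S k b' := by
    intro k b' h1 h2 h3 h4
    obtain ⟨-, -, -, -, q5, -⟩ := hBEL ι E M hM C k hC ⟨hCa.1.trans h1, by omega⟩
    exact q5 b' ((s3 k h1 h2).trans h3) h4
  by_cases hp : U = M.hi C
  · have hur : M.ur C a = C := by
      unfold RM.ur
      rw [← hU, if_pos hp]
    have hax : M.ax C = U := by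
      unfold RM.ax
      rw [if_neg hC, hp]
    rw [hur, hax]
    intro a' b' h1 h2 h3 h4
    exact hcell a' b' (by omega) (by omega) (by omega) (by omega)
  · have hlt : U < M.hi C := lt_of_le_of_ne s2 hp
    have hur : M.ur C a = M.bel C U := by
      unfold RM.ur
      rw [← hU, if_neg hp]
    have h1 := s4 hlt
    have h2 := s3 (U - 1) (by omega) (by omega)
    have h3 := hCa.1
    obtain ⟨g, g1, g2, g3⟩ := l1 C U hC (by omega) hlt (by omega)
    have hg : M.asc g := by
      unfold RM.asc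
      rw [g3, g1]
      omega
    obtain ⟨e1, -, -⟩ := l3 g g2 hg
    rw [g3, g1] at e1
    obtain ⟨-, q2, q3, -⟩ := hBEL ι E M hM C U hC ⟨by omega, hlt⟩
    have hax : M.ax (M.bel C U) = U := by
      unfold RM.ax
      rw [if_pos q3, e1]
    have hY : M.Y (M.bel C U) = M.ht C U := rfl
    rw [hur, hax]
    intro a' b' h4 h5 h6 h7
    exact hcell a' b' (by omega) (by omega) (by omega) (by omega)

end Pool.Agent.Lib.MP06c549
end

section
/-!
# Module CR: the crossing rules
-/
set_option autoImplicit false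

namespace Pool.Agent.Lib.MP06c549

open Finset

namespace CRM

variable {ι E : Type} [Fintype E] [DecidableEq E]

/-- the indicator of a proposition with values in `ZMod 2` -/
def ind (p : Prop) [Decidable p] : ZMod 2 := if p then 1 else 0

theorem ind_iff {p q : Prop} [Decidable p] [Decidable q] (h : p ↔ q) : ind p = ind q := by
  unfold ind
  by_cases hp : p
  · rw [if_pos hp, if_pos (h.1 hp)]
  · rw [if_neg hp, if_neg (fun hq => hp (h.2 hq))]

theorem ind_and (p q : Prop) [Decidable p] [Decidable q] : ind (p ∧ q) = ind p * ind q := by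
  unfold ind
  by_cases hp : p <;> by_cases hq : q <;> simp [hp, hq]

omit [Fintype E] [DecidableEq E] in
theorem cnt_cast (M : RM ι E) (K : Finset E) (a b : ℤ) :
    ((M.cnt K a b : ℕ) : ZMod 2) = ∑ e ∈ K, ind (b < M.Y e) * ind (M.Cov e a) := by
  unfold RM.cnt
  rw [card_filter, Nat.cast_sum]
  refine sum_congr rfl fun e _ => ?_
  unfold ind
  by_cases h1 : M.Cov e a <;> by_cases h2 : b < M.Y e <;> simp [h1, h2]

omit [Fintype E] [DecidableEq E] in
theorem cov_add (M : RM ι E) (e : E) (a : ℤ) (hne : M.X e ≠ M.X (M.s e)) :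
    ind (M.Cov e a) + ind (M.Cov e (a - 1)) = ind (M.X e = a) + ind (M.X (M.s e) = a) := by
  have h2 : (1 : ZMod 2) + 1 = 0 := by decide
  rcases lt_or_gt_of_ne hne with h | h
  · have hc : ∀ a, M.Cov e a ↔ (M.X e ≤ a ∧ a < M.X (M.s e)) := fun a => by
      unfold RM.Cov RM.lo RM.hi
      rw [min_eq_left h.le, max_eq_right h.le]
    rw [ind_iff (hc a), ind_iff (hc (a - 1))]
    unfold ind
    rcases lt_trichotomy a (M.X e) with h3 | h3 | h3
    · rw [if_neg (by omega), if_neg (by omega), if_neg (by omega), if_neg (by omega)]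
    · rw [if_pos (by omega), if_neg (by omega), if_pos (by omega), if_neg (by omega)]
    · rcases lt_trichotomy a (M.X (M.s e)) with h4 | h4 | h4
      · rw [if_pos (by omega), if_pos (by omega), if_neg (by omega), if_neg (by omega), h2,
          add_zero]
      · rw [if_neg (by omega), if_pos (by omega), if_neg (by omega), if_pos (by omega)]
      · rw [if_neg (by omega), if_neg (by omega), if_neg (by omega), if_neg (by omega)]
  · have hc : ∀ a, M.Cov e a ↔ (M.X (M.s e) ≤ a ∧ a < M.X e) := fun a => by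
      unfold RM.Cov RM.lo RM.hi
      rw [min_eq_right h.le, max_eq_left h.le]
    rw [ind_iff (hc a), ind_iff (hc (a - 1))]
    unfold ind
    rcases lt_trichotomy a (M.X (M.s e)) with h3 | h3 | h3
    · rw [if_neg (by omega), if_neg (by omega), if_neg (by omega), if_neg (by omega)]
    · rw [if_pos (by omega), if_neg (by omega), if_neg (by omega), if_pos (by omega), add_comm]
    · rcases lt_trichotomy a (M.X e) with h4 | h4 | h4
      · rw [if_pos (by omega), if_pos (by omega), if_neg (by omega), if_neg (by omega), h2,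
          add_zero]
      · rw [if_neg (by omega), if_pos (by omega), if_pos (by omega), if_neg (by omega), add_comm]
      · rw [if_neg (by omega), if_neg (by omega), if_neg (by omega), if_neg (by omega)]

theorem cnt_add (M : RM ι E) (hX : Function.Injective M.X) (hs : ∀ e, M.s e ≠ e)
    (K : Finset E) (hK : ∀ e, M.s e ∈ K ↔ e ∈ K) (a b : ℤ) :
    ((M.cnt K a b : ℕ) : ZMod 2) + ((M.cnt K (a - 1) b : ℕ) : ZMod 2) =
      ∑ f ∈ K, ind (M.X f = a) * (ind (b < M.Y f) + ind (b < M.Y (M.s.symm f))) := by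
  rw [cnt_cast, cnt_cast, ← sum_add_distrib]
  have h1 : ∀ e ∈ K, ind (b < M.Y e) * ind (M.Cov e a) + ind (b < M.Y e) * ind (M.Cov e (a - 1)) =
      ind (M.X e = a) * ind (b < M.Y e) + ind (M.X (M.s e) = a) * ind (b < M.Y e) := by
    intro e _
    rw [← mul_add, cov_add M e a (fun h => hs e (hX h).symm)]
    ring
  rw [sum_congr rfl h1, sum_add_distrib]
  have h2 : ∑ e ∈ K, ind (M.X (M.s e) = a) * ind (b < M.Y e) =
      ∑ f ∈ K, ind (M.X f = a) * ind (b < M.Y (M.s.symm f)) := by
    refine sum_bij (fun e _ => M.s e) (fun e he => (hK e).2 he)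
      (fun e _ e' _ h => M.s.injective h) (fun f hf => ⟨M.s.symm f, ?_, ?_⟩) (fun e _ => ?_)
    · rw [← hK, Equiv.apply_symm_apply]
      exact hf
    · exact Equiv.apply_symm_apply _ _
    · rw [Equiv.symm_apply_apply]
  rw [h2, ← sum_add_distrib]
  refine sum_congr rfl fun f _ => ?_
  rw [mul_add]

omit [Fintype E] [DecidableEq E] in
theorem bracket (M : RM ι E) (f : E) (b : ℤ) :
    ind (b < M.Y f) + ind (b < M.Y (M.s.symm f)) = ind (M.bo f ≤ b ∧ b < M.tp f) := by
  have h2 : (1 : ZMod 2) + 1 = 0 := by decide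
  unfold ind RM.bo RM.tp
  rcases le_total (M.Y (M.s.symm f)) (M.Y f) with h | h
  · rw [min_eq_left h, max_eq_right h]
    by_cases h3 : b < M.Y f
    · by_cases h4 : b < M.Y (M.s.symm f)
      · rw [if_pos h3, if_pos h4, if_neg (by omega), h2]
      · rw [if_pos h3, if_neg h4, if_pos (by omega), add_zero]
    · rw [if_neg h3, if_neg (by omega), if_neg (by omega), add_zero]
  · rw [min_eq_right h, max_eq_left h]
    by_cases h4 : b < M.Y (M.s.symm f)
    · by_cases h3 : b < M.Y f
      · rw [if_pos h3, if_pos h4, if_neg (by omega), h2]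
      · rw [if_neg h3, if_pos h4, if_pos (by omega), zero_add]
    · rw [if_neg (by omega), if_neg h4, if_neg (by omega), add_zero]

theorem odd_iff_cast (n : ℕ) : Odd n ↔ ((n : ℕ) : ZMod 2) ≠ 0 := by
  rw [← Nat.not_even_iff_odd, Ne, ZMod.natCast_eq_zero_iff_even]

theorem iff_add (n m : ℕ) : (Odd n ↔ Odd m) ↔ ((n : ℕ) : ZMod 2) + ((m : ℕ) : ZMod 2) = 0 := by
  rw [odd_iff_cast, odd_iff_cast]
  have h : ∀ x y : ZMod 2, (x ≠ 0 ↔ y ≠ 0) ↔ x + y = 0 := by decide
  exact h _ _

theorem par_const (M : RM ι E) (hX : Function.Injective M.X) (hs : ∀ e, M.s e ≠ e)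
    (K : Finset E) (hK : ∀ e, M.s e ∈ K ↔ e ∈ K) (b : ℤ) (hb : ∀ e ∈ K, b < M.Y e) (a : ℤ) :
    Odd (M.cnt K a b) ↔ Odd (M.cnt K (a - 1) b) := by
  rw [iff_add, cnt_add M hX hs K hK]
  refine sum_eq_zero fun f hf => ?_
  have h1 : M.s.symm f ∈ K := by
    rw [← hK, Equiv.apply_symm_apply]
    exact hf
  have h2 : (1 : ZMod 2) + 1 = 0 := by decide
  have h3 : ind (b < M.Y f) + ind (b < M.Y (M.s.symm f)) = 0 := by
    unfold ind
    rw [if_pos (hb f hf), if_pos (hb _ h1), h2]
  rw [h3, mul_zero]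

end CRM

open CRM in
theorem specCR : SpecCR := by
  intro ι E _ _ M hX hY hs K hK
  refine ⟨?_, ?_, ?_, ?_, ?_⟩
  · intro f b
    rw [iff_add, cnt_add M hX hs K hK]
    by_cases hf : f ∈ K
    · rw [sum_eq_single_of_mem f hf]
      · rw [bracket]
        unfold ind
        rw [if_pos rfl, one_mul]
        by_cases h : M.bo f ≤ b ∧ b < M.tp f
        · rw [if_pos h]
          constructor
          · intro h1
            exact absurd h1 one_ne_zero
          · intro h1
            exact absurd ⟨hf, h⟩ h1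
        · rw [if_neg h]
          exact ⟨fun _ h1 => h h1.2, fun _ => rfl⟩
      · intro e _ hne
        unfold ind
        rw [if_neg (fun h => hne (hX h)), zero_mul]
    · rw [sum_eq_zero]
      · exact ⟨fun _ h1 => hf h1.1, fun _ => rfl⟩
      · intro e he
        unfold ind
        have h2 : M.X e ≠ M.X f := fun h => hf (by rw [← hX h]; exact he)
        rw [if_neg h2, zero_mul]
  · intro a b ha
    rw [iff_add, cnt_add M hX hs K hK]
    refine sum_eq_zero fun f hf => ?_
    unfold ind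
    rw [if_neg (ha f hf), zero_mul]
  · intro e he a hc
    have h1 : (K.filter fun e' => M.Cov e' a ∧ M.Y e - 1 < M.Y e') =
        insert e (K.filter fun e' => M.Cov e' a ∧ M.Y e < M.Y e') := by
      ext e'
      simp only [mem_insert, mem_filter]
      constructor
      · rintro ⟨h2, h3, h4⟩
        by_cases h5 : e' = e
        · exact Or.inl h5
        · have h6 : M.Y e' ≠ M.Y e := fun h => h5 (hY h)
          exact Or.inr ⟨h2, h3, by omega⟩
      · rintro (rfl | ⟨h2, h3, h4⟩)
        · exact ⟨he, hc, by omega⟩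
        · exact ⟨h2, h3, by omega⟩
    have h2 : M.cnt K a (M.Y e - 1) = M.cnt K a (M.Y e) + 1 := by
      unfold RM.cnt
      rw [h1, card_insert_of_notMem]
      simp
    rw [h2, Nat.odd_add_one, not_not]
  · intro a b h
    unfold RM.cnt
    congr 1
    refine filter_congr fun e he => ?_
    constructor
    · rintro ⟨h1, h2⟩
      exact ⟨h1, by omega⟩
    · rintro ⟨h1, h2⟩
      refine ⟨h1, ?_⟩
      have h3 : M.Y e ≠ b := fun h4 => h e he h4 h1
      omega
  · intro a b hb
    have h1 : ∀ n : ℕ, Odd (M.cnt K a b) ↔ Odd (M.cnt K (a - n) b) := by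
      intro n
      induction n with
      | zero => simp
      | succ n ih =>
        rw [ih, par_const M hX hs K hK b hb]
        have e1 : a - (n : ℤ) - 1 = a - ((n + 1 : ℕ) : ℤ) := by
          push_cast
          ring
        rw [e1]
    rw [← Nat.not_odd_iff_even, h1 ((K.sup fun e => (a - M.lo e).natAbs) + 1)]
    have h2 : M.cnt K (a - (((K.sup fun e => (a - M.lo e).natAbs) + 1 : ℕ) : ℤ)) b = 0 := by
      unfold RM.cnt
      rw [card_eq_zero, filter_eq_empty_iff]
      rintro e he ⟨⟨h3, -⟩, -⟩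
      have h4 : (a - M.lo e).natAbs ≤ K.sup fun e => (a - M.lo e).natAbs :=
        le_sup (f := fun e => (a - M.lo e).natAbs) he
      omega
    rw [h2]
    exact Nat.not_odd_zero

end Pool.Agent.Lib.MP06c549
end

section
/-!
# CVB: every point of the region lies in the box of a cell of the polygon
-/
set_option autoImplicit false

namespace Pool.Agent.Lib.MP06c549

open Finset

namespace CVBM

variable {E : Type}

theorem mono {x : E → ℝ} {X : E → ℤ} (hX : RD.Ranks x X) {g h : E} (hgh : X g ≤ X h) :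
    x g ≤ x h := by
  by_contra hlt
  push Not at hlt
  have := hX.2 h g hlt
  omega

theorem col_aux {x : E → ℝ} {X : E → ℤ} (hX : RD.Ranks x X) {e e' : E} (hlt : x e < x e') {r : ℝ}
    (h1 : x e ≤ r) (h2 : r ≤ x e') {a₀ : ℤ} (ha₀ : ∀ g, X g ≤ a₀ ↔ x g ≤ r) :
    ∃ a, X e ≤ a ∧ a < X e' ∧ (∀ g, X g ≤ a → x g ≤ r) ∧ ∀ g, a < X g → r ≤ x g := by
  rcases lt_or_eq_of_le h2 with h3 | h3
  · refine ⟨a₀, (ha₀ e).2 h1, ?_, fun g => (ha₀ g).1, fun g hg => ?_⟩
    · by_contra h4
      push Not at h4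
      exact absurd ((ha₀ e').1 h4) (not_le.2 h3)
    · by_contra h4
      push Not at h4
      exact absurd ((ha₀ g).2 h4.le) (not_le.2 hg)
  · have h4 := hX.2 e e' hlt
    refine ⟨X e' - 1, by omega, by omega, fun g hg => ?_, fun g hg => ?_⟩
    · rw [h3]; exact mono hX (by omega)
    · rw [h3]; exact mono hX (by omega)

theorem col {x : E → ℝ} {X : E → ℤ} (hX : RD.Ranks x X) {e e' : E} (hne : x e ≠ x e') {r : ℝ}
    (hr : r ∈ Set.uIcc (x e) (x e')) {a₀ : ℤ} (ha₀ : ∀ g, X g ≤ a₀ ↔ x g ≤ r) :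
    ∃ a, min (X e) (X e') ≤ a ∧ a < max (X e) (X e') ∧ (∀ g, X g ≤ a → x g ≤ r) ∧
      ∀ g, a < X g → r ≤ x g := by
  rcases lt_or_gt_of_ne hne with h | h
  · have h1 := hX.2 e e' h
    rw [Set.uIcc_of_le h.le] at hr
    rw [min_eq_left h1.le, max_eq_right h1.le]
    exact col_aux hX h hr.1 hr.2 ha₀
  · have h1 := hX.2 e' e h
    rw [Set.uIcc_of_ge h.le] at hr
    rw [min_eq_right h1.le, max_eq_left h1.le]
    exact col_aux hX h hr.1 hr.2 ha₀

end CVBM

open CVBM in
theorem specCVB (hCAN : SpecCAN) (hSX : SpecSX) (hGD : SpecGD) (hREG : SpecREG) : SpecCVB := by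
  intro ι E _ _ _ _ D hD X Y hX hY q hq
  obtain ⟨a₀, b₀, ha₀, hb₀, hcnt⟩ := hCAN ι E D hD X Y hX hY q
  obtain ⟨sx1, -, sx3, -, -, -⟩ := hSX ι E (D.mod X Y) (hGD ι E D hD X Y hX hY)
  by_cases hcar : ∃ i, q ∈ D.car i
  · obtain ⟨i, e, -, he⟩ := hcar
    rcases he with ⟨hy, hx⟩ | ⟨hx, hy⟩
    · -- on a horizontal edge
      obtain ⟨a, h1, h2, h3, h4⟩ := col hX (hD.xne e) hx ha₀
      have hcov : (D.mod X Y).Cov e a := ⟨h1, h2⟩
      have h5 := sx3 e a hcov
      by_cases h6 : (D.mod X Y).S a (Y e)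
      · refine ⟨a, Y e, h6, h3, h4, fun g hg => ?_, fun g hg => ?_⟩
        · rw [hy]; exact mono hY hg
        · rw [hy]; exact mono hY hg.le
      · refine ⟨a, Y e - 1, ?_, h3, h4, fun g hg => ?_, fun g hg => ?_⟩
        · by_contra h7
          exact h6 (h5.2 h7)
        · rw [hy]; exact mono hY (by omega)
        · rw [hy]; exact mono hY (by omega)
    · -- on a vertical edge
      obtain ⟨b, h1, h2, h3, h4⟩ := col hY (hD.yne e) hy hb₀
      have h5 := sx1 e b
      have h6 : ¬ ((D.mod X Y).S (X e) b ↔ (D.mod X Y).S (X e - 1) b) := by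
        intro h7
        exact h5.1 h7 ⟨h1, h2⟩
      by_cases h7 : (D.mod X Y).S (X e) b
      · refine ⟨X e, b, h7, fun g hg => ?_, fun g hg => ?_, h3, h4⟩
        · rw [hx]; exact mono hX hg
        · rw [hx]; exact mono hX hg.le
      · refine ⟨X e - 1, b, ?_, fun g hg => ?_, fun g hg => ?_, h3, h4⟩
        · by_contra h8
          exact h6 ⟨fun h => absurd h h7, fun h => absurd h h8⟩
        · rw [hx]; exact mono hX (by omega)
        · rw [hx]; exact mono hX (by omega)
  · push Not at hcar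
    have h1 := ((hREG ι E D hD q).2.1 hcar).1 hq
    refine ⟨a₀, b₀, ?_, fun g => (ha₀ g).1, fun g hg => ?_, fun g => (hb₀ g).1, fun g hg => ?_⟩
    · unfold RM.S
      have h2 : ∑ i, D.rp i q = (D.mod X Y).cnt univ a₀ b₀ := by
        rw [Finset.sum_congr rfl fun i _ => hcnt i]
        unfold RM.cnt
        rw [Finset.card_eq_sum_card_fiberwise (f := D.comp) (t := univ) fun _ _ => mem_univ _]
        refine Finset.sum_congr rfl fun i _ => ?_
        congr 1
        ext e
        simp only [mem_filter, mem_univ, true_and]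
        constructor
        · rintro ⟨h3, h4⟩; exact ⟨h4, h3⟩
        · rintro ⟨h3, h4⟩; exact ⟨h4, h3⟩
      rw [← h2]
      exact h1
    · by_contra h4
      push Not at h4
      exact absurd ((ha₀ g).2 h4.le) (not_le.2 hg)
    · by_contra h4
      push Not at h4
      exact absurd ((hb₀ g).2 h4.le) (not_le.2 hg)

end Pool.Agent.Lib.MP06c549
end

section
/-!
# Module CVR: the lower left label of a run sees the run
-/
namespace Pool.Agent.Lib.MP06c549

open Finset

/-- CVR. -/
theorem specCVR (hCOV : SpecCOV) (hROT : SpecROT) (hBEL : SpecBEL) : SpecCVR := by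
  intro ι E _ _ M hM C a b hC hCa hab hb
  obtain ⟨r1, -, -, r4, r5, r6, r7, -⟩ := hROT ι E M hM
  obtain ⟨b1, b2, b3, -, -, b6⟩ := hBEL ι E M hM C a hC hCa
  have e1 : M.rot.ht (M.bel C a) (-1 - a) = - M.Y C := by
    unfold RM.ht
    rw [b6]
    rfl
  have e2 : M.rot.Y (M.bel C a) = - M.ht C a := rfl
  have h := hCOV ι E M.rot r1 (M.bel C a) (-1 - a) (-1 - b) (fun h => (r6 _).1 h b3)
    ((r4 _ _).2 (by rw [show -1 - (-1 - a) = a by ring]; exact b1))
    (by rw [e1]; omega) (by rw [e2]; omega)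
  rw [r7] at h
  have e3 : M.rot.Y (M.rot.ur (M.bel C a) (-1 - a)) = - M.Y (M.rot.ur (M.bel C a) (-1 - a)) := rfl
  rw [e3] at h
  intro a' b' h1 h2 h3 h4
  have h5 := h (-1 - a') (-1 - b') (by omega) (by omega) (by omega) (by omega)
  rw [r5, show -1 - (-1 - a') = a' by ring, show -1 - (-1 - b') = b' by ring] at h5
  exact h5

end Pool.Agent.Lib.MP06c549
end

section
/-!
# Module PL: the pairing lemma (boundaries of edge sets)
-/
namespace Pool.Agent.Lib.MP06c549

open Finset

namespace PLM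

/-- indicator of a vertex -/
def dl {V : Type} [DecidableEq V] (v u : V) : ZMod 2 := if u = v then 1 else 0

theorem two (x : ZMod 2) : x + x = 0 := CharTwo.add_self_eq_zero x

theorem zero_or_one (x : ZMod 2) : x = 0 ∨ x = 1 := by revert x; decide

section

variable {V A : Type} [DecidableEq V] (p q : A → V)

theorem dl_self (v : V) : dl v v = 1 := if_pos rfl

theorem dl_ne {v u : V} (h : u ≠ v) : dl v u = 0 := if_neg h

theorem dl_eq_one {v u : V} (h : dl v u = 1) : u = v := by
  by_contra hne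
  rw [dl_ne hne] at h
  exact zero_ne_one h

theorem bd_eq (J : Finset A) (v : V) : bd p q J v = ∑ a ∈ J, (dl (p a) v + dl (q a) v) := by
  unfold bd dl
  rw [sum_add_distrib, card_filter, card_filter]
  push_cast
  congr 1
  · refine sum_congr rfl fun a _ => ?_
    by_cases h : p a = v
    · rw [if_pos h, if_pos h.symm]
    · rw [if_neg h, if_neg (fun h' => h h'.symm)]
  · refine sum_congr rfl fun a _ => ?_
    by_cases h : q a = v
    · rw [if_pos h, if_pos h.symm]
    · rw [if_neg h, if_neg (fun h' => h h'.symm)]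

theorem bd_empty (v : V) : bd p q (∅ : Finset A) v = 0 := by rw [bd_eq, sum_empty]

theorem bd_singleton (e : A) (v : V) : bd p q {e} v = dl (p e) v + dl (q e) v := by
  rw [bd_eq, sum_singleton]

variable [DecidableEq A]

theorem bd_union {F G : Finset A} (h : Disjoint F G) (v : V) :
    bd p q (F ∪ G) v = bd p q F v + bd p q G v := by
  rw [bd_eq, bd_eq, bd_eq, sum_union h]

theorem bd_insert {F : Finset A} {e : A} (h : e ∉ F) (v : V) :
    bd p q (insert e F) v = dl (p e) v + dl (q e) v + bd p q F v := by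
  rw [bd_eq, bd_eq, sum_insert h]

theorem bd_sdiff {F G : Finset A} (h : G ⊆ F) (v : V) :
    bd p q (F \ G) v = bd p q F v + bd p q G v := by
  have h1 := bd_union p q (disjoint_sdiff : Disjoint G (F \ G)) v
  rw [union_sdiff_of_subset h] at h1
  rw [h1, add_right_comm, two, zero_add]

theorem bd_erase {F : Finset A} {e : A} (h : e ∈ F) (v : V) :
    bd p q (F.erase e) v = bd p q F v + (dl (p e) v + dl (q e) v) := by
  rw [← sdiff_singleton_eq_erase, bd_sdiff p q (singleton_subset_iff.2 h), bd_singleton]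

/-- An edge set with boundary `1` at `v` has an edge at `v`; its other end is `u`. -/
theorem exists_edge (hpq : ∀ a, p a ≠ q a) {F : Finset A} {v : V} (h : bd p q F v ≠ 0) :
    ∃ e ∈ F, ∃ u, u ≠ v ∧ (p e = v ∨ q e = v) ∧ (p e = u ∨ q e = u) ∧
      ∀ w, dl (p e) w + dl (q e) w = dl v w + dl u w := by
  rw [bd_eq] at h
  obtain ⟨e, he, h1⟩ := exists_ne_zero_of_sum_ne_zero h
  by_cases h2 : v = p e
  · refine ⟨e, he, q e, ?_, Or.inl h2.symm, Or.inr rfl, fun w => by rw [h2]⟩
    rw [h2]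
    exact (hpq e).symm
  · by_cases h3 : v = q e
    · refine ⟨e, he, p e, ?_, Or.inr h3.symm, Or.inl rfl, fun w => by rw [h3, add_comm]⟩
      rw [h3]
      exact hpq e
    · rw [dl_ne h2, dl_ne h3, add_zero] at h1
      exact absurd rfl h1

theorem pl (hpq : ∀ a, p a ≠ q a) : ∀ (n : ℕ) (F : Finset A), F.card = n → ∀ v : V,
    bd p q F v = 1 → ∃ z, z ≠ v ∧ bd p q F z = 1 ∧ ∃ H ⊆ F, ∀ u, bd p q H u = dl v u + dl z u := by
  intro n
  induction n with
  | zero =>
    intro F hF v h
    rw [card_eq_zero.1 hF, bd_empty] at h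
    exact absurd h zero_ne_one
  | succ n ih =>
    intro F hF v h
    obtain ⟨e, he, u, huv, -, -, hd⟩ := exists_edge p q hpq (F := F) (v := v)
      (by rw [h]; exact one_ne_zero)
    rcases zero_or_one (bd p q F u) with hu | hu
    · have h1 : bd p q (F.erase e) u = 1 := by
        rw [bd_erase p q he, hu, hd, dl_ne huv, dl_self, zero_add, zero_add]
      have h0 : bd p q (F.erase e) v = 0 := by
        rw [bd_erase p q he, h, hd, dl_self, dl_ne huv.symm, add_zero, two]
      obtain ⟨z, hzu, hz1, H, hH, hHb⟩ := ih (F.erase e) (by rw [card_erase_of_mem he, hF]; rfl) u h1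
      have hzv : z ≠ v := by
        rintro rfl
        rw [h0] at hz1
        exact zero_ne_one hz1
      refine ⟨z, hzv, ?_, insert e H, ?_, ?_⟩
      · rw [bd_erase p q he, hd, dl_ne hzv, dl_ne hzu, add_zero, add_zero] at hz1
        exact hz1
      · exact insert_subset he (hH.trans (erase_subset _ _))
      · intro w
        have hne : e ∉ H := fun h => (mem_erase.1 (hH h)).1 rfl
        rw [bd_insert p q hne, hd, hHb]
        have := two (dl u w)
        linear_combination this
    · refine ⟨u, huv, hu, {e}, singleton_subset_iff.2 he, fun w => ?_⟩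
      rw [bd_singleton, hd]

end

end PLM

open PLM in
theorem specPL : SpecPL := by
  intro V A _ _ p q hpq F v h
  obtain ⟨z, hz, hz1, H, hH, hb⟩ := pl p q hpq _ F rfl v h
  refine ⟨z, hz, hz1, H, hH, fun u => ?_⟩
  rw [hb u]
  by_cases h1 : u = v
  · subst h1
    rw [dl_self, dl_ne hz.symm, add_zero, if_pos (Or.inl rfl)]
  · by_cases h2 : u = z
    · subst h2
      rw [dl_self, dl_ne h1, zero_add, if_pos (Or.inr rfl)]
    · rw [dl_ne h1, dl_ne h2, add_zero, if_neg (by tauto)]

end Pool.Agent.Lib.MP06c549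
end

section
/-!
# Module SEB: Sebo's vertex
-/
namespace Pool.Agent.Lib.MP06c549

open Finset

namespace SEBM

open PLM

section

variable {A : Type} [DecidableEq A] (J : Finset A)

theorem wt_eq (F : Finset A) : wt J F = ∑ a ∈ F, (if a ∈ J then (-1 : ℤ) else 1) := by
  unfold wt
  rw [sum_ite, sum_const, sum_const, filter_mem_eq_inter, ← sdiff_eq_filter]
  simp only [smul_eq_mul, nsmul_eq_mul]
  ring

theorem wt_union {F G : Finset A} (h : Disjoint F G) : wt J (F ∪ G) = wt J F + wt J G := by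
  rw [wt_eq, wt_eq, wt_eq, sum_union h]

theorem wt_sdiff {F G : Finset A} (h : G ⊆ F) : wt J (F \ G) = wt J F - wt J G := by
  have h1 := wt_union J (disjoint_sdiff : Disjoint G (F \ G))
  rw [union_sdiff_of_subset h] at h1
  linarith

theorem wt_insert_mem {F : Finset A} {e : A} (h : e ∉ F) (he : e ∈ J) :
    wt J (insert e F) = wt J F - 1 := by
  rw [wt_eq, wt_eq, sum_insert h, if_pos he]
  ring

theorem wt_erase_notMem {F : Finset A} {e : A} (h : e ∈ F) (he : e ∉ J) :
    wt J (F.erase e) = wt J F - 1 := by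
  rw [← sdiff_singleton_eq_erase, wt_sdiff J (singleton_subset_iff.2 h), wt_eq J {e},
    sum_singleton, if_neg he]

theorem wt_singleton {e : A} (he : e ∈ J) : wt J {e} = -1 := by
  rw [wt_eq, sum_singleton, if_pos he]

end

variable {V A : Type} [DecidableEq V] [DecidableEq A] (p q : A → V) (J : Finset A)

theorem dl_sum {x y w : V} (h : dl x w + dl y w = 1) : w = x ∨ w = y := by
  by_contra hcon
  push Not at hcon
  rw [dl_ne hcon.1, dl_ne hcon.2, add_zero] at h
  exact zero_ne_one h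

theorem seb [Fintype A] (hpq : ∀ a, p a ≠ q a) (hJ : J.Nonempty)
    (hcons : ∀ Z : Finset A, (∀ v, bd p q Z v = 0) → 0 ≤ wt J Z) :
    ∃ (t : V) (e₀ : A), e₀ ∈ J ∧ (p e₀ = t ∨ q e₀ = t) ∧
    (∀ e ∈ J, (p e = t ∨ q e = t) → e = e₀) ∧
    ∀ (g : A) (Z : Finset A), g ∈ Z → (p g = t ∨ q g = t) → e₀ ∉ Z → (∀ v, bd p q Z v = 0) →
      1 ≤ wt J Z := by
  classical
  obtain ⟨j₀, hj₀⟩ := hJ
  set PP0 : Finset (Finset A) :=
    univ.filter fun P => ∃ r t, ∀ w, bd p q P w = dl r w + dl t w with hPP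
  have hPPm : ∀ P, P ∈ PP0 ↔ ∃ r t, ∀ w, bd p q P w = dl r w + dl t w := fun P => by
    rw [hPP, mem_filter]; simp
  have hjPP : ({j₀} : Finset A) ∈ PP0 := (hPPm _).2 ⟨p j₀, q j₀, fun w => bd_singleton p q j₀ w⟩
  obtain ⟨P, hP, hPmin⟩ := exists_min_image PP0
    (fun P => wt J P * ((Fintype.card A : ℤ) + 1) + P.card) ⟨_, hjPP⟩
  -- minimality
  have hmin : ∀ P', (∃ r t, ∀ w, bd p q P' w = dl r w + dl t w) →
      wt J P ≤ wt J P' ∧ (wt J P' = wt J P → P.card ≤ P'.card) := by
    intro P' hP'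
    have h1 := hPmin P' ((hPPm _).2 hP')
    have h2 : (P'.card : ℤ) ≤ Fintype.card A := by exact_mod_cast card_le_univ P'
    have h3 : (0 : ℤ) ≤ P.card := Int.natCast_nonneg _
    have h4 : (0 : ℤ) ≤ Fintype.card A := Int.natCast_nonneg _
    constructor
    · by_contra hlt
      push Not at hlt
      have h5 : wt J P' * ((Fintype.card A : ℤ) + 1) ≤ (wt J P - 1) * ((Fintype.card A : ℤ) + 1) :=
        mul_le_mul_of_nonneg_right (by omega) (by omega)
      nlinarith
    · intro h5
      rw [h5] at h1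
      have : (P.card : ℤ) ≤ P'.card := by linarith
      exact_mod_cast this
  obtain ⟨r, t, hb⟩ := (hPPm P).1 hP
  have hneg : wt J P ≤ -1 := by
    have := (hmin {j₀} ((hPPm _).1 hjPP)).1
    rwa [wt_singleton J hj₀] at this
  have hrt : r ≠ t := by
    rintro rfl
    have := hcons P fun v => by rw [hb, two]
    omega
  -- (i)
  have hi : ∀ Z ⊆ P, (∀ v, bd p q Z v = 0) → Z = ∅ := by
    intro Z hZ hZ0
    by_contra hne
    have h1 := hmin (P \ Z) ⟨r, t, fun w => by rw [bd_sdiff p q hZ, hZ0, add_zero, hb]⟩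
    have h2 := wt_sdiff J hZ
    have h3 := hcons Z hZ0
    have h4 : wt J (P \ Z) = wt J P := le_antisymm (by omega) h1.1
    have h5 := h1.2 h4
    have h6 : (P \ Z).card < P.card := by
      refine card_lt_card (_root_.ssubset_iff_subset_ne.2 ⟨sdiff_subset, fun h => hne ?_⟩)
      have h7 : Disjoint Z P := by rw [← h]; exact disjoint_sdiff
      exact (disjoint_of_subset_right hZ h7.symm.symm).eq_bot_of_self
    omega
  -- the other end
  have hend : ∀ e : A, (p e = t ∨ q e = t) → ∃ u, ∀ w, dl (p e) w + dl (q e) w = dl t w + dl u w := by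
    rintro e (he | he)
    · exact ⟨q e, fun w => by rw [he]⟩
    · exact ⟨p e, fun w => by rw [he, add_comm]⟩
  -- (ii)
  have hii : ∀ e : A, (p e = t ∨ q e = t) → (e ∈ P ↔ e ∈ J) := by
    intro e he
    obtain ⟨u, hu⟩ := hend e he
    constructor
    · intro heP
      by_contra heJ
      have h1 := (hmin (P.erase e) ⟨r, u, fun w => by
        rw [bd_erase p q heP, hb, hu]
        have := two (dl t w)
        linear_combination this⟩).1
      rw [wt_erase_notMem J heP heJ] at h1
      omega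
    · intro heJ
      by_contra heP
      have h1 := (hmin (insert e P) ⟨r, u, fun w => by
        rw [bd_insert p q heP, hb, hu]
        have := two (dl t w)
        linear_combination this⟩).1
      rw [wt_insert_mem J heP heJ] at h1
      omega
  have hbt : bd p q P t = 1 := by rw [hb, dl_ne hrt.symm, dl_self, zero_add]
  obtain ⟨e₀, he₀P, u₀, hu₀t, he₀t, -, he₀b⟩ := exists_edge p q hpq (F := P) (v := t)
    (by rw [hbt]; exact one_ne_zero)
  have huniq : ∀ e ∈ P, (p e = t ∨ q e = t) → e = e₀ := by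
    intro e heP het
    by_contra hne
    obtain ⟨u, hu⟩ := hend e het
    have he₁ : e ∈ P.erase e₀ := mem_erase.2 ⟨hne, heP⟩
    have hut : u ≠ t := by
      rintro rfl
      have h1 := hu u
      rw [two] at h1
      rcases het with h2 | h2
      · rw [h2, dl_self, dl_ne (fun h3 => hpq e (h2.trans h3))] at h1
        simp at h1
      · rw [h2, dl_self, dl_ne (fun h3 => hpq e (h3.symm.trans h2.symm))] at h1
        simp at h1
    have hb2 : ∀ w, bd p q ((P.erase e₀).erase e) w = dl r w + dl t w + dl u₀ w + dl u w := by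
      intro w
      rw [bd_erase p q he₁, bd_erase p q he₀P, hb, hu, he₀b]
      have := two (dl t w)
      linear_combination this
    have h2t : bd p q ((P.erase e₀).erase e) t = 1 := by
      rw [hb2, dl_ne hrt.symm, dl_self, dl_ne hu₀t.symm, dl_ne hut.symm]
      ring
    obtain ⟨z, hzt, hz1, H, hH, hHb⟩ := pl p q hpq _ _ rfl t h2t
    have hHP : H ⊆ P := hH.trans ((erase_subset _ _).trans (erase_subset _ _))
    have heH : e ∉ H := fun h => (mem_erase.1 (hH h)).1 rfl
    have he₀H : e₀ ∉ H := fun h => (mem_erase.1 (erase_subset _ _ (hH h))).1 rfl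
    have hz : z = r ∨ z = u₀ ∨ z = u := by
      by_contra hcon
      push Not at hcon
      rw [hb2, dl_ne hcon.1, dl_ne hzt, dl_ne hcon.2.1, dl_ne hcon.2.2] at hz1
      simp at hz1
    rcases hz with rfl | rfl | rfl
    · have h3 := hi (P \ H) sdiff_subset fun w => by
        rw [bd_sdiff p q hHP, hb, hHb]
        have := two (dl z w)
        have := two (dl t w)
        linear_combination two (dl z w) + two (dl t w)
      have h4 : e ∈ P \ H := mem_sdiff.2 ⟨heP, heH⟩
      rw [h3] at h4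
      exact notMem_empty _ h4
    · have h3 := hi (insert e₀ H) (insert_subset he₀P hHP) fun w => by
        rw [bd_insert p q he₀H, hHb, he₀b]
        linear_combination two (dl z w) + two (dl t w)
      exact insert_ne_empty _ _ h3
    · have h3 := hi (insert e H) (insert_subset heP hHP) fun w => by
        rw [bd_insert p q heH, hHb, hu]
        linear_combination two (dl z w) + two (dl t w)
      exact insert_ne_empty _ _ h3
  refine ⟨t, e₀, (hii e₀ he₀t).1 he₀P, he₀t, fun e heJ het => huniq e ((hii e het).2 heJ) het, ?_⟩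
  -- (iii)
  intro g Z₀ hgZ₀ hgt he₀Z₀ hZ₀
  by_contra hcon
  have hZ₀w : wt J Z₀ = 0 := le_antisymm (by omega) (hcons Z₀ hZ₀)
  -- a minimal even subset
  obtain ⟨Z, hZ, hZmin⟩ := exists_min_image
    (Z₀.powerset.filter fun Z => g ∈ Z ∧ ∀ v, bd p q Z v = 0) card
    ⟨Z₀, mem_filter.2 ⟨mem_powerset_self _, hgZ₀, hZ₀⟩⟩
  rw [mem_filter, mem_powerset] at hZ
  obtain ⟨hZZ₀, hgZ, hZ0⟩ := hZ
  have hZw : wt J Z = 0 := by
    have h1 := wt_sdiff J hZZ₀
    have h2 := hcons (Z₀ \ Z) fun v => by rw [bd_sdiff p q hZZ₀, hZ₀, hZ0, add_zero]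
    have h3 := hcons Z hZ0
    omega
  have he₀Z : e₀ ∉ Z := fun h => he₀Z₀ (hZZ₀ h)
  have hgJ : g ∉ J := fun h => he₀Z (huniq g ((hii g hgt).2 h) hgt ▸ hgZ)
  obtain ⟨u, hu⟩ := hend g hgt
  have hut : u ≠ t := by
    rintro rfl
    have h1 := hu u
    rw [two] at h1
    rcases hgt with h2 | h2
    · rw [h2, dl_self, dl_ne (fun h3 => hpq g (h2.trans h3))] at h1
      simp at h1
    · rw [h2, dl_self, dl_ne (fun h3 => hpq g (h3.symm.trans h2.symm))] at h1
      simp at h1
  have hZg : ∀ w, bd p q (Z.erase g) w = dl t w + dl u w := fun w => by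
    rw [bd_erase p q hgZ, hZ0, hu, zero_add]
  have hZgw : wt J (Z.erase g) = -1 := by rw [wt_erase_notMem J hgZ hgJ, hZw]; rfl
  have hPZ : (P ∩ Z).Nonempty := by
    by_contra hne
    rw [not_nonempty_iff_eq_empty, ← disjoint_iff_inter_eq_empty] at hne
    have hd : Disjoint P (Z.erase g) := disjoint_of_subset_right (erase_subset _ _) hne
    have h1 := (hmin (P ∪ Z.erase g) ⟨r, u, fun w => by
      rw [bd_union p q hd, hb, hZg]
      linear_combination two (dl t w)⟩).1
    rw [wt_union J hd, hZgw] at h1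
    omega
  have hPZs : P \ Z = P \ (P ∩ Z) := by rw [sdiff_inter_self_left]
  have hbPZ : ∀ w, bd p q (P \ Z) w = bd p q P w + bd p q (P ∩ Z) w := fun w => by
    rw [hPZs, bd_sdiff p q inter_subset_left]
  have hnot : ∀ e ∈ P ∩ Z, ¬ (p e = t ∨ q e = t) := by
    intro e he het
    have h1 := huniq e (mem_inter.1 he).1 het
    exact he₀Z (h1 ▸ (mem_inter.1 he).2)
  have h1t : bd p q (P \ Z) t = 1 := by
    have h2 : bd p q (P ∩ Z) t = 0 := by
      by_contra h3
      obtain ⟨e, he, -, -, het, -⟩ := exists_edge p q hpq h3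
      exact hnot e he het
    rw [hbPZ, h2, add_zero, hbt]
  obtain ⟨z, hzt, hz1, H, hH, hHb⟩ := pl p q hpq _ _ rfl t h1t
  have hHP : H ⊆ P := hH.trans sdiff_subset
  have hHZ : Disjoint H Z := disjoint_of_subset_left hH sdiff_disjoint
  have hzr : z ≠ r := by
    rintro rfl
    have h3 := hi (P \ H) sdiff_subset fun w => by
      rw [bd_sdiff p q hHP, hb, hHb]
      linear_combination two (dl z w) + two (dl t w)
    obtain ⟨e, he⟩ := hPZ
    have h4 : e ∈ P \ H := mem_sdiff.2 ⟨(mem_inter.1 he).1, fun h =>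
      (disjoint_left.1 hHZ h) (mem_inter.1 he).2⟩
    rw [h3] at h4
    exact notMem_empty _ h4
  have hzPZ : bd p q (P ∩ Z) z = 1 := by
    rw [hbPZ, hb, dl_ne hzr, dl_ne hzt, zero_add, zero_add] at hz1
    exact hz1
  obtain ⟨ε, hε, z', hz'z, -, hz'e, hεb⟩ := exists_edge p q hpq (F := P ∩ Z) (v := z)
    (by rw [hzPZ]; exact one_ne_zero)
  have hz't : z' ≠ t := by
    rintro rfl
    exact hnot ε hε hz'e
  -- `H` has negative weight
  have hHneg : wt J H ≤ -1 := by
    have h1 := hmin (P \ H) ⟨r, z, fun w => by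
      rw [bd_sdiff p q hHP, hb, hHb]
      linear_combination two (dl t w)⟩
    have h2 := wt_sdiff J hHP
    by_contra h3
    have h4 : wt J (P \ H) = wt J P := le_antisymm (by omega) h1.1
    have h5 := h1.2 h4
    have h6 : (P \ H).card < P.card := by
      refine card_lt_card (_root_.ssubset_iff_subset_ne.2 ⟨sdiff_subset, fun h => ?_⟩)
      have h7 : Disjoint H P := by rw [← h]; exact disjoint_sdiff
      have h8 : H = ∅ := (disjoint_of_subset_right hHP h7).eq_bot_of_self
      have h9 := hHb t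
      rw [h8, bd_empty, dl_self, dl_ne hzt.symm, add_zero] at h9
      exact zero_ne_one h9
    omega
  -- `Z₁`
  have hex : ∃ Z₁ ⊆ Z, ∀ w, bd p q Z₁ w = dl t w + dl z w := by
    have hεZ : ε ∈ Z := (mem_inter.1 hε).2
    have hεg : ε ≠ g := fun h => hnot ε hε (h ▸ hgt)
    have hεZg : ε ∈ Z.erase g := mem_erase.2 ⟨hεg, hεZ⟩
    have hF : ∀ w, bd p q ((Z.erase g).erase ε) w = dl t w + dl u w + dl z w + dl z' w := fun w => by
      rw [bd_erase p q hεZg, hZg, hεb]
      ring
    have hFt : bd p q ((Z.erase g).erase ε) t = 1 := by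
      rw [hF, dl_self, dl_ne hut.symm, dl_ne hzt.symm, dl_ne hz't.symm]
      ring
    obtain ⟨x, hxt, hx1, H₁, hH₁, hH₁b⟩ := pl p q hpq _ _ rfl t hFt
    have hH₁Z : H₁ ⊆ Z := hH₁.trans ((erase_subset _ _).trans (erase_subset _ _))
    have hεH₁ : ε ∉ H₁ := fun h => (mem_erase.1 (hH₁ h)).1 rfl
    have hgH₁ : g ∉ H₁ := fun h => (mem_erase.1 (erase_subset _ _ (hH₁ h))).1 rfl
    have hx : x = z ∨ x = z' ∨ x = u := by
      by_contra hcon
      push Not at hcon
      rw [hF, dl_ne hxt, dl_ne hcon.1, dl_ne hcon.2.1, dl_ne hcon.2.2] at hx1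
      simp at hx1
    rcases hx with rfl | rfl | rfl
    · exact ⟨H₁, hH₁Z, hH₁b⟩
    · refine ⟨insert ε H₁, insert_subset hεZ hH₁Z, fun w => ?_⟩
      rw [bd_insert p q hεH₁, hH₁b, hεb]
      linear_combination two (dl x w)
    · exfalso
      have h1 := hZmin (insert g H₁) (mem_filter.2 ⟨mem_powerset.2
        (insert_subset (hZZ₀ hgZ) (hH₁Z.trans hZZ₀)), mem_insert_self _ _, fun w => by
          rw [bd_insert p q hgH₁, hH₁b, hu]
          linear_combination two (dl x w) + two (dl t w)⟩)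
      have h2 : (insert g H₁).card < Z.card := by
        refine card_lt_card (ssubset_iff_of_subset (insert_subset hgZ hH₁Z) |>.2 ⟨ε, hεZ, ?_⟩)
        rw [mem_insert, not_or]
        exact ⟨hεg, hεH₁⟩
      omega
  obtain ⟨Z₁, hZ₁Z, hZ₁b⟩ := hex
  have h1 := wt_sdiff J hZ₁Z
  have hd1 : Disjoint H Z₁ := disjoint_of_subset_right hZ₁Z hHZ
  have hd2 : Disjoint H (Z \ Z₁) := disjoint_of_subset_right sdiff_subset hHZ
  have h2 := hcons (H ∪ Z₁) fun w => by
    rw [bd_union p q hd1, hHb, hZ₁b]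
    linear_combination two (dl z w) + two (dl t w)
  have h3 := hcons (H ∪ (Z \ Z₁)) fun w => by
    rw [bd_union p q hd2, hHb, bd_sdiff p q hZ₁Z, hZ0, hZ₁b]
    linear_combination two (dl z w) + two (dl t w)
  rw [wt_union J hd1] at h2
  rw [wt_union J hd2] at h3
  omega

end SEBM

theorem specSEB : SpecSEB := by
  intro V A _ _ _ _ p q J hpq hJ hcons
  exact SEBM.seb p q J hpq hJ hcons

end Pool.Agent.Lib.MP06c549
end

section
/-!
# Module CON: contraction of the star of Sebo's vertex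
-/
namespace Pool.Agent.Lib.MP06c549

open Finset

namespace CONM

open PLM SEBM

variable {V A : Type} [DecidableEq V] [DecidableEq A]

lemma sum_dl (s : Finset V) (x : V) : ∑ v ∈ s, dl x v = if x ∈ s then 1 else 0 := by
  unfold dl
  rw [sum_ite_eq']

lemma card_even [Fintype V] (p q : A → V) (col : V → Bool) (hcol : ∀ a, col (p a) ≠ col (q a))
    (H : Finset A) (u u' : V) (huu : col u = col u')
    (hb : ∀ w, bd p q H w = dl u w + dl u' w) : ((H.card : ℕ) : ZMod 2) = 0 := by
  have h1 : ∑ v ∈ univ.filter (fun v => col v = true), bd p q H v = (H.card : ZMod 2) := by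
    simp_rw [PLM.bd_eq]
    rw [sum_comm]
    have : ∀ a ∈ H, ∑ v ∈ univ.filter (fun v => col v = true), (dl (p a) v + dl (q a) v) =
        (1 : ZMod 2) := by
      intro a _
      rw [sum_add_distrib, sum_dl, sum_dl]
      have := hcol a
      simp only [mem_filter, mem_univ, true_and]
      cases h1 : col (p a) <;> cases h2 : col (q a) <;> simp_all
    rw [sum_congr rfl this]
    simp
  rw [← h1]
  simp_rw [hb]
  rw [sum_add_distrib, sum_dl, sum_dl]
  simp only [mem_filter, mem_univ, true_and, huu]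
  exact PLM.two _

lemma wt_cast (J H : Finset A) : ((wt J H : ℤ) : ZMod 2) = (H.card : ZMod 2) := by
  unfold wt
  push_cast
  rw [← card_sdiff_add_card_inter H J]
  push_cast
  have := PLM.two ((H ∩ J).card : ZMod 2)
  linear_combination -this

lemma wt_erase (J Z : Finset A) (e : A) (he : e ∉ Z) : wt (J.erase e) Z = wt J Z := by
  unfold wt
  congr 2
  · congr 1
    ext a
    simp only [mem_sdiff, mem_erase]
    constructor
    · rintro ⟨h1, h2⟩
      exact ⟨h1, fun h => h2 ⟨fun h' => he (h' ▸ h1), h⟩⟩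
    · rintro ⟨h1, h2⟩
      exact ⟨h1, fun h => h2 h.2⟩
  · congr 1
    ext a
    simp only [mem_inter, mem_erase]
    constructor
    · rintro ⟨h1, h2⟩
      exact ⟨h1, h2.2⟩
    · rintro ⟨h1, h2⟩
      exact ⟨h1, fun h' => he (h' ▸ h1), h2⟩

lemma wt_one (J : Finset A) (g : A) : wt J {g} = if g ∈ J then -1 else 1 := by
  rw [wt_eq, sum_singleton]

/-- a path between two neighbours of `t`, avoiding `t`, has nonnegative weight -/
lemma path_nonneg [Fintype V] (p q : A → V) (col : V → Bool) (J : Finset A) (t : V) (e₀ : A)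
    (hcol : ∀ a, col (p a) ≠ col (q a))
    (hJ : ∀ Z : Finset A, (∀ v, bd p q Z v = 0) → 0 ≤ wt J Z)
    (he : ∀ e ∈ J, (p e = t ∨ q e = t) → e = e₀) (he₀ : e₀ ∈ J) (het : p e₀ = t ∨ q e₀ = t)
    (hseb : ∀ (g : A) (Z : Finset A), g ∈ Z → (p g = t ∨ q g = t) → e₀ ∉ Z →
      (∀ v, bd p q Z v = 0) → 1 ≤ wt J Z)
    (H : Finset A) (hHt : ∀ a ∈ H, p a ≠ t ∧ q a ≠ t) (u u' : V) (huu : u ≠ u')
    (hb : ∀ w, bd p q H w = dl u w + dl u' w) (g g' : A)
    (hg : (p g = t ∧ q g = u) ∨ (p g = u ∧ q g = t))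
    (hg' : (p g' = t ∧ q g' = u') ∨ (p g' = u' ∧ q g' = t)) : 0 ≤ wt J H := by
  have hgd : ∀ w, dl (p g) w + dl (q g) w = dl t w + dl u w := by
    intro w
    rcases hg with ⟨h1, h2⟩ | ⟨h1, h2⟩
    · rw [h1, h2]
    · rw [h1, h2, add_comm]
  have hgd' : ∀ w, dl (p g') w + dl (q g') w = dl t w + dl u' w := by
    intro w
    rcases hg' with ⟨h1, h2⟩ | ⟨h1, h2⟩
    · rw [h1, h2]
    · rw [h1, h2, add_comm]
  have hgt : p g = t ∨ q g = t := by tauto
  have hgt' : p g' = t ∨ q g' = t := by tauto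
  have hcu : col u = !col t := by
    have := hcol g
    rcases hg with ⟨h1, h2⟩ | ⟨h1, h2⟩ <;> rw [h1, h2] at this <;>
      cases h3 : col u <;> cases h4 : col t <;> simp_all
  have hcu' : col u' = !col t := by
    have := hcol g'
    rcases hg' with ⟨h1, h2⟩ | ⟨h1, h2⟩ <;> rw [h1, h2] at this <;>
      cases h3 : col u' <;> cases h4 : col t <;> simp_all
  have hne : g ≠ g' := by
    rintro rfl
    rcases hg with ⟨h1, h2⟩ | ⟨h1, h2⟩ <;> rcases hg' with ⟨h3, h4⟩ | ⟨h3, h4⟩
    · exact huu (h2.symm.trans h4)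
    · exact hcol g (by rw [h1, h4])
    · exact hcol g (by rw [h2, h3])
    · exact huu (h1.symm.trans h3)
  have hgH : g ∉ H := fun h => by
    have := hHt g h
    tauto
  have hgH' : g' ∉ H := fun h => by
    have := hHt g' h
    tauto
  have hdis : Disjoint H {g, g'} := by
    rw [disjoint_left]
    intro a ha ha'
    rw [mem_insert, mem_singleton] at ha'
    rcases ha' with rfl | rfl
    · exact hgH ha
    · exact hgH' ha
  have hdis2 : Disjoint ({g} : Finset A) {g'} := by
    rw [disjoint_singleton]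
    exact hne
  have hpair : ({g, g'} : Finset A) = {g} ∪ {g'} := rfl
  have hZ : ∀ v, bd p q (H ∪ {g, g'}) v = 0 := by
    intro v
    rw [bd_union p q hdis, hb, hpair, bd_union p q hdis2, bd_singleton, bd_singleton, hgd, hgd']
    have h1 := PLM.two (dl u v)
    have h2 := PLM.two (dl u' v)
    have h3 := PLM.two (dl t v)
    linear_combination h1 + h2 + h3
  have hw : wt J (H ∪ {g, g'}) = wt J H + (wt J {g} + wt J {g'}) := by
    rw [wt_union J hdis, hpair, wt_union J hdis2]
  have hpar := card_even p q col hcol H u u' (by rw [hcu, hcu']) hb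
  rw [← wt_cast J H] at hpar
  have hpar' : (2 : ℤ) ∣ wt J H := by
    have := (ZMod.intCast_zmod_eq_zero_iff_dvd (wt J H) 2).1 hpar
    exact_mod_cast this
  by_cases hgJ : g ∈ J
  · have h1 := he g hgJ hgt
    have h2 : g' ∉ J := fun h => hne (h1.trans (he g' h hgt').symm)
    have := hJ _ hZ
    rw [hw, wt_one, wt_one, if_pos hgJ, if_neg h2] at this
    linarith
  · by_cases hgJ' : g' ∈ J
    · have := hJ _ hZ
      rw [hw, wt_one, wt_one, if_neg hgJ, if_pos hgJ'] at this
      linarith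
    · have h3 : e₀ ∉ H ∪ {g, g'} := by
        intro h
        rw [mem_union, mem_insert, mem_singleton] at h
        rcases h with h | h | h
        · have := hHt e₀ h
          tauto
        · exact hgJ (h ▸ he₀)
        · exact hgJ' (h ▸ he₀)
      have := hseb g _ (mem_union_right _ (mem_insert_self _ _)) hgt h3 hZ
      rw [hw, wt_one, wt_one, if_neg hgJ, if_neg hgJ'] at this
      omega

lemma con [Fintype V] (p q : A → V) (col : V → Bool) (J : Finset A) (t : V) (e₀ : A)
    (hcol : ∀ a, col (p a) ≠ col (q a))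
    (hJ : ∀ Z : Finset A, (∀ v, bd p q Z v = 0) → 0 ≤ wt J Z)
    (he : ∀ e ∈ J, (p e = t ∨ q e = t) → e = e₀) (he₀ : e₀ ∈ J) (het : p e₀ = t ∨ q e₀ = t)
    (hseb : ∀ (g : A) (Z : Finset A), g ∈ Z → (p g = t ∨ q g = t) → e₀ ∉ Z →
      (∀ v, bd p q Z v = 0) → 1 ≤ wt J Z) : ∀ (n : ℕ) (Z' : Finset A), Z'.card ≤ n →
    (∀ a ∈ Z', p a ≠ t ∧ q a ≠ t) →
    (∀ v, bd p q Z' v ≠ 0 → ∃ a, (p a = t ∧ q a = v) ∨ (p a = v ∧ q a = t)) →
    0 ≤ wt J Z' := by
  intro n
  have hpq : ∀ a, p a ≠ q a := fun a h => hcol a (by rw [h])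
  induction n with
  | zero =>
    intro Z' hZ' _ _
    have : Z' = ∅ := card_eq_zero.1 (Nat.le_zero.1 hZ')
    rw [this]
    exact hJ _ (fun v => bd_empty p q v)
  | succ n ih =>
    intro Z' hZ' ht hN
    by_cases hall : ∀ v, bd p q Z' v = 0
    · exact hJ _ hall
    · push Not at hall
      obtain ⟨u, hu⟩ := hall
      have hu1 : bd p q Z' u = 1 := (PLM.zero_or_one _).resolve_left hu
      obtain ⟨u', huu, hu1', H, hH, hb⟩ := pl p q hpq _ Z' rfl u hu1
      obtain ⟨g, hg⟩ := hN u hu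
      obtain ⟨g', hg'⟩ := hN u' (by rw [hu1']; exact one_ne_zero)
      have hH0 : 0 ≤ wt J H := path_nonneg p q col J t e₀ hcol hJ he he₀ het hseb H
        (fun a ha => ht a (hH ha)) u u' huu.symm hb g g' hg hg'
      have hHne : H.Nonempty := by
        rw [nonempty_iff_ne_empty]
        rintro rfl
        have := hb u
        rw [bd_empty, dl_self, dl_ne huu.symm, add_zero] at this
        exact zero_ne_one this
      have hcard : (Z' \ H).card ≤ n := by
        have h1 := card_sdiff_add_card_eq_card hH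
        have h2 := hHne.card_pos
        omega
      have hrest : 0 ≤ wt J (Z' \ H) := by
        refine ih (Z' \ H) hcard (fun a ha => ht a (mem_sdiff.1 ha).1) ?_
        intro v hv
        rw [bd_sdiff p q hH, hb] at hv
        by_cases h1 : v = u
        · exact h1 ▸ ⟨g, hg⟩
        · by_cases h2 : v = u'
          · exact h2 ▸ ⟨g', hg'⟩
          · rw [dl_ne h1, dl_ne h2, add_zero, add_zero] at hv
            exact hN v hv
      have := wt_sdiff J hH
      linarith

end CONM

open CONM in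
theorem specCON : SpecCON := by
  intro V A _ _ _ _ p q col J t e₀ hcol hJ he₀ het he hseb Z' ht hN
  have h : e₀ ∉ Z' := fun h => by
    have := ht e₀ h
    tauto
  rw [wt_erase J Z' e₀ h]
  exact con p q col J t e₀ hcol hJ he he₀ het hseb _ Z' le_rfl ht hN

end Pool.Agent.Lib.MP06c549
end

section
/-!
# Module POT: a function with sum zero on every cycle is a coboundary
-/
namespace Pool.Agent.Lib.MP06c549

open Finset

namespace POTM

theorem pot {ι E : Type} [Fintype E] [DecidableEq E] [DecidableEq ι]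
    (s : Equiv.Perm E) (comp : E → ι) (d : E → ZMod 2) (hs : ∀ e, comp (s e) = comp e)
    (hconn : ∀ e f, comp e = comp f → ∃ n : ℕ, (s ^ n) e = f)
    (hd : ∀ i, ∑ e ∈ univ.filter (fun e => comp e = i), d e = 0) :
    ∃ p : E → ZMod 2, ∀ e, p (s e) = p e + d e := by
  classical
  rcases isEmpty_or_nonempty E with hE | hE
  · exact ⟨fun _ => 0, fun e => isEmptyElim e⟩
  set r : E → E := fun e => Function.invFun comp (comp e) with hr
  have hrc : ∀ e, comp (r e) = comp e := fun e => Function.invFun_eq ⟨e, rfl⟩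
  have hrs : ∀ e, r (s e) = r e := fun e => by simp only [hr, hs]
  have hcomp : ∀ (n : ℕ) e, comp ((s ^ n) e) = comp e := by
    intro n e
    induction n with
    | zero => simp
    | succ n ih => rw [pow_succ', Equiv.Perm.mul_apply, hs, ih]
  have hex : ∀ e, ∃ n : ℕ, (s ^ n) (r e) = e := fun e => hconn _ _ (hrc e)
  set N : E → ℕ := fun e => Nat.find (hex e) with hN
  have hN1 : ∀ e, (s ^ (N e)) (r e) = e := fun e => Nat.find_spec (hex e)
  have hN2 : ∀ e m, (s ^ m) (r e) = e → N e ≤ m := fun e m h => Nat.find_min' (hex e) h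
  refine ⟨fun e => ∑ j ∈ range (N e), d ((s ^ j) (r e)), fun e => ?_⟩
  simp only
  have hse : (s ^ (N e + 1)) (r e) = s e := by
    rw [pow_succ', Equiv.Perm.mul_apply, hN1]
  by_cases h : s e = r e
  · -- the whole cycle
    have h0 : N (s e) = 0 := by
      have := hN2 (s e) 0 (by rw [hrs, pow_zero, h]; rfl)
      omega
    rw [h0, range_zero, sum_empty]
    have hper : (s ^ (N e + 1)) (r e) = r e := hse.trans h
    have hper' : ∀ k, (s ^ ((N e + 1) * k)) (r e) = r e := by
      intro k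
      induction k with
      | zero => simp
      | succ k ih => rw [mul_add, mul_one, pow_add, Equiv.Perm.mul_apply, hper, ih]
    have hsum : ∑ j ∈ range (N e + 1), d ((s ^ j) (r e)) =
        ∑ f ∈ univ.filter (fun f => comp f = comp e), d f := by
      refine sum_bij (fun j _ => (s ^ j) (r e)) ?_ ?_ ?_ ?_
      · intro j _
        rw [mem_filter]
        exact ⟨mem_univ _, by rw [hcomp, hrc]⟩
      · have key : ∀ i j, i < j → j < N e + 1 → (s ^ i) (r e) ≠ (s ^ j) (r e) := by
          intro i j hij hj hcon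
          have h1 : (s ^ (N e - (j - i))) (r e) = e := by
            have h2 : N e - (j - i) = (N e - j) + i := by omega
            rw [h2, pow_add, Equiv.Perm.mul_apply, hcon, ← Equiv.Perm.mul_apply, ← pow_add]
            have h3 : N e - j + j = N e := by omega
            rw [h3, hN1]
          have := hN2 e _ h1
          omega
        intro i hi j hj hij
        rw [mem_range] at hi hj
        rcases lt_trichotomy i j with h1 | h1 | h1
        · exact absurd hij (key i j h1 hj)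
        · exact h1
        · exact absurd hij.symm (key j i h1 hi)
      · intro f hf
        rw [mem_filter] at hf
        obtain ⟨m, hm⟩ := hconn (r e) f (by rw [hrc, hf.2])
        refine ⟨m % (N e + 1), mem_range.2 (Nat.mod_lt _ (Nat.succ_pos _)), ?_⟩
        have h1 : m % (N e + 1) + (N e + 1) * (m / (N e + 1)) = m := Nat.mod_add_div _ _
        have h2 : (s ^ (m % (N e + 1) + (N e + 1) * (m / (N e + 1)))) (r e) = f := by
          rw [h1, hm]
        rw [pow_add, Equiv.Perm.mul_apply, hper'] at h2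
        exact h2
      · intro j _
        rfl
    rw [sum_range_succ, hN1, hd] at hsum
    exact hsum.symm
  · have h1 : N (s e) = N e + 1 := by
      apply le_antisymm
      · exact hN2 _ _ (by rw [hrs, hse])
      · have h2 := hN1 (s e)
        rw [hrs] at h2
        rcases Nat.eq_zero_or_pos (N (s e)) with h3 | h3
        · rw [h3, pow_zero] at h2
          exact absurd h2.symm h
        · obtain ⟨m, hm⟩ : ∃ m, N (s e) = m + 1 := ⟨N (s e) - 1, by omega⟩
          rw [hm, pow_succ', Equiv.Perm.mul_apply] at h2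
          have := hN2 e m (s.injective h2)
          omega
    rw [h1, sum_range_succ, hrs, hN1]

end POTM

theorem specPOT : SpecPOT := by
  intro ι E _ _ _ s comp d hs hconn hd
  exact POTM.pot s comp d hs hconn hd

end Pool.Agent.Lib.MP06c549
end

section
/-!
# EXT: the extreme vertex of a set of holes in the direction `(1, 1)`
-/
set_option autoImplicit false

namespace Pool.Agent.Lib.MP06c549

open Finset

namespace EXTM

variable {ι E : Type}

theorem lo_lt_hi {M : RM ι E} (hG : M.Good) (e : E) : M.lo e < M.hi e := by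
  unfold RM.lo RM.hi
  exact min_lt_max.2 fun h => hG.s_ne e (hG.X_inj h).symm

theorem comp_symm {M : RM ι E} (hG : M.Good) (f : E) : M.comp (M.s.symm f) = M.comp f := by
  have h := hG.comp_s (M.s.symm f)
  rw [Equiv.apply_symm_apply] at h
  exact h.symm

/-- the vertex `(X f, Y e)` of the vertical edge `f` with `Y e` maximal is its upper end -/
theorem top_end {M : RM ι E} (hG : M.Good) {X : Finset ι} {e f : E} (hef : f = e ∨ f = M.s e)
    (hX : M.comp e ∈ X)
    (hmax : ∀ e', (f = e' ∨ f = M.s e') → M.comp e' ∈ X → M.Y e' ≤ M.Y e) :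
    M.Y e = M.tp f := by
  unfold RM.tp
  rcases hef with rfl | rfl
  · have h := hmax (M.s.symm f) (Or.inr (by rw [Equiv.apply_symm_apply]))
      (by rw [comp_symm hG]; exact hX)
    rw [max_eq_right h]
  · have h := hmax (M.s e) (Or.inl rfl) (by rw [hG.comp_s]; exact hX)
    rw [Equiv.symm_apply_apply, max_eq_left h]

end EXTM

open EXTM in
theorem specEXT (hSX : SpecSX) (hLIN : SpecLIN) : SpecEXT := by
  intro ι E _ _ _ _ M hG hH X hoX e f hef hX hmax
  obtain ⟨sx1, -, sx3, -, -, -⟩ := hSX ι E M hG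
  obtain ⟨-, -, lin3, lin4⟩ := hLIN ι E M hG
  have hlt := lo_lt_hi hG e
  -- the right end
  have h1 : M.X f = M.hi e := by
    unfold RM.hi
    rcases hef with rfl | rfl
    · have h := hmax f (M.s f) (Or.inr rfl) hX
      rw [max_eq_left (by linarith)]
    · have h := hmax e e (Or.inl rfl) hX
      rw [max_eq_right (by linarith)]
  -- the upper end
  have h2 : M.Y e = M.tp f := top_end hG hef hX fun e' he' hX' => by
    have := hmax e' f he' hX'
    linarith
  -- the cell below the edge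
  have hcov : M.Cov e (M.X f - 1) := ⟨by omega, by omega⟩
  have h3 : ¬ M.S (M.X f - 1) (M.Y e - 1) := by
    refine hH.hole (M.comp e) (fun h => hoX (h ▸ hX)) _ _ ?_
    have h4 : M.cnt (univ.filter fun e' => M.comp e' = M.comp e) (M.X f - 1) (M.Y e - 1) = 1 := by
      unfold RM.cnt
      rw [Finset.card_eq_one]
      refine ⟨e, ?_⟩
      ext e'
      simp only [mem_filter, mem_univ, true_and, mem_singleton]
      constructor
      · rintro ⟨hc, hcov', hY⟩
        by_contra hne
        have hY' : M.Y e < M.Y e' := by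
          have h5 : M.Y e' ≠ M.Y e := fun h => hne (hG.Y_inj h)
          omega
        have hX' : M.comp e' ∈ X := hc ▸ hX
        have h6 := hcov'.2
        have h7 := hmax e' e' (Or.inl rfl) hX'
        have h8 := hmax e' (M.s e') (Or.inr rfl) hX'
        have h9 : M.hi e' = max (M.X e') (M.X (M.s e')) := rfl
        have h10 : M.hi e' + M.Y e' ≤ M.X f + M.Y e := by
          rw [h9]
          rcases max_choice (M.X e') (M.X (M.s e')) with h | h <;> rw [h] <;> assumption
        omega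
      · rintro rfl
        exact ⟨rfl, hcov, by omega⟩
    rw [h4]
    exact odd_one
  have h4 : M.S (M.X f - 1) (M.Y e) := (sx3 e _ hcov).2 h3
  have h5 : M.RT f := by
    unfold RM.RT
    have h6 := (sx1 f (M.tp f)).2 (fun h => lt_irrefl _ h.2)
    rw [h6, ← h2]
    exact h4
  have h6 : ¬ M.asc f := by
    intro hasc
    obtain ⟨h7, h8, -⟩ := lin3 f h5 hasc
    have h9 : M.bel (M.ot f) (M.X f) = e := hG.Y_inj (by
      rw [h2]; exact h8)
    rw [h9] at h7
    omega
  refine ⟨h5, h6, ?_, h1, h2⟩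
  obtain ⟨-, h8, -⟩ := lin4 f h5 h6
  unfold RM.tb
  rw [if_neg h6]
  exact hG.Y_inj (by rw [h2]; exact h8)

end Pool.Agent.Lib.MP06c549
end

section
/-!
# EXU: the extreme vertex of a set of holes in the direction `(-1, 1)`
-/
set_option autoImplicit false

namespace Pool.Agent.Lib.MP06c549

open Finset

open EXTM in
theorem specEXU (hSX : SpecSX) (hLIN : SpecLIN) : SpecEXU := by
  intro ι E _ _ _ _ M hG hH X hoX e f hef hX hmax
  obtain ⟨-, -, sx3, -, -, -⟩ := hSX ι E M hG
  obtain ⟨-, -, lin3, lin4⟩ := hLIN ι E M hG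
  have hlt := lo_lt_hi hG e
  -- the left end
  have h1 : M.X f = M.lo e := by
    unfold RM.lo
    rcases hef with rfl | rfl
    · have h := hmax f (M.s f) (Or.inr rfl) hX
      rw [min_eq_left (by linarith)]
    · have h := hmax e e (Or.inl rfl) hX
      rw [min_eq_right (by linarith)]
  -- the upper end
  have h2 : M.Y e = M.tp f := top_end hG hef hX fun e' he' hX' => by
    have := hmax e' f he' hX'
    linarith
  -- the cell below the edge
  have hcov : M.Cov e (M.X f) := ⟨by omega, by omega⟩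
  have h3 : ¬ M.S (M.X f) (M.Y e - 1) := by
    refine hH.hole (M.comp e) (fun h => hoX (h ▸ hX)) _ _ ?_
    have h4 : M.cnt (univ.filter fun e' => M.comp e' = M.comp e) (M.X f) (M.Y e - 1) = 1 := by
      unfold RM.cnt
      rw [Finset.card_eq_one]
      refine ⟨e, ?_⟩
      ext e'
      simp only [mem_filter, mem_univ, true_and, mem_singleton]
      constructor
      · rintro ⟨hc, hcov', hY⟩
        by_contra hne
        have hY' : M.Y e < M.Y e' := by
          have h5 : M.Y e' ≠ M.Y e := fun h => hne (hG.Y_inj h)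
          omega
        have hX' : M.comp e' ∈ X := hc ▸ hX
        have h6 := hcov'.1
        have h7 := hmax e' e' (Or.inl rfl) hX'
        have h8 := hmax e' (M.s e') (Or.inr rfl) hX'
        have h9 : M.lo e' = min (M.X e') (M.X (M.s e')) := rfl
        have h10 : M.Y e' - M.lo e' ≤ M.Y e - M.X f := by
          rw [h9]
          rcases min_choice (M.X e') (M.X (M.s e')) with h | h <;> rw [h] <;> assumption
        omega
      · rintro rfl
        exact ⟨rfl, hcov, by omega⟩
    rw [h4]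
    exact odd_one
  have h4 : M.S (M.X f) (M.Y e) := (sx3 e _ hcov).2 h3
  have h5 : M.RT f := by
    unfold RM.RT
    rw [← h2]
    exact h4
  have h6 : M.asc f := by
    by_contra hasc
    obtain ⟨h7, h8, -⟩ := lin4 f h5 hasc
    have h9 : M.bel (M.ot f) (M.X f - 1) = e := hG.Y_inj (by
      rw [h2]; exact h8)
    rw [h9] at h7
    omega
  refine ⟨h5, h6, ?_, h1, h2⟩
  obtain ⟨-, h8, -⟩ := lin3 f h5 h6
  unfold RM.ta
  rw [if_pos h6]
  exact hG.Y_inj (by rw [h2]; exact h8)

end Pool.Agent.Lib.MP06c549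
end

section
/-! # Module FLC -/
namespace Pool.Agent.Lib.MP06c549

open Finset

namespace FLCM

variable {ι E : Type} [Fintype E] [DecidableEq E]

theorem ends (M : RM ι E) (e : E) : (M.lo e = M.X e ∧ M.hi e = M.X (M.s e)) ∨
    (M.lo e = M.X (M.s e) ∧ M.hi e = M.X e) := by
  unfold RM.lo RM.hi
  rcases le_total (M.X e) (M.X (M.s e)) with h | h
  · left; exact ⟨min_eq_left h, max_eq_right h⟩
  · right; exact ⟨min_eq_right h, max_eq_left h⟩

theorem vends (M : RM ι E) (f : E) : (M.bo f = M.Y (M.s.symm f) ∧ M.tp f = M.Y f) ∨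
    (M.bo f = M.Y f ∧ M.tp f = M.Y (M.s.symm f)) := by
  unfold RM.bo RM.tp
  rcases le_total (M.Y (M.s.symm f)) (M.Y f) with h | h
  · left; exact ⟨min_eq_left h, max_eq_right h⟩
  · right; exact ⟨min_eq_right h, max_eq_left h⟩

theorem lo_lt_hi {M : RM ι E} (hM : M.Good) (e : E) : M.lo e < M.hi e := by
  have h1 : M.X e ≠ M.X (M.s e) := fun h => hM.s_ne e (hM.X_inj h).symm
  rcases ends M e with ⟨h2, h3⟩ | ⟨h2, h3⟩
  · have : M.lo e ≤ M.hi e := by unfold RM.lo RM.hi; exact min_le_max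
    omega
  · have : M.lo e ≤ M.hi e := by unfold RM.lo RM.hi; exact min_le_max
    omega

/-- a vertical edge at a line strictly inside `e` does not span the row above `e` -/
theorem not_span {M : RM ι E} (hM : M.Good) (e f : E) (h1 : M.lo e < M.X f)
    (h2 : M.X f < M.hi e) : ¬ (M.bo f ≤ M.Y e ∧ M.Y e < M.tp f) := by
  rintro ⟨h3, h4⟩
  have h5 : ¬ M.bo f < M.Y e := fun h => hM.nc e f ⟨h1, h2, h, h4⟩
  have h6 : M.bo f = M.Y e := le_antisymm h3 (not_lt.1 h5)
  rcases vends M f with ⟨h7, -⟩ | ⟨h7, -⟩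
  · have h8 : M.s.symm f = e := hM.Y_inj (h7.symm.trans h6)
    have h9 : f = M.s e := by rw [← h8, Equiv.apply_symm_apply]
    rcases ends M e with ⟨h10, h11⟩ | ⟨h10, h11⟩ <;> rw [h9] at h1 h2 <;> omega
  · have h8 : f = e := hM.Y_inj (h7.symm.trans h6)
    rcases ends M e with ⟨h10, h11⟩ | ⟨h10, h11⟩ <;> rw [h8] at h1 h2 <;> omega

end FLCM

theorem specFLC (hSX : SpecSX) : SpecFLC := by
  intro ι E _ _ M hM e a ha
  obtain ⟨s1, s2, s3, s4, s5, s6⟩ := hSX ι E M hM
  have key : ∀ b, M.lo e ≤ b → b < M.hi e → (M.S b (M.Y e) ↔ M.Fl e) := by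
    intro b hb
    induction b, hb using Int.le_induction with
    | base => intro _; exact Iff.rfl
    | succ b hb ih =>
      intro hlt
      rw [← ih (by omega)]
      by_cases hf : ∃ f, M.X f = b + 1
      · obtain ⟨f, hf⟩ := hf
        have h1 := (s1 f (M.Y e)).2 (FLCM.not_span hM e f (by omega) (by omega))
        rw [hf, add_sub_cancel_right] at h1
        exact h1
      · push Not at hf
        have h1 := s2 (b + 1) (M.Y e) hf
        rwa [add_sub_cancel_right] at h1
  have h1 := key a ha.1 ha.2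
  refine ⟨h1, ?_⟩
  have h2 := s3 e a ha
  rw [← h1, h2, not_not]

end Pool.Agent.Lib.MP06c549
end

section
/-!
# GD: the rank model of real data is good
-/
set_option autoImplicit false

namespace Pool.Agent.Lib.MP06c549

open Finset

namespace GDM

variable {E : Type} {x : E → ℝ} {X : E → ℤ}

/-- the numbers are ordered like the ranks -/
theorem le_of_lt (h : RD.Ranks x X) {e f : E} (hef : X e < X f) : x e ≤ x f := by
  by_contra hc
  push Not at hc
  exact absurd (h.2 f e hc) (not_lt.2 hef.le)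

theorem le_of_le (h : RD.Ranks x X) {e f : E} (hef : X e ≤ X f) : x e ≤ x f := by
  rcases lt_or_eq_of_le hef with h1 | h1
  · exact le_of_lt h h1
  · rw [h.1 h1]

/-- a rank strictly between two ranks -/
theorem mem_uIcc (h : RD.Ranks x X) {e e' f : E} (h1 : min (X e) (X e') < X f)
    (h2 : X f < max (X e) (X e')) : x f ∈ Set.uIcc (x e) (x e') := by
  rw [Set.mem_uIcc]
  rcases min_lt_iff.1 h1 with h3 | h3 <;> rcases lt_max_iff.1 h2 with h4 | h4
  · exact absurd (h3.trans h4) (lt_irrefl _)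
  · exact Or.inl ⟨le_of_lt h h3, le_of_lt h h4⟩
  · exact Or.inr ⟨le_of_lt h h3, le_of_lt h h4⟩
  · exact absurd (h3.trans h4) (lt_irrefl _)

end GDM

open GDM in
theorem specGD : SpecGD := by
  intro ι E _ _ _ D hD X Y hX hY
  refine ⟨hX.1, hY.1, ?_, ?_, hD.comp_s, hD.comp_conn⟩
  · intro e he
    have h1 : D.s e = e := he
    exact hD.xne e (by rw [h1])
  · rintro e f ⟨h1, h2, h3, h4⟩
    have h5 : D.x f ∈ Set.uIcc (D.x e) (D.x (D.s e)) := mem_uIcc hX h1 h2
    have h6 : D.y e ∈ Set.uIcc (D.y (D.s.symm f)) (D.y f) := mem_uIcc hY h3 h4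
    have h1' : min (X e) (X (D.s e)) < X f := h1
    have h2' : X f < max (X e) (X (D.s e)) := h2
    rcases hD.hv e f ⟨(D.x f, D.y e), ⟨rfl, h5⟩, ⟨rfl, h6⟩⟩ with h | h
    · rw [h] at h1' h2'
      rcases min_lt_iff.1 h1' with h3 | h3 <;> rcases lt_max_iff.1 h2' with h4 | h4 <;> omega
    · rw [h] at h1' h2'
      rcases min_lt_iff.1 h1' with h3 | h3 <;> rcases lt_max_iff.1 h2' with h4 | h4 <;> omega

end Pool.Agent.Lib.MP06c549
end

section
/-! # Module HH -/
namespace Pool.Agent.Lib.MP06c549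

open Finset

theorem specHH (hBEL : SpecBEL) : SpecHH := by
  intro ι E _ _ M hM C i k j hC h1 h2 h3 h4 h5
  have hi := hBEL ι E M hM C i hC ⟨h1, by omega⟩
  have hj := hBEL ι E M hM C j hC ⟨by omega, h4⟩
  have hk := hBEL ι E M hM C k hC ⟨by omega, by omega⟩
  have he : M.bel C i = M.bel C j := hM.Y_inj h5
  have hci := hi.1
  have hcj := hj.1
  rw [← he] at hcj
  exact hk.2.2.2.1 _ ⟨hci.1.trans h2, lt_of_le_of_lt h3 hcj.2⟩ hi.2.1

end Pool.Agent.Lib.MP06c549
end

section
/-! # MP_06c549_co: module LOC -/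
namespace Pool.Agent.Lib.MP06c549

open Finset

theorem specLOC (hCR : SpecCR) : SpecLOC := by
  intro ι E _ _ _ D hD X Y hX hY a b q hq i hi
  obtain ⟨hq1, hq2, hq3, hq4⟩ := hq
  obtain ⟨a₀, ha₀⟩ := CANM.can1 hX q.1
  obtain ⟨b₀, hb₀⟩ := CANM.can1 hY q.2
  rw [CANM.rp_eq D ha₀ hb₀ i]
  set K := univ.filter fun e => D.comp e = i with hK
  have hKc : ∀ e, (D.mod X Y).s e ∈ K ↔ e ∈ K := CANM.closed D hD i
  have hmem : ∀ e, e ∈ K ↔ D.comp e = i := fun e => by simp [hK]
  -- a spanning line at `q` contains `q`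
  have hspan : ∀ f ∈ K, D.x f = q.1 → ¬ ((D.mod X Y).bo f ≤ b ∧ b < (D.mod X Y).tp f) := by
    rintro f hf hfx ⟨h1, h2⟩
    apply hi
    refine ⟨f, (hmem f).1 hf, Or.inr ⟨hfx.symm, ?_⟩⟩
    unfold RM.bo at h1
    unfold RM.tp at h2
    simp only [RD.mod, min_le_iff, lt_max_iff] at h1 h2
    exact CANM.mem_uIcc_of (h1.imp (hq3 _) (hq3 _)) (h2.imp (hq4 _) (hq4 _))
  have step1 : Odd ((D.mod X Y).cnt K a b) ↔ Odd ((D.mod X Y).cnt K a₀ b) := by
    rcases le_total a a₀ with h | h
    · refine (CANM.hmove hCR (D.mod X Y) hX.1 hY.1 (CANM.s_ne D hD) hKc h ?_).symm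
      intro f hf h1 h2
      exact hspan f hf (le_antisymm ((ha₀ f).1 h2) (hq2 f h1))
    · refine CANM.hmove hCR (D.mod X Y) hX.1 hY.1 (CANM.s_ne D hD) hKc h ?_
      intro f hf h1 h2
      have h3 := (ha₀ f).2 (hq1 f h2)
      exact absurd h3 (not_le.2 h1)
  have step2 : (D.mod X Y).cnt K a₀ b = (D.mod X Y).cnt K a₀ b₀ := by
    refine CANM.vmove _ fun e he hcov => ?_
    constructor
    · intro h1
      by_contra h2
      rw [not_lt] at h2
      have hy : D.y e = q.2 := le_antisymm ((hb₀ e).1 h2) (hq4 e h1)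
      apply hi
      refine ⟨e, (hmem e).1 he, Or.inl ⟨hy.symm, ?_⟩⟩
      unfold RM.Cov RM.lo RM.hi at hcov
      simp only [RD.mod, min_le_iff, lt_max_iff] at hcov
      rw [ha₀, ha₀, ← not_le, ← not_le, ha₀, ha₀, not_le, not_le] at hcov
      exact CANM.mem_uIcc_of hcov.1 (hcov.2.imp le_of_lt le_of_lt)
    · intro h1
      by_contra h2
      rw [not_lt] at h2
      exact absurd ((hb₀ e).2 (hq3 e h2)) (not_le.2 h1)
  rw [step1, step2]

end Pool.Agent.Lib.MP06c549
end
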