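import Pool.Agent.Lib.MP_06c549_co.LOC

/-! # MP_06c549_co: module REP -/

namespace Pool.Agent.Lib.MP06c549

open Finset

namespace REPM

variable {E : Type} [Fintype E]

lemma above (x : E → ℝ) (t : ℝ) : ∃ t', t < t' ∧ ∀ e, t < x e → t' < x e := by
  classical
  by_cases hA : (univ.filter fun e => t < x e).Nonempty
  · obtain ⟨e0, he0, hmin⟩ := exists_min_image _ x hA
    simp only [mem_filter, mem_univ, true_and] at he0 hmin
    obtain ⟨t', h1, h2⟩ := exists_between he0
    exact ⟨t', h1, fun e he => h2.trans_le (hmin e he)⟩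
  · refine ⟨t + 1, by linarith, fun e he => absurd ⟨e, by simp [he]⟩ hA⟩

lemma below (x : E → ℝ) (t : ℝ) : ∃ t', t' < t ∧ ∀ e, x e < t → x e < t' := by
  classical
  by_cases hA : (univ.filter fun e => x e < t).Nonempty
  · obtain ⟨e0, he0, hmax⟩ := exists_max_image _ x hA
    simp only [mem_filter, mem_univ, true_and] at he0 hmax
    obtain ⟨t', h1, h2⟩ := exists_between he0
    exact ⟨t', h2, fun e he => (hmax e he).trans_lt h1⟩
  · refine ⟨t - 1, by linarith, fun e he => absurd ⟨e, by simp [he]⟩ hA⟩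

/-- a real point of the rank column `a` -/
lemma sep {x : E → ℝ} {X : E → ℤ} (h : RD.Ranks x X) (a : ℤ) :
    ∃ t, (∀ e, X e ≤ a → x e ≤ t) ∧ ∀ e, a < X e → t ≤ x e := by
  classical
  by_cases hA : (univ.filter fun e => X e ≤ a).Nonempty
  · obtain ⟨e0, he0, hmax⟩ := exists_max_image _ x hA
    simp only [mem_filter, mem_univ, true_and] at he0 hmax
    exact ⟨x e0, hmax, fun e he => CANM.le_of_rank h (he0.trans he.le)⟩
  · obtain ⟨m, hm⟩ := (Set.finite_range x).bddBelow
    exact ⟨m, fun e he => absurd ⟨e, by simp [he]⟩ hA, fun e _ => hm ⟨e, rfl⟩⟩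

/-- Move a real point `t` of the rank column `a` off all lines, without crossing a line of the
class `P` (which has at most one line at `t`). -/
lemma pick {x : E → ℝ} {X : E → ℤ} (h : RD.Ranks x X) {a : ℤ} {t : ℝ}
    (h1 : ∀ e, X e ≤ a → x e ≤ t) (h2 : ∀ e, a < X e → t ≤ x e) (P : E → Prop)
    (hP : ∀ e f, P e → P f → x e = t → x f = t → e = f) :
    ∃ t' a', (∀ e, x e ≠ t') ∧ (∀ e, X e ≤ a' ↔ x e ≤ t') ∧
      (∀ e, a < X e → X e ≤ a' → ¬ P e) ∧ (∀ e, a' < X e → X e ≤ a → ¬ P e) := by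
  by_cases hex : ∃ f, P f ∧ x f = t ∧ a < X f
  · obtain ⟨f, hf, hft, hfa⟩ := hex
    obtain ⟨t', ht', hlt⟩ := below x t
    obtain ⟨a', ha'⟩ := CANM.can1 h t'
    have key : ∀ e, x e ≤ t' ↔ x e < t := fun e =>
      ⟨fun he => he.trans_lt ht', fun he => (hlt e he).le⟩
    refine ⟨t', a', fun e he => ?_, ha', fun e he1 he2 => ?_, fun e he1 he2 hPe => ?_⟩
    · have := hlt e (he ▸ ht')
      exact absurd he this.ne
    · have := (key e).1 ((ha' e).1 he2)
      exact absurd (h2 e he1) (not_le.2 this)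
    · have h3 : ¬ x e ≤ t' := fun hc => absurd ((ha' e).2 hc) (not_le.2 he1)
      rw [key, not_lt] at h3
      have h4 : x e = t := le_antisymm (h1 e he2) h3
      have := hP e f hPe hf h4 hft
      subst this
      omega
  · push Not at hex
    obtain ⟨t', ht', hlt⟩ := above x t
    obtain ⟨a', ha'⟩ := CANM.can1 h t'
    have key : ∀ e, x e ≤ t' ↔ x e ≤ t := fun e =>
      ⟨fun he => by
        by_contra hc
        exact absurd (hlt e (not_le.1 hc)) (not_lt.2 he), fun he => he.trans ht'.le⟩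
    refine ⟨t', a', fun e he => ?_, ha', fun e he1 he2 hPe => ?_, fun e he1 he2 => ?_⟩
    · have := hlt e (he ▸ ht')
      exact absurd he this.ne'
    · have h3 := (key e).1 ((ha' e).1 he2)
      have h4 := hex e hPe (le_antisymm h3 (h2 e he1))
      omega
    · have h3 := (ha' e).2 ((key e).2 (h1 e he2))
      omega

end REPM

theorem specREP (hCR : SpecCR) : SpecREP := by
  intro ι E _ _ _ D hD X Y hX hY a b
  obtain ⟨t₀, ht1, ht2⟩ := REPM.sep hX a
  obtain ⟨t₁, hu1, hu2⟩ := REPM.sep hY b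
  obtain ⟨x₁, a₁, hx₁, ha₁, hP1, hP2⟩ := REPM.pick hX ht1 ht2
    (fun f => (D.mod X Y).bo f ≤ b ∧ b < (D.mod X Y).tp f) (by
      intro e f he hf hxe hxf
      by_contra hne
      have key : ∀ g, (D.mod X Y).bo g ≤ b ∧ b < (D.mod X Y).tp g → D.x g = t₀ →
          (t₀, t₁) ∈ D.vE g := by
        rintro g ⟨h1, h2⟩ hxg
        refine ⟨hxg.symm, ?_⟩
        unfold RM.bo at h1
        unfold RM.tp at h2
        simp only [RD.mod, min_le_iff, lt_max_iff] at h1 h2
        exact CANM.mem_uIcc_of (h1.imp (hu1 _) (hu1 _)) (h2.imp (hu2 _) (hu2 _))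
      exact Set.disjoint_left.1 (hD.vv e f hne) (key e he hxe) (key f hf hxf))
  obtain ⟨y₁, b₁, hy₁, hb₁, hQ1, hQ2⟩ := REPM.pick hY hu1 hu2
    (fun e => (D.mod X Y).Cov e a₁) (by
      intro e f he hf hye hyf
      by_contra hne
      have key : ∀ g, (D.mod X Y).Cov g a₁ → D.y g = t₁ → (x₁, t₁) ∈ D.hE g := by
        intro g hcov hyg
        refine ⟨hyg.symm, ?_⟩
        unfold RM.Cov RM.lo RM.hi at hcov
        simp only [RD.mod, min_le_iff, lt_max_iff] at hcov
        rw [ha₁, ha₁, ← not_le, ← not_le, ha₁, ha₁, not_le, not_le] at hcov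
        exact CANM.mem_uIcc_of hcov.1 (hcov.2.imp le_of_lt le_of_lt)
      exact Set.disjoint_left.1 (hD.hh e f hne) (key e he hye) (key f hf hyf))
  refine ⟨(x₁, y₁), hx₁, hy₁, fun i => ?_⟩
  rw [CANM.rp_eq D (q := (x₁, y₁)) ha₁ hb₁ i]
  set K := univ.filter fun e => D.comp e = i with hK
  have hKc : ∀ e, (D.mod X Y).s e ∈ K ↔ e ∈ K := CANM.closed D hD i
  have step1 : Odd ((D.mod X Y).cnt K a b) ↔ Odd ((D.mod X Y).cnt K a₁ b) := by
    rcases le_total a a₁ with h | h
    · exact (CANM.hmove hCR (D.mod X Y) hX.1 hY.1 (CANM.s_ne D hD) hKc h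
        fun f _ h1 h2 => hP1 f h1 h2).symm
    · exact CANM.hmove hCR (D.mod X Y) hX.1 hY.1 (CANM.s_ne D hD) hKc h
        fun f _ h1 h2 => hP2 f h1 h2
  have step2 : (D.mod X Y).cnt K a₁ b = (D.mod X Y).cnt K a₁ b₁ := by
    refine CANM.vmove _ fun e _ hcov => ?_
    constructor
    · intro h1
      by_contra h2
      exact hQ1 e h1 (not_lt.1 h2) hcov
    · intro h1
      by_contra h2
      exact hQ2 e h1 (not_lt.1 h2) hcov
  rw [step1, step2]

end Pool.Agent.Lib.MP06c549
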