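import Pool.Agent.Lib.MP_06c549_co.Spec

section
/-!
# MP_06c549_co, module INC: incidences between A-vertices and components
-/
namespace Pool.Agent.Lib.MP06c549

open Finset

namespace INCM

variable {ι E : Type} [Fintype ι] [DecidableEq ι] [Fintype E] [DecidableEq E]

/-- the vertices `(vertical edge, horizontal edge)` of the components in `X` -/
def verts (M : RM ι E) (X : Finset ι) : Finset (E × E) :=
  univ.filter fun c => (c.1 = c.2 ∨ c.1 = M.s c.2) ∧ M.comp c.2 ∈ X

lemma mem_verts (M : RM ι E) (X : Finset ι) (f e : E) :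
    (f, e) ∈ verts M X ↔ (f = e ∨ f = M.s e) ∧ M.comp e ∈ X := by
  simp [verts]

lemma verts_nonempty (M : RM ι E) (hh : M.Holes) (X : Finset ι) (hX : X.Nonempty) :
    (verts M X).Nonempty := by
  obtain ⟨i, hi⟩ := hX
  obtain ⟨e, he⟩ := hh.surj i
  exact ⟨(e, e), by rw [mem_verts]; exact ⟨Or.inl rfl, by rw [he]; exact hi⟩⟩

/-- the A-vertex of `a` is a vertex of the model -/
lemma ax_mem (M : RM ι E) (a : E) : ∃ f, (f = a ∨ f = M.s a) ∧ M.X f = M.ax a := by
  have h1 : M.lo a = M.X a ∨ M.lo a = M.X (M.s a) := by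
    unfold RM.lo; exact min_choice _ _
  have h2 : M.hi a = M.X a ∨ M.hi a = M.X (M.s a) := by
    unfold RM.hi; exact max_choice _ _
  unfold RM.ax
  split_ifs
  · rcases h1 with h | h
    · exact ⟨a, Or.inl rfl, h.symm⟩
    · exact ⟨M.s a, Or.inr rfl, h.symm⟩
  · rcases h2 with h | h
    · exact ⟨a, Or.inl rfl, h.symm⟩
    · exact ⟨M.s a, Or.inr rfl, h.symm⟩

lemma bx_mem (M : RM ι E) (a : E) : ∃ f, (f = a ∨ f = M.s a) ∧ M.X f = M.bx a := by
  have h1 : M.lo a = M.X a ∨ M.lo a = M.X (M.s a) := by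
    unfold RM.lo; exact min_choice _ _
  have h2 : M.hi a = M.X a ∨ M.hi a = M.X (M.s a) := by
    unfold RM.hi; exact max_choice _ _
  unfold RM.bx
  split_ifs
  · rcases h2 with h | h
    · exact ⟨a, Or.inl rfl, h.symm⟩
    · exact ⟨M.s a, Or.inr rfl, h.symm⟩
  · rcases h1 with h | h
    · exact ⟨a, Or.inl rfl, h.symm⟩
    · exact ⟨M.s a, Or.inr rfl, h.symm⟩

/-- direction `(1, 1)` for a set of holes -/
lemma step1 (hEXT : SpecEXT) (hTGD : SpecTGD) (M : RM ι E) (hg : M.Good) (hh : M.Holes)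
    (X : Finset ι) (hX : X.Nonempty) (ho : M.o ∉ X) :
    ∃ f, M.RT f ∧ M.comp (M.tb f) ∈ X ∧ M.comp (M.ta f) ∉ X ∧
      ∀ e' f', (f' = e' ∨ f' = M.s e') → M.comp e' ∈ X →
        M.X f' + M.Y e' < M.ax (M.ta f) + M.Y (M.ta f) := by
  obtain ⟨⟨f, e⟩, hfe, hmax⟩ := exists_max_image (verts M X) (fun c => M.X c.1 + M.Y c.2)
    (verts_nonempty M hh X hX)
  rw [mem_verts] at hfe
  have hmax' : ∀ e' f', (f' = e' ∨ f' = M.s e') → M.comp e' ∈ X →
      M.X f' + M.Y e' ≤ M.X f + M.Y e := fun e' f' h1 h2 =>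
    hmax (f', e') (by rw [mem_verts]; exact ⟨h1, h2⟩)
  obtain ⟨h1, h2, h3, h4, h5⟩ := hEXT ι E M hg hh X ho e f hfe.1 hfe.2 hmax'
  obtain ⟨-, -, -, -, g5, g6, g7, -⟩ := hTGD ι E M hg f h1 h2
  have hlt : M.X f + M.Y e < M.ax (M.ta f) + M.Y (M.ta f) := by
    rw [g5]; omega
  refine ⟨f, h1, by rw [h3]; exact hfe.2, ?_, fun e' f' h1' h2' =>
    (hmax' e' f' h1' h2').trans_lt hlt⟩
  intro hc
  obtain ⟨v, hv, hvX⟩ := ax_mem M (M.ta f)
  have := hmax' (M.ta f) v hv hc
  rw [hvX] at this
  omega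

/-- direction `(-1, 1)` for a set of holes -/
lemma step2 (hEXU : SpecEXU) (hTGA : SpecTGA) (M : RM ι E) (hg : M.Good) (hh : M.Holes)
    (X : Finset ι) (hX : X.Nonempty) (ho : M.o ∉ X) :
    ∃ f, M.RT f ∧ M.comp (M.ta f) ∈ X ∧ M.comp (M.tb f) ∉ X ∧ M.Fl (M.ta f) := by
  obtain ⟨⟨f, e⟩, hfe, hmax⟩ := exists_max_image (verts M X) (fun c => M.Y c.2 - M.X c.1)
    (verts_nonempty M hh X hX)
  rw [mem_verts] at hfe
  have hmax' : ∀ e' f', (f' = e' ∨ f' = M.s e') → M.comp e' ∈ X →
      M.Y e' - M.X f' ≤ M.Y e - M.X f := fun e' f' h1 h2 =>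
    hmax (f', e') (by rw [mem_verts]; exact ⟨h1, h2⟩)
  obtain ⟨h1, h2, h3, h4, h5⟩ := hEXU ι E M hg hh X ho e f hfe.1 hfe.2 hmax'
  obtain ⟨-, g2, -, -, g5, g6, g7, -⟩ := hTGA ι E M hg f h1 h2
  refine ⟨f, h1, by rw [h3]; exact hfe.2, ?_, g2⟩
  intro hc
  obtain ⟨v, hv, hvX⟩ := bx_mem M (M.tb f)
  have := hmax' (M.tb f) v hv hc
  rw [hvX] at this
  omega

end INCM

theorem specINC (hEXT : SpecEXT) (hEXU : SpecEXU) (hRHO : SpecRHO) (hROT : SpecROT)
    (hTGA : SpecTGA) (hTGD : SpecTGD) : SpecINC := by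
  intro ι E _ _ _ _ M hg hh X hX hXu
  obtain ⟨hrg, hrr, hlh, hcov, hS, hFl, hax, hbx⟩ := hROT ι E M hg
  have hrh := hRHO ι E M hg hh
  by_cases ho : M.o ∈ X
  · -- the complement consists of holes
    have hc : Xᶜ.Nonempty := by
      rw [nonempty_iff_ne_empty]
      intro h
      exact hXu (by rwa [compl_eq_empty_iff] at h)
    have ho' : M.o ∉ Xᶜ := by simpa using ho
    obtain ⟨f, f1, f2, f3, f4⟩ := INCM.step2 hEXU hTGA M hg hh Xᶜ hc ho'
    obtain ⟨g, g1, g2, g3, g4⟩ := INCM.step2 hEXU hTGA M.rot hrg hrh Xᶜ hc ho'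
    change M.comp (M.rot.ta g) ∈ Xᶜ at g2
    change M.comp (M.rot.tb g) ∉ Xᶜ at g3
    refine ⟨M.ta f, M.rot.ta g, ?_, by simpa using f2, by simpa using g2, ?_, ?_⟩
    · intro h
      rw [hFl, ← h] at g4
      exact g4 f4
    · exact Or.inl ⟨f, f1, rfl, by simpa using f3⟩
    · exact Or.inr ⟨g, g1, rfl, by simpa using g3⟩
  · obtain ⟨f, f1, f2, f3, f4⟩ := INCM.step1 hEXT hTGD M hg hh X hX ho
    obtain ⟨g, g1, g2, g3, g4⟩ := INCM.step1 hEXT hTGD M.rot hrg hrh X hX ho
    change M.comp (M.rot.tb g) ∈ X at g2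
    change M.comp (M.rot.ta g) ∉ X at g3
    refine ⟨M.ta f, M.rot.ta g, ?_, f3, g3, Or.inl ⟨f, f1, rfl, f2⟩, Or.inr ⟨g, g1, rfl, g2⟩⟩
    intro h
    have e1 := f4 (M.tb f) (M.tb f) (Or.inl rfl) f2
    have e2 := g4 (M.tb f) (M.tb f) (Or.inl rfl) f2
    rw [← h, hax] at e2
    have hX' : M.rot.X (M.tb f) = - M.X (M.tb f) := rfl
    have hY' : M.rot.Y (M.tb f) = - M.Y (M.tb f) := rfl
    have hY'' : M.rot.Y (M.ta f) = - M.Y (M.ta f) := rfl
    rw [hX', hY', hY''] at e2
    omega

end Pool.Agent.Lib.MP06c549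
end

section
/-!
# MP_06c549_co, module TJ: fractional T-joins in bipartite graphs
-/
namespace Pool.Agent.Lib.MP06c549

open Finset

namespace TJM

section basic

variable {V A : Type} [DecidableEq V]

/-- the boundary of the single edge `a` at `v` -/
def b1 (p q : A → V) (a : A) (v : V) : ZMod 2 :=
  (if p a = v then 1 else 0) + (if q a = v then 1 else 0)

lemma bd_eq (p q : A → V) (F : Finset A) (v : V) : bd p q F v = ∑ a ∈ F, b1 p q a v := by
  unfold bd b1
  rw [sum_add_distrib, ← Finset.natCast_card_filter, ← Finset.natCast_card_filter]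

lemma z2 (x : ZMod 2) : x + x = 0 := by
  revert x; decide

lemma z2_cases (x : ZMod 2) : x = 0 ∨ x = 1 := by
  revert x; decide

lemma bd_symmDiff [DecidableEq A] (p q : A → V) (F G : Finset A) (v : V) :
    bd p q (symmDiff F G) v = bd p q F v + bd p q G v := by
  rw [bd_eq, bd_eq, bd_eq]
  have h1 : ∑ a ∈ F, b1 p q a v = ∑ a ∈ F \ G, b1 p q a v + ∑ a ∈ F ∩ G, b1 p q a v := by
    rw [← sum_union]
    · congr 1; ext a; simp only [mem_union, mem_sdiff, mem_inter]; tauto
    · rw [Finset.disjoint_left]; intro a; simp only [mem_sdiff, mem_inter]; tauto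
  have h2 : ∑ a ∈ G, b1 p q a v = ∑ a ∈ G \ F, b1 p q a v + ∑ a ∈ F ∩ G, b1 p q a v := by
    rw [← sum_union]
    · congr 1; ext a; simp only [mem_union, mem_sdiff, mem_inter]; tauto
    · rw [Finset.disjoint_left]; intro a; simp only [mem_sdiff, mem_inter]; tauto
  have h3 : ∑ a ∈ symmDiff F G, b1 p q a v =
      ∑ a ∈ F \ G, b1 p q a v + ∑ a ∈ G \ F, b1 p q a v := by
    rw [← sum_union]
    · congr 1
    · rw [Finset.disjoint_left]; intro a; simp only [mem_sdiff]; tauto
  rw [h1, h2, h3]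
  have := z2 (∑ a ∈ F ∩ G, b1 p q a v)
  linear_combination -this

lemma card_symmDiff_wt [DecidableEq A] (J Z : Finset A) :
    ((symmDiff J Z).card : ℤ) = (J.card : ℤ) + wt J Z := by
  unfold wt
  have h1 : (symmDiff J Z).card = (J \ Z).card + (Z \ J).card := by
    rw [← card_union_of_disjoint]
    · congr 1
    · rw [Finset.disjoint_left]; intro a; simp only [mem_sdiff]; tauto
  have h2 : J.card = (J \ Z).card + (Z ∩ J).card := by
    rw [← card_union_of_disjoint]
    · congr 1; ext a; simp only [mem_union, mem_sdiff, mem_inter]; tauto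
    · rw [Finset.disjoint_left]; intro a; simp only [mem_sdiff, mem_inter]; tauto
  omega

/-- a function which is not a boundary is detected by a set with empty cut -/
lemma exists_cut [Fintype V] [Fintype A] [DecidableEq A] (p q : A → V) (T : V → ZMod 2)
    (h : ¬ ∃ J : Finset A, ∀ v, bd p q J v = T v) :
    ∃ U : Finset V, ∑ v ∈ U, T v = 1 ∧ cut p q U = ∅ := by
  classical
  let W : Submodule (ZMod 2) (V → ZMod 2) := Submodule.span (ZMod 2) (Set.range (b1 p q))
  have hT : T ∉ W := by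
    intro hT
    rw [Submodule.mem_span_range_iff_exists_fun] at hT
    obtain ⟨c, hc⟩ := hT
    apply h
    refine ⟨univ.filter (fun a => c a = 1), fun v => ?_⟩
    rw [bd_eq, sum_filter, ← hc, Finset.sum_apply]
    apply sum_congr rfl
    intro a _
    rcases z2_cases (c a) with h0 | h0
    · simp [h0]
    · simp [h0]
  obtain ⟨φ, hφ1, hφ2⟩ := Submodule.exists_le_ker_of_notMem hT
  refine ⟨univ.filter (fun v => φ (Pi.single v 1) = 1), ?_, ?_⟩
  · have h1 : φ T = ∑ v, T v * φ (Pi.single v 1) := by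
      conv_lhs => rw [← Finset.univ_sum_single T]
      rw [map_sum]
      apply sum_congr rfl
      intro v _
      have : (Pi.single v (T v) : V → ZMod 2) = T v • Pi.single v 1 := by
        rw [← Pi.single_smul]; simp
      rw [this, map_smul, smul_eq_mul]
    have h2 : φ T = 1 := by
      rcases z2_cases (φ T) with h0 | h0
      · exact absurd h0 hφ1
      · exact h0
    refine Eq.trans ?_ (h1.symm.trans h2)
    rw [sum_filter]
    apply sum_congr rfl
    intro v _
    rcases z2_cases (φ (Pi.single v 1)) with h0 | h0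
    · simp [h0]
    · simp [h0]
  · rw [eq_empty_iff_forall_notMem]
    intro a ha
    unfold cut at ha
    simp only [mem_filter, mem_univ, true_and] at ha
    have hb : φ (b1 p q a) = 0 := by
      have : b1 p q a ∈ W := Submodule.subset_span ⟨a, rfl⟩
      exact hφ2 this
    have hb2 : b1 p q a = Pi.single (p a) 1 + Pi.single (q a) 1 := by
      ext v
      simp only [b1, Pi.add_apply, Pi.single_apply, eq_comm (a := v)]
    rw [hb2, map_add] at hb
    rcases z2_cases (φ (Pi.single (p a) 1)) with h1 | h1 <;>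
    rcases z2_cases (φ (Pi.single (q a) 1)) with h2 | h2 <;>
    simp [h1, h2] at ha hb

/-- pushing the boundary of an edge forward -/
lemma b1_fib {W : Type} [Fintype V] [DecidableEq W] (p q : A → V) (π : V → W) (a : A) (w : W) :
    ∑ v ∈ univ.filter (fun v => π v = w), b1 p q a v =
      b1 (fun a => π (p a)) (fun a => π (q a)) a w := by
  unfold b1
  rw [sum_add_distrib, sum_filter, sum_filter]
  have h : ∀ x : V, ∑ v, (if π v = w then (if x = v then (1 : ZMod 2) else 0) else 0) =
      if π x = w then 1 else 0 := by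
    intro x
    rw [sum_eq_single x]
    · simp
    · intro v _ hv
      simp [Ne.symm hv]
    · simp
  rw [h, h]

lemma bd_fib {W : Type} [Fintype V] [DecidableEq W] (p q : A → V) (π : V → W) (F : Finset A)
    (w : W) :
    ∑ v ∈ univ.filter (fun v => π v = w), bd p q F v =
      bd (fun a => π (p a)) (fun a => π (q a)) F w := by
  rw [bd_eq, ← sum_congr rfl (fun a _ => b1_fib p q π a w), sum_comm]
  apply sum_congr rfl
  intro v _
  rw [bd_eq]

end basic

/-- The neighbours of `t`. -/
def nb {V A : Type} [Fintype A] [DecidableEq V] [Fintype V] (p q : A → V) (t : V) : Finset V :=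
  univ.filter fun v => ∃ a, (p a = t ∧ q a = v) ∨ (p a = v ∧ q a = t)

/-- the induction step: data of the contracted graph -/
theorem main (hSEB : SpecSEB) (hCON : SpecCON) : ∀ n : ℕ,
    ∀ (V A : Type) [Fintype V] [DecidableEq V] [Fintype A] [DecidableEq A]
  (p q : A → V) (col : V → Bool) (T : V → ZMod 2) (y : A → ℚ), Fintype.card V = n →
  (∀ a, col (p a) ≠ col (q a)) → (∀ a, 0 ≤ y a) →
  (∀ U : Finset V, ∑ v ∈ U, T v = 1 →
    (∃ c : Bool, ∀ a, (p a ∈ U → q a ∉ U → col (p a) = c) ∧ (q a ∈ U → p a ∉ U → col (q a) = c)) →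
    1 ≤ ∑ a ∈ cut p q U, y a) →
  ∃ J : Finset A, (∀ v, bd p q J v = T v) ∧ (J.card : ℚ) ≤ ∑ a, y a := by
  intro n
  induction n using Nat.strong_induction_on with
  | _ n ih =>
  intro V A _ _ _ _ p q col T y hn hcol hy hcut
  classical
  have hpq : ∀ a, p a ≠ q a := fun a h => hcol a (by rw [h])
  -- existence
  by_cases hex : ∃ J : Finset A, ∀ v, bd p q J v = T v
  swap
  · exfalso
    obtain ⟨U, hU1, hU2⟩ := exists_cut p q T hex
    have := hcut U hU1 ⟨true, fun a => by
      have : a ∉ cut p q U := by rw [hU2]; exact notMem_empty a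
      unfold cut at this
      simp only [mem_filter, mem_univ, true_and] at this
      push Not at this
      exact ⟨fun h1 h2 => absurd (this.1 h1) h2, fun h1 h2 => absurd h1 (this.2 h2)⟩⟩
    rw [hU2, sum_empty] at this
    norm_num at this
  -- minimal
  have hne : (univ.filter (fun J : Finset A => ∀ v, bd p q J v = T v)).Nonempty := by
    obtain ⟨J, hJ⟩ := hex
    exact ⟨J, by simpa using hJ⟩
  obtain ⟨J, hJm, hJmin⟩ := exists_min_image _ (fun J => J.card) hne
  simp only [mem_filter, mem_univ, true_and] at hJm hJmin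
  have hcons : ∀ Z : Finset A, (∀ v, bd p q Z v = 0) → 0 ≤ wt J Z := by
    intro Z hZ
    have h1 := hJmin (symmDiff J Z) (fun v => by rw [bd_symmDiff, hJm, hZ, add_zero])
    have h2 := card_symmDiff_wt J Z
    omega
  rcases J.eq_empty_or_nonempty with hJe | hJne
  · refine ⟨J, hJm, ?_⟩
    rw [hJe, card_empty, Nat.cast_zero]
    exact sum_nonneg fun a _ => hy a
  obtain ⟨t, e₀, he₀J, he₀t, huniq, hZg⟩ := hSEB V A p q J hpq hJne hcons
  have hCON := hCON V A p q col J t e₀ hcol hcons he₀J he₀t huniq hZg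
  obtain ⟨N, hN⟩ : ∃ N : Finset V, N = nb p q t := ⟨_, rfl⟩
  have memN : ∀ v, v ∈ N ↔ ∃ a, (p a = t ∧ q a = v) ∨ (p a = v ∧ q a = t) := by
    intro v; rw [hN]; unfold nb; simp
  have htN : t ∉ N := by
    rw [memN]
    rintro ⟨a, ⟨h1, h2⟩ | ⟨h1, h2⟩⟩
    · exact hpq a (by rw [h1, h2])
    · exact hpq a (by rw [h1, h2])
  have colN : ∀ v ∈ N, col v = !col t := by
    intro v hv
    rw [memN] at hv
    obtain ⟨a, ⟨h1, h2⟩ | ⟨h1, h2⟩⟩ := hv
    · have := hcol a
      rw [h1, h2] at this
      revert this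
      cases col t <;> cases col v <;> simp
    · have := hcol a
      rw [h1, h2] at this
      revert this
      cases col t <;> cases col v <;> simp
  -- the other end of `e₀`
  obtain ⟨u₀, hu₀N, hu₀⟩ : ∃ u₀ ∈ N, ∀ v, b1 p q e₀ v =
      (if t = v then 1 else 0) + (if u₀ = v then 1 else 0) := by
    rcases he₀t with h | h
    · refine ⟨q e₀, by rw [memN]; exact ⟨e₀, Or.inl ⟨h, rfl⟩⟩, fun v => ?_⟩
      unfold b1; rw [h]
    · refine ⟨p e₀, by rw [memN]; exact ⟨e₀, Or.inr ⟨rfl, h⟩⟩, fun v => ?_⟩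
      unfold b1; rw [h, add_comm]
  let t' : {v // v ∉ N} := ⟨t, htN⟩
  let π : V → {v // v ∉ N} := fun v => if h : v ∈ N then t' else ⟨v, h⟩
  have π1 : ∀ v ∈ N, π v = t' := fun v hv => dif_pos hv
  have π2 : ∀ v (hv : v ∉ N), π v = ⟨v, hv⟩ := fun v hv => dif_neg hv
  have π3 : π t = t' := π2 t htN
  let col' : {v // v ∉ N} → Bool := fun v => if v = t' then !col t else col v.1
  have hcolπ : ∀ v, v ≠ t → col' (π v) = col v := by
    intro v hv
    by_cases h : v ∈ N
    · rw [π1 v h]
      show (if t' = t' then _ else _) = _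
      rw [if_pos rfl, colN v h]
    · rw [π2 v h]
      show (if _ then _ else _) = _
      rw [if_neg]
      intro h'
      exact hv (congrArg Subtype.val h')
  have edgeT : ∀ a, (p a = t ∨ q a = t) → π (p a) = π (q a) := by
    rintro a (h | h)
    · rw [h, π3, π1]
      rw [memN]; exact ⟨a, Or.inl ⟨h, rfl⟩⟩
    · rw [h, π3, π1]
      rw [memN]; exact ⟨a, Or.inr ⟨rfl, h⟩⟩
  let T' : {v // v ∉ N} → ZMod 2 := fun v' => ∑ v ∈ univ.filter (fun v => π v = v'), T v
  have hlt : Fintype.card {v // v ∉ N} < n := by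
    rw [← hn]
    exact Fintype.card_subtype_lt (x := u₀) (by simpa using hu₀N)
  have key := ih _ hlt {v // v ∉ N} {a // p a ≠ t ∧ q a ≠ t} (fun a => π (p a.1))
    (fun a => π (q a.1)) col' T' (fun a => y a.1) rfl
    (fun a => by
      show col' (π (p a.1)) ≠ col' (π (q a.1))
      rw [hcolπ _ a.2.1, hcolπ _ a.2.2]
      exact hcol a.1)
    (fun a => hy a.1)
    (by
      intro U' hU' hc'
      obtain ⟨c, hc⟩ := hc'
      have h1 : ∑ v ∈ univ.filter (fun v => π v ∈ U'), T v = 1 := by
        rw [← hU', ← sum_fiberwise_of_maps_to (t := U') (g := π)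
          (s := univ.filter (fun v => π v ∈ U')) (fun x hx => by simpa using hx)]
        apply sum_congr rfl
        intro w hw
        apply sum_congr _ (fun _ _ => rfl)
        ext v
        simp only [mem_filter, mem_univ, true_and]
        constructor
        · exact fun h => h.2
        · exact fun h => ⟨h ▸ hw, h⟩
      have h2 := hcut _ h1 ⟨c, fun a => by
        simp only [mem_filter, mem_univ, true_and]
        have hA : (π (p a) ∈ U' ↔ π (q a) ∈ U') ∨ (p a ≠ t ∧ q a ≠ t) := by
          by_cases h : p a = t ∨ q a = t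
          · left; rw [edgeT a h]
          · right
            exact not_or.mp h
        constructor
        · intro h3 h4
          rcases hA with hA | hA
          · exact absurd (hA.1 h3) h4
          · have := (hc ⟨a, hA⟩).1 h3 h4
            rw [← this]
            exact (hcolπ _ hA.1).symm
        · intro h3 h4
          rcases hA with hA | hA
          · exact absurd (hA.2 h3) h4
          · have := (hc ⟨a, hA⟩).2 h3 h4
            rw [← this]
            exact (hcolπ _ hA.2).symm⟩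
      have h5 : cut p q (univ.filter (fun v => π v ∈ U')) =
          (cut (fun a : {a // p a ≠ t ∧ q a ≠ t} => π (p a.1)) (fun a => π (q a.1)) U').map
            (Function.Embedding.subtype _) := by
        ext a
        unfold cut
        simp only [mem_filter, mem_univ, true_and, mem_map, Function.Embedding.coe_subtype,
          Subtype.exists, exists_and_right, exists_eq_right]
        constructor
        · intro h
          have hA : p a ≠ t ∧ q a ≠ t := by
            by_contra hn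
            have := edgeT a (by tauto)
            rw [this] at h
            tauto
          exact ⟨hA, h⟩
        · rintro ⟨_, h⟩
          exact h
      rw [h5, sum_map] at h2
      exact h2)
  obtain ⟨J', hJ', hJ'c⟩ := key
  obtain ⟨Jm, hJm2⟩ : ∃ Jm : Finset A, Jm = J'.map (Function.Embedding.subtype _) := ⟨_, rfl⟩
  have hJmc : Jm.card = J'.card := by rw [hJm2, card_map]
  have memJm : ∀ a ∈ Jm, p a ≠ t ∧ q a ≠ t := by
    intro a ha
    rw [hJm2, mem_map] at ha
    obtain ⟨a', _, rfl⟩ := ha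
    exact a'.2
  have memJ0 : ∀ a ∈ J.erase e₀, p a ≠ t ∧ q a ≠ t := by
    intro a ha
    rw [mem_erase] at ha
    by_contra hn
    exact ha.1 (huniq a ha.2 (by tauto))
  have bdJm : ∀ w, bd (fun a => π (p a)) (fun a => π (q a)) Jm w = T' w := by
    intro w
    rw [← hJ' w, bd_eq, bd_eq, hJm2, sum_map]
    rfl
  have bdJ : ∀ w, bd (fun a => π (p a)) (fun a => π (q a)) J w = T' w := by
    intro w
    rw [← bd_fib]
    exact sum_congr rfl (fun v _ => hJm v)
  have bdJ0 : ∀ w, bd (fun a => π (p a)) (fun a => π (q a)) (J.erase e₀) w = T' w := by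
    intro w
    rw [← bdJ w, bd_eq, bd_eq, ← add_sum_erase J _ he₀J]
    have : b1 (fun a => π (p a)) (fun a => π (q a)) e₀ w = 0 := by
      unfold b1
      beta_reduce
      rw [edgeT e₀ he₀t]
      exact z2 _
    rw [this, zero_add]
  obtain ⟨Z', hZ'⟩ : ∃ Z' : Finset A, Z' = symmDiff Jm (J.erase e₀) := ⟨_, rfl⟩
  have bdZ : ∀ w, bd (fun a => π (p a)) (fun a => π (q a)) Z' w = 0 := by
    intro w
    rw [hZ', bd_symmDiff, bdJm, bdJ0]
    exact z2 _
  have memZ : ∀ a ∈ Z', p a ≠ t ∧ q a ≠ t := by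
    intro a ha
    rw [hZ', mem_symmDiff] at ha
    rcases ha with ha | ha
    · exact memJm a ha.1
    · exact memJ0 a ha.1
  have hwt : 0 ≤ wt (J.erase e₀) Z' := by
    apply hCON Z' memZ
    intro v hv
    rw [← memN]
    by_contra hvN
    apply hv
    by_cases hvt : v = t
    · rw [bd_eq]
      apply sum_eq_zero
      intro a ha
      unfold b1
      rw [hvt, if_neg (memZ a ha).1, if_neg (memZ a ha).2, add_zero]
    · have h1 := bdZ ⟨v, hvN⟩
      rw [← bd_fib] at h1
      have h2 : univ.filter (fun w => π w = ⟨v, hvN⟩) = {v} := by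
        ext w
        simp only [mem_filter, mem_univ, true_and, mem_singleton]
        constructor
        · intro h
          by_cases hw : w ∈ N
          · rw [π1 w hw] at h
            exact absurd (congrArg Subtype.val h).symm hvt
          · rw [π2 w hw] at h
            exact congrArg Subtype.val h
        · intro h
          rw [h, π2 v hvN]
      rw [h2, sum_singleton] at h1
      exact h1
  have hcard := card_symmDiff_wt (J.erase e₀) Z'
  have h3 : symmDiff (J.erase e₀) Z' = Jm := by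
    rw [hZ', symmDiff_comm Jm, symmDiff_symmDiff_cancel_left]
  rw [h3, hJmc] at hcard
  have hJc : J.card = (J.erase e₀).card + 1 := by
    rw [card_erase_add_one he₀J]
  -- the cut of `t`
  have htu : u₀ ≠ t := fun h => htN (h ▸ hu₀N)
  have hTt : T t = 1 := by
    rw [← hJm t, bd_eq, ← add_sum_erase J _ he₀J, sum_eq_zero, add_zero, hu₀, if_pos rfl,
      if_neg htu, add_zero]
    intro a ha
    unfold b1
    rw [if_neg (memJ0 a ha).1, if_neg (memJ0 a ha).2, add_zero]
  have hc1 := hcut {t} (by rw [sum_singleton, hTt]) ⟨col t, fun a => by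
    simp only [mem_singleton]
    constructor
    · intro h _; rw [h]
    · intro h _; rw [h]⟩
  have hsplit : ∑ a, y a = ∑ a ∈ cut p q {t}, y a + ∑ a : {a // p a ≠ t ∧ q a ≠ t}, y a.1 := by
    rw [← Finset.sum_subtype (univ.filter fun a => p a ≠ t ∧ q a ≠ t) (by simp) (fun a => y a),
      ← sum_filter_add_sum_filter_not univ (fun a => p a ≠ t ∧ q a ≠ t), add_comm]
    congr 1
    apply sum_congr _ (fun _ _ => rfl)
    ext a
    unfold cut
    simp only [mem_filter, mem_univ, true_and, mem_singleton]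
    have := hpq a
    constructor
    · intro h
      by_cases h1 : p a = t
      · left; exact ⟨h1, fun h2 => this (by rw [h1, h2])⟩
      · right; exact ⟨h1, by tauto⟩
    · rintro (⟨h1, h2⟩ | ⟨h1, h2⟩) <;> tauto
  refine ⟨J, hJm, ?_⟩
  rw [hsplit]
  have h4 : (J.card : ℤ) ≤ (J'.card : ℤ) + 1 := by
    rw [hJc]; push_cast; omega
  have h5 : (J.card : ℚ) ≤ (J'.card : ℚ) + 1 := by exact_mod_cast h4
  linarith

end TJM

theorem specTJ (hSEB : SpecSEB) (hCON : SpecCON) : SpecTJ := by
  intro V A _ _ _ _ p q col T y h1 h2 h3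
  exact TJM.main hSEB hCON _ V A p q col T y rfl h1 h2 h3

end Pool.Agent.Lib.MP06c549
end

section
/-!
# MP_06c549_co, module JN: the set `D` and the weights
-/
namespace Pool.Agent.Lib.MP06c549

open Finset

namespace JNM

set_option linter.unusedSectionVars false

variable {ι E : Type} [Fintype ι] [DecidableEq ι] [Fintype E] [DecidableEq E]

/-- the edges of the graph: owner edges, arrows of `M`, arrows of `M.rot` -/
abbrev AA (M : RM ι E) : Type := E ⊕ ({f : E // M.RT f} ⊕ {f : E // M.rot.RT f})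

/-- the A-vertex of an edge of the graph -/
noncomputable def pa (M : RM ι E) : AA M → E
  | Sum.inl a => a
  | Sum.inr (Sum.inl f) => M.ta f.1
  | Sum.inr (Sum.inr f) => M.rot.ta f.1

/-- the component of an edge of the graph -/
noncomputable def qc (M : RM ι E) : AA M → ι
  | Sum.inl a => M.comp a
  | Sum.inr (Sum.inl f) => M.comp (M.tb f.1)
  | Sum.inr (Sum.inr f) => M.comp (M.rot.tb f.1)

/-- ends of the edges -/
noncomputable def pp (M : RM ι E) (x : AA M) : ι ⊕ E := Sum.inr (pa M x)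
noncomputable def qq (M : RM ι E) (x : AA M) : ι ⊕ E := Sum.inl (qc M x)

/-- ends of an arrow on the component `i` -/
noncomputable def en (M : RM ι E) (i : ι) (f : E) : ZMod 2 :=
  (if M.comp (M.ta f) = i then 1 else 0) + (if M.comp (M.tb f) = i then 1 else 0)

noncomputable def enr (M : RM ι E) (i : ι) (f : E) : ZMod 2 :=
  (if M.comp (M.rot.ta f) = i then 1 else 0) + (if M.comp (M.rot.tb f) = i then 1 else 0)

/-- the prescribed parity of the component `i` -/
noncomputable def TT (M : RM ι E) (i : ι) : ZMod 2 :=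
  ∑ f ∈ univ.filter (fun f => M.RT f), (if M.asc f then 1 else 0) * en M i f +
    ∑ f ∈ univ.filter (fun f => M.rot.RT f), (if M.rot.asc f then 1 else 0) * enr M i f

lemma sum_en (M : RM ι E) (f : E) : ∑ i, en M i f = 0 := by
  unfold en
  rw [sum_add_distrib]
  simp only [sum_ite_eq, mem_univ, if_true]
  exact TJM.z2 1

lemma sum_enr (M : RM ι E) (f : E) : ∑ i, enr M i f = 0 := by
  unfold enr
  rw [sum_add_distrib]
  simp only [sum_ite_eq, mem_univ, if_true]
  exact TJM.z2 1

lemma sum_TT (M : RM ι E) : ∑ i, TT M i = 0 := by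
  unfold TT
  rw [sum_add_distrib, sum_comm]
  rw [sum_comm (s := univ) (t := univ.filter (fun f => M.rot.RT f))]
  rw [sum_eq_zero, sum_eq_zero, add_zero]
  · intro f _
    rw [← mul_sum, sum_enr, mul_zero]
  · intro f _
    rw [← mul_sum, sum_en, mul_zero]

/-- weights -/
noncomputable def yy (M : RM ι E) : AA M → ℚ
  | Sum.inl _ => 1 / 2
  | Sum.inr _ => 0

lemma yy_nonneg (M : RM ι E) (x : AA M) : 0 ≤ yy M x := by
  rcases x with x | x <;> simp [yy]

lemma adj_edge (M : RM ι E) (a : E) (X : Finset ι) (h : Adj M a X) :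
    ∃ x : AA M, pa M x = a ∧ qc M x ∈ X := by
  rcases h with ⟨f, h1, h2, h3⟩ | ⟨f, h1, h2, h3⟩
  · exact ⟨Sum.inr (Sum.inl ⟨f, h1⟩), h2, h3⟩
  · exact ⟨Sum.inr (Sum.inr ⟨f, h1⟩), h2, h3⟩

/-- two owner edges in the cut -/
lemma two_owner (M : RM ι E) (U : Finset (ι ⊕ E)) (a a' : E) (h : a ≠ a')
    (ha : Sum.inl a ∈ cut (pp M) (qq M) U) (ha' : Sum.inl a' ∈ cut (pp M) (qq M) U) :
    1 ≤ ∑ x ∈ cut (pp M) (qq M) U, yy M x := by
  have h1 : ({Sum.inl a, Sum.inl a'} : Finset (AA M)) ⊆ cut (pp M) (qq M) U := by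
    intro x hx
    simp only [mem_insert, mem_singleton] at hx
    rcases hx with rfl | rfl
    · exact ha
    · exact ha'
  have h2 := sum_le_sum_of_subset_of_nonneg h1 (f := yy M) (fun x _ _ => yy_nonneg M x)
  rw [sum_pair (by simpa using h)] at h2
  have h3 : yy M (Sum.inl a) + yy M (Sum.inl a') = 1 := by
    unfold yy; norm_num
  linarith

lemma sum_split (M : RM ι E) {β : Type} [AddCommMonoid β] (g : AA M → β) :
    ∑ x, g x = ∑ a, g (Sum.inl a) + (∑ f : {f // M.RT f}, g (Sum.inr (Sum.inl f)) +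
      ∑ f : {f // M.rot.RT f}, g (Sum.inr (Sum.inr f))) := by
  rw [Fintype.sum_sum_type, Fintype.sum_sum_type]

end JNM

open JNM in
theorem specJN (hTJ : SpecTJ) (hINC : SpecINC) : SpecJN := by
  intro ι E _ _ _ _ M hG hH
  classical
  -- apply the T-join theorem
  obtain ⟨J, hJ1, hJ2⟩ := hTJ (ι ⊕ E) (AA M) (pp M) (qq M) (fun v => Sum.isRight v)
    (Sum.elim (TT M) (fun _ => 0)) (yy M) (by
      intro x; unfold pp qq; simp) (yy_nonneg M) (by
      intro U hU hc
      obtain ⟨c, hc⟩ := hc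
      obtain ⟨X, hX⟩ : ∃ X : Finset ι, X = univ.filter (fun i => Sum.inl i ∈ U) := ⟨_, rfl⟩
      have memX : ∀ i, i ∈ X ↔ Sum.inl i ∈ U := by intro i; rw [hX]; simp
      have hsumX : ∑ i ∈ X, TT M i = 1 := by
        rw [← hU]
        have h1 : ∑ v ∈ U, (Sum.elim (TT M) (fun _ => (0 : ZMod 2)) v : ZMod 2) =
            ∑ v : ι ⊕ E, if v ∈ U then (Sum.elim (TT M) (fun _ => 0) v : ZMod 2) else 0 := by
          rw [← sum_filter]
          congr 1
          ext v; simp
        rw [h1, Fintype.sum_sum_type]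
        simp only [Sum.elim_inl, Sum.elim_inr, ite_self, sum_const_zero, add_zero]
        rw [← sum_filter, hX]
      have hXne : X.Nonempty := by
        rw [nonempty_iff_ne_empty]
        rintro rfl
        rw [sum_empty] at hsumX
        exact absurd hsumX (by decide)
      have hXuniv : X ≠ univ := by
        intro h
        rw [h, sum_TT] at hsumX
        exact absurd hsumX (by decide)
      -- membership of edges in the cut
      have hcase : c = true ∨ c = false := by cases c <;> simp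
      rcases hcase with rfl | rfl
      · obtain ⟨a, a', hne, ha, ha', hA, hA'⟩ := hINC ι E M hG hH X hXne hXuniv
        have hin : ∀ b, M.comp b ∉ X → Adj M b X → Sum.inl b ∈ cut (pp M) (qq M) U := by
          intro b hb hAb
          obtain ⟨x, hx1, hx2⟩ := adj_edge M b X hAb
          have hbU : Sum.inr b ∈ U := by
            by_contra hbU
            have h1 := (hc x).2 (by unfold qq; rw [← memX]; exact hx2)
              (by unfold pp; rw [hx1]; exact hbU)
            unfold qq at h1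
            simp at h1
          unfold cut
          simp only [mem_filter, mem_univ, true_and]
          left
          refine ⟨hbU, ?_⟩
          unfold qq
          rw [← memX]
          exact hb
        exact two_owner M U a a' hne (hin a ha hA) (hin a' ha' hA')
      · have hX1 : Xᶜ.Nonempty := by
          rw [nonempty_iff_ne_empty]
          intro h
          exact hXuniv (by rwa [compl_eq_empty_iff] at h)
        have hX2 : Xᶜ ≠ univ := by
          intro h
          rw [compl_eq_univ_iff] at h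
          rw [h] at hXne
          exact not_nonempty_empty hXne
        obtain ⟨a, a', hne, ha, ha', hA, hA'⟩ := hINC ι E M hG hH Xᶜ hX1 hX2
        have hin : ∀ b, M.comp b ∉ Xᶜ → Adj M b Xᶜ → Sum.inl b ∈ cut (pp M) (qq M) U := by
          intro b hb hAb
          obtain ⟨x, hx1, hx2⟩ := adj_edge M b _ hAb
          rw [mem_compl, not_not] at hb
          rw [mem_compl, memX] at hx2
          have hbU : Sum.inr b ∉ U := by
            intro hbU
            have h1 := (hc x).1 (by unfold pp; rw [hx1]; exact hbU) (by unfold qq; exact hx2)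
            unfold pp at h1
            simp at h1
          unfold cut
          simp only [mem_filter, mem_univ, true_and]
          right
          refine ⟨hbU, ?_⟩
          unfold qq
          rw [← memX]
          exact hb
        exact two_owner M U a a' hne (hin a ha hA) (hin a' ha' hA'))
  -- cardinality
  have hJ3 : 2 * J.card ≤ Fintype.card E := by
    have h1 : ∑ x, yy M x = (Fintype.card E : ℚ) / 2 := by
      rw [sum_split]
      simp only [yy, sum_const, card_univ, nsmul_eq_mul, mul_zero, add_zero]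
      ring
    rw [h1] at hJ2
    have h2 : (2 * J.card : ℚ) ≤ Fintype.card E := by linarith
    exact_mod_cast h2
  obtain ⟨D, hD⟩ : ∃ D : Finset E, D = J.image (pa M) := ⟨_, rfl⟩
  have bdE : ∀ a : E, ((J.filter fun x => pa M x = a).card : ZMod 2) = 0 := by
    intro a
    have h1 := hJ1 (Sum.inr a)
    unfold bd at h1
    simp only [pp, qq, Sum.inr.injEq, reduceCtorEq, filter_false, card_empty, Nat.cast_zero,
      add_zero, Sum.elim_inr] at h1
    exact h1
  have bdi : ∀ i : ι, ((J.filter fun x => qc M x = i).card : ZMod 2) = TT M i := by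
    intro i
    have h1 := hJ1 (Sum.inl i)
    unfold bd at h1
    simp only [pp, qq, Sum.inl.injEq, reduceCtorEq, filter_false, card_empty, Nat.cast_zero,
      zero_add, Sum.elim_inl] at h1
    exact h1
  have hDJ : 2 * D.card ≤ J.card := by
    have h1 : J.card = ∑ a ∈ D, (J.filter fun x => pa M x = a).card :=
      card_eq_sum_card_fiberwise (fun x hx => by rw [hD]; exact mem_image_of_mem _ hx)
    rw [h1, mul_comm, ← smul_eq_mul, ← sum_const]
    apply sum_le_sum
    intro a ha
    rw [hD, mem_image] at ha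
    obtain ⟨x, hx, hxa⟩ := ha
    have h2 : 0 < (J.filter fun x => pa M x = a).card :=
      card_pos.mpr ⟨x, by simp [hx, hxa]⟩
    have h3 : 2 ∣ (J.filter fun x => pa M x = a).card :=
      (ZMod.natCast_eq_zero_iff _ 2).1 (bdE a)
    exact Nat.le_of_dvd h2 h3
  refine ⟨D, fun f => (if M.asc f then 1 else 0) +
    (if h : M.RT f then (if Sum.inr (Sum.inl ⟨f, h⟩) ∈ J then 1 else 0) else 0),
    fun f => (if M.rot.asc f then 1 else 0) +
    (if h : M.rot.RT f then (if Sum.inr (Sum.inr ⟨f, h⟩) ∈ J then 1 else 0) else 0), by omega,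
    ?_, ?_, ?_⟩
  · intro f hf hfD
    beta_reduce
    have h0 : ¬ (Sum.inr (Sum.inl ⟨f, hf⟩) : AA M) ∈ J := by
      intro h
      apply hfD
      rw [hD, mem_image]
      exact ⟨_, h, rfl⟩
    rw [dif_pos hf, if_neg h0, add_zero]
  · intro f hf hfD
    beta_reduce
    have h0 : ¬ (Sum.inr (Sum.inr ⟨f, hf⟩) : AA M) ∈ J := by
      intro h
      apply hfD
      rw [hD, mem_image]
      exact ⟨_, h, rfl⟩
    rw [dif_pos hf, if_neg h0, add_zero]
  · intro i
    -- the sum over the arrows in `J`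
    have hR : ∑ x ∈ J, ((if M.comp (pa M x) = i then (1 : ZMod 2) else 0) +
        (if qc M x = i then 1 else 0)) = TT M i := by
      rw [sum_add_distrib]
      have h1 : ∑ x ∈ J, (if M.comp (pa M x) = i then (1 : ZMod 2) else 0) = 0 := by
        have h2 : ∀ x ∈ J, (if M.comp (pa M x) = i then (1 : ZMod 2) else 0) =
            ∑ a ∈ univ.filter (fun a => M.comp a = i), if pa M x = a then 1 else 0 := by
          intro x _
          rw [sum_ite_eq]
          simp
        rw [sum_congr rfl h2, sum_comm]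
        apply sum_eq_zero
        intro a _
        refine Eq.trans ?_ (bdE a)
        rw [Finset.natCast_card_filter]
      rw [h1, zero_add, ← bdi i, Finset.natCast_card_filter]
    have hS : ∑ x ∈ J, ((if M.comp (pa M x) = i then (1 : ZMod 2) else 0) +
        (if qc M x = i then 1 else 0)) =
        ∑ f : {f // M.RT f}, (if Sum.inr (Sum.inl f) ∈ J then (1 : ZMod 2) else 0) * en M i f.1 +
        ∑ f : {f // M.rot.RT f}, (if Sum.inr (Sum.inr f) ∈ J then (1 : ZMod 2) else 0) *
          enr M i f.1 := by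
      have h1 : ∀ g : AA M → ZMod 2, ∑ x ∈ J, g x = ∑ x, (if x ∈ J then 1 else 0) * g x := by
        intro g
        simp only [ite_mul, one_mul, zero_mul]
        rw [← sum_filter]
        congr 1
        ext v; simp
      rw [h1, sum_split]
      have h2 : ∑ a, (if (Sum.inl a : AA M) ∈ J then (1 : ZMod 2) else 0) *
          ((if M.comp (pa M (Sum.inl a)) = i then (1 : ZMod 2) else 0) +
          (if qc M (Sum.inl a) = i then 1 else 0)) = 0 := by
        apply sum_eq_zero
        intro a _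
        have h3 : (if M.comp (pa M (Sum.inl a)) = i then (1 : ZMod 2) else 0) +
            (if qc M (Sum.inl a) = i then 1 else 0) = 0 :=
          TJM.z2 (if M.comp a = i then (1 : ZMod 2) else 0)
        rw [h3, mul_zero]
      rw [h2, zero_add]
      rfl
    have h3 : ∀ (P : E → Prop) [DecidablePred P] (u : E → ZMod 2) (w : {f // P f} → ZMod 2)
        (g : E → ZMod 2),
        ∑ f ∈ univ.filter (fun f => P f), (u f + (if h : P f then w ⟨f, h⟩ else 0)) * g f =
        ∑ f ∈ univ.filter (fun f => P f), u f * g f + ∑ f : {f // P f}, w f * g f.1 := by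
      intro P _ u w g
      have h4 : ∑ f : {f // P f}, w f * g f.1 =
          ∑ f ∈ univ.filter (fun f => P f), (if h : P f then w ⟨f, h⟩ else 0) * g f := by
        rw [Finset.sum_subtype (p := P) (univ.filter fun f => P f) (by simp)
          (fun f => (if h : P f then w ⟨f, h⟩ else 0) * g f)]
        apply sum_congr rfl
        intro f _
        rw [dif_pos f.2]
      rw [h4, ← sum_add_distrib]
      apply sum_congr rfl
      intro f _
      ring
    have h5 := h3 (fun f => M.RT f) (fun f => if M.asc f then 1 else 0)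
      (fun f => if Sum.inr (Sum.inl f) ∈ J then 1 else 0) (en M i)
    have h6 := h3 (fun f => M.rot.RT f) (fun f => if M.rot.asc f then 1 else 0)
      (fun f => if Sum.inr (Sum.inr f) ∈ J then 1 else 0) (enr M i)
    have h7 := hS.symm.trans hR
    change ∑ f ∈ univ.filter (fun f => M.RT f), _ * en M i f +
      ∑ f ∈ univ.filter (fun f => M.rot.RT f), _ * enr M i f = 0
    rw [h5, h6]
    have h8 : TT M i = ∑ f ∈ univ.filter (fun f => M.RT f), (if M.asc f then 1 else 0) * en M i f +
      ∑ f ∈ univ.filter (fun f => M.rot.RT f), (if M.rot.asc f then 1 else 0) * enr M i f := rfl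
    have h9 := TJM.z2 (TT M i)
    rw [h8] at h7 h9
    linear_combination h7 + h9

end Pool.Agent.Lib.MP06c549
end

section
/-!
# MP_06c549_co: the lowest edge above the upper end of a vertical edge
-/
set_option autoImplicit false
set_option linter.unusedSectionVars false

namespace Pool.Agent.Lib.MP06c549

open Finset

namespace OTMM

variable {ι E : Type} [Fintype E] [DecidableEq E] {M : RM ι E}

theorem top_mem {j : E} {t : Finset E} (h : t.Nonempty) : M.top j t ∈ t := by
  rw [RM.top, dif_pos h]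
  exact (exists_max_image t M.Y h).choose_spec.1

theorem le_top {j : E} {t : Finset E} {e : E} (he : e ∈ t) : M.Y e ≤ M.Y (M.top j t) := by
  have h : t.Nonempty := ⟨e, he⟩
  rw [RM.top, dif_pos h]
  exact (exists_max_image t M.Y h).choose_spec.2 e he

theorem ot_spec {f e : E} (h1 : M.Cov e (M.X f)) (h2 : M.tp f < M.Y e) :
    M.Cov (M.ot f) (M.X f) ∧ M.tp f < M.Y (M.ot f) ∧ M.Y (M.ot f) ≤ M.Y e := by
  have he : e ∈ univ.filter fun e => M.Cov e (M.X f) ∧ M.tp f < M.Y e := by
    rw [mem_filter]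
    exact ⟨mem_univ _, h1, h2⟩
  have h3 : M.ot f ∈ univ.filter fun e => M.Cov e (M.X f) ∧ M.tp f < M.Y e :=
    top_mem (M := M.rot) ⟨e, he⟩
  have h4 : M.rot.Y e ≤ M.rot.Y (M.ot f) := le_top (M := M.rot) he
  rw [mem_filter] at h3
  refine ⟨h3.2.1, h3.2.2, ?_⟩
  change - M.Y e ≤ - M.Y (M.ot f) at h4
  exact neg_le_neg_iff.1 h4

theorem bo_le_tp (f : E) : M.bo f ≤ M.tp f := min_le_max

/-- the ordinates of the two horizontal edges at the line of `f` -/
theorem tp_cases (f : E) : (M.Y f = M.tp f ∨ M.Y (M.s.symm f) = M.tp f) ∧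
    (M.Y f = M.tp f ∨ M.Y f = M.bo f) ∧
    (M.Y (M.s.symm f) = M.tp f ∨ M.Y (M.s.symm f) = M.bo f) := by
  rw [RM.tp, RM.bo]
  rcases le_total (M.Y (M.s.symm f)) (M.Y f) with h | h
  · rw [max_eq_right h, min_eq_left h]
    exact ⟨Or.inl rfl, Or.inl rfl, Or.inr rfl⟩
  · rw [max_eq_left h, min_eq_right h]
    exact ⟨Or.inr rfl, Or.inr rfl, Or.inl rfl⟩

/-- an edge with an end at the line of `f` -/
theorem end_eq (hM : M.Good) {f e : E} (h : M.X f = M.lo e ∨ M.X f = M.hi e) :
    e = f ∨ e = M.s.symm f := by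
  have h1 : M.X f = M.X e ∨ M.X f = M.X (M.s e) := by
    rw [RM.lo, RM.hi] at h
    rcases le_total (M.X e) (M.X (M.s e)) with h2 | h2
    · rw [min_eq_left h2, max_eq_right h2] at h
      exact h
    · rw [min_eq_right h2, max_eq_left h2] at h
      exact h.symm
  rcases h1 with h1 | h1
  · exact Or.inl (hM.X_inj h1).symm
  · right
    rw [hM.X_inj h1, Equiv.symm_apply_apply]

theorem end_Y (hM : M.Good) {f e : E} (h : M.X f = M.lo e ∨ M.X f = M.hi e) :
    M.Y e = M.tp f ∨ M.Y e = M.bo f := by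
  rcases end_eq hM h with rfl | rfl
  · exact (tp_cases e).2.1
  · exact (tp_cases f).2.2

theorem lo_lt_hi (hM : M.Good) (e : E) : M.lo e < M.hi e := by
  have h : M.X e ≠ M.X (M.s e) := fun h => hM.s_ne e (hM.X_inj h).symm
  rw [RM.lo, RM.hi]
  exact min_lt_max.2 h

/-- an edge above the upper end of `f` which covers one of the two columns at the line of `f` -/
theorem span (hM : M.Good) {f e : E} (h1 : M.Cov e (M.X f) ∨ M.Cov e (M.X f - 1))
    (h2 : M.tp f < M.Y e) : M.lo e < M.X f ∧ M.X f < M.hi e := by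
  have h3 : ¬ (M.X f = M.lo e ∨ M.X f = M.hi e) := by
    intro h
    have h4 := bo_le_tp (M := M) f
    rcases end_Y hM h with h5 | h5 <;> omega
  have h5 : M.X f ≠ M.lo e := fun h => h3 (Or.inl h)
  have h6 : M.X f ≠ M.hi e := fun h => h3 (Or.inr h)
  rcases h1 with ⟨h7, h8⟩ | ⟨h7, h8⟩ <;> omega

end OTMM

open OTMM in
theorem specOTM : SpecOTM := by
  intro ι E _ _ M hM f e h1 h2
  obtain ⟨h3, h4⟩ := span hM h1 h2
  exact ⟨h3, h4, (ot_spec ⟨h3.le, h4⟩ h2).2.2⟩

end Pool.Agent.Lib.MP06c549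
end

section
/-!
# MP_06c549_co: lines in a row
-/
set_option autoImplicit false

namespace Pool.Agent.Lib.MP06c549

open Finset

namespace LINM

open OTMM

variable {ι E : Type} [Fintype E] [DecidableEq E] {M : RM ι E}

/-- `S` is constant in a column between two edges -/
theorem const (hSX : SpecSX) (hM : M.Good) {a b : ℤ} (n : ℕ)
    (h : ∀ e, M.Cov e a → b < M.Y e → M.Y e ≤ b + n → False) : M.S a (b + n) ↔ M.S a b := by
  induction n with
  | zero => simp
  | succ n ih =>
    have h1 := (hSX ι E M hM).2.2.2.1 a (b + (n + 1 : ℕ)) (by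
      intro e he hc
      refine h e hc ?_ he.le
      rw [he]
      push_cast
      omega)
    have h2 : b + ((n + 1 : ℕ) : ℤ) - 1 = b + n := by
      push_cast
      ring
    rw [h1, h2]
    refine ih fun e hc h3 h4 => h e hc h3 ?_
    push_cast
    omega

theorem const' (hSX : SpecSX) (hM : M.Good) {a b b' : ℤ} (hb : b ≤ b')
    (h : ∀ e, M.Cov e a → b < M.Y e → M.Y e ≤ b' → False) : M.S a b' ↔ M.S a b := by
  obtain ⟨n, hn⟩ := Int.le.dest hb
  rw [← hn]
  exact const hSX hM n fun e h1 h2 h3 => h e h1 h2 (by omega)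

/-- above a cell of the polygon there is an edge -/
theorem exists_above (hSX : SpecSX) (hM : M.Good) {a b : ℤ} (h : M.S a b) :
    ∃ e, M.Cov e a ∧ b < M.Y e := by
  by_contra hc
  push Not at hc
  obtain ⟨B, hB⟩ : ∃ B : ℤ, ∀ e, M.Y e ≤ B := by
    obtain ⟨B, hB⟩ := (Set.finite_range M.Y).bddAbove
    exact ⟨B, fun e => hB ⟨e, rfl⟩⟩
  have h1 : M.S a (max b B) ↔ M.S a b := const' hSX hM (le_max_left _ _) fun e h1 h2 h3 =>
    absurd (hc e h1) (not_le.2 h2)
  exact (hSX ι E M hM).2.2.2.2.2 a (max b B) (fun e => (hB e).trans (le_max_right _ _)) (h1.2 h)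

/-- the edge `ot f` -/
theorem ot_facts (hSX : SpecSX) (hFLC : SpecFLC) (hM : M.Good) {f : E} (hf : M.RT f) :
    ¬ M.Fl (M.ot f) ∧ M.lo (M.ot f) < M.X f ∧ M.X f < M.hi (M.ot f) ∧ M.tp f < M.Y (M.ot f) ∧
    ∀ e, (M.Cov e (M.X f) ∨ M.Cov e (M.X f - 1)) → M.tp f < M.Y e → M.Y (M.ot f) ≤ M.Y e := by
  obtain ⟨e, he1, he2⟩ := exists_above hSX hM hf
  obtain ⟨h1, h2, h3⟩ := ot_spec he1 he2
  obtain ⟨h4, h5⟩ := span hM (Or.inl h1) h2
  refine ⟨?_, h4, h5, h2, fun e he h => (specOTM ι E M hM f e he h).2.2⟩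
  rw [← ((hFLC ι E M hM) _ _ h1).2]
  refine (const' hSX hM (by omega) ?_).2 hf
  intro e h6 h7 h8
  have h9 := (ot_spec h6 h7).2.2
  omega

/-- the edge at the height of the upper end of `f` -/
theorem exists_top (hM : M.Good) (f : E) : ∃ e₀, M.Y e₀ = M.tp f ∧ M.comp e₀ = M.comp f ∧
    (M.lo e₀ = M.X f ∨ M.hi e₀ = M.X f) := by
  rcases (tp_cases (M := M) f).1 with h | h
  · refine ⟨f, h, rfl, ?_⟩
    rw [RM.lo, RM.hi]
    rcases le_total (M.X f) (M.X (M.s f)) with h2 | h2
    · exact Or.inl (min_eq_left h2)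
    · exact Or.inr (max_eq_left h2)
  · refine ⟨M.s.symm f, h, ?_, ?_⟩
    · have := hM.comp_s (M.s.symm f)
      rw [Equiv.apply_symm_apply] at this
      exact this.symm
    · rw [RM.lo, RM.hi, Equiv.apply_symm_apply]
      rcases le_total (M.X (M.s.symm f)) (M.X f) with h2 | h2
      · exact Or.inr (max_eq_right h2)
      · exact Or.inl (min_eq_right h2)

/-- the two columns at the line of `f` under `ot f` -/
theorem main (hSX : SpecSX) (hFLC : SpecFLC) (hBEL : SpecBEL) (hM : M.Good) {f : E}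
    (hf : M.RT f) :
    (M.ht (M.ot f) (M.X f - 1) < M.ht (M.ot f) (M.X f) ∧
      M.lo (M.bel (M.ot f) (M.X f)) = M.X f ∧ M.ht (M.ot f) (M.X f) = M.tp f ∧
      M.comp (M.bel (M.ot f) (M.X f)) = M.comp f) ∨
    (M.ht (M.ot f) (M.X f) < M.ht (M.ot f) (M.X f - 1) ∧
      M.hi (M.bel (M.ot f) (M.X f - 1)) = M.X f ∧ M.ht (M.ot f) (M.X f - 1) = M.tp f ∧
      M.comp (M.bel (M.ot f) (M.X f - 1)) = M.comp f) := by
  obtain ⟨hC, h1, h2, h3, h4⟩ := ot_facts hSX hFLC hM hf
  obtain ⟨e₀, h5, h6, h7⟩ := exists_top hM f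
  have hlt := lo_lt_hi hM e₀
  obtain ⟨a1, a2, -, a4, -, -⟩ := hBEL ι E M hM (M.ot f) (M.X f) hC ⟨h1.le, h2⟩
  obtain ⟨b1, b2, -, b4, -, -⟩ := hBEL ι E M hM (M.ot f) (M.X f - 1) hC ⟨by omega, by omega⟩
  have a5 : M.Y (M.bel (M.ot f) (M.X f)) ≤ M.tp f := by
    by_contra hc
    have := h4 _ (Or.inl a1) (not_le.1 hc)
    omega
  have b5 : M.Y (M.bel (M.ot f) (M.X f - 1)) ≤ M.tp f := by
    by_contra hc
    have := h4 _ (Or.inr b1) (not_le.1 hc)
    omega
  rcases h7 with h7 | h7
  · left
    have h8 : M.Cov e₀ (M.X f) := ⟨h7.le, by omega⟩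
    have h9 := a4 e₀ h8 (by omega)
    have h10 : M.bel (M.ot f) (M.X f) = e₀ := hM.Y_inj (by omega)
    have h11 : M.Y (M.bel (M.ot f) (M.X f - 1)) ≠ M.tp f := by
      intro h
      have h12 : M.bel (M.ot f) (M.X f - 1) = e₀ := hM.Y_inj (by omega)
      rw [h12] at b1
      have := b1.1
      omega
    refine ⟨?_, by rw [h10, h7], by rw [RM.ht, h10, h5], by rw [h10, h6]⟩
    rw [RM.ht, RM.ht, h10, h5]
    omega
  · right
    have h8 : M.Cov e₀ (M.X f - 1) := ⟨by omega, by omega⟩
    have h9 := b4 e₀ h8 (by omega)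
    have h10 : M.bel (M.ot f) (M.X f - 1) = e₀ := hM.Y_inj (by omega)
    have h11 : M.Y (M.bel (M.ot f) (M.X f)) ≠ M.tp f := by
      intro h
      have h12 : M.bel (M.ot f) (M.X f) = e₀ := hM.Y_inj (by omega)
      rw [h12] at a1
      have := a1.2
      omega
    refine ⟨?_, by rw [h10, h7], by rw [RM.ht, h10, h5], by rw [h10, h6]⟩
    rw [RM.ht, RM.ht, h10, h5]
    omega

/-- an edge with an end at the line `t`, seen from the vertical edge -/
theorem exists_line (F : E) {t : ℤ} (h : M.lo F = t ∨ M.hi F = t) :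
    ∃ f, M.X f = t ∧ (M.Y F = M.tp f ∨ M.Y F = M.bo f) := by
  have h1 : M.X F = t ∨ M.X (M.s F) = t := by
    rw [RM.lo, RM.hi] at h
    rcases le_total (M.X F) (M.X (M.s F)) with h2 | h2
    · rwa [min_eq_left h2, max_eq_right h2] at h
    · rw [min_eq_right h2, max_eq_left h2] at h
      exact h.symm
  rcases h1 with h1 | h1
  · exact ⟨F, h1, (tp_cases F).2.1⟩
  · refine ⟨M.s F, h1, ?_⟩
    have := (tp_cases (M := M) (M.s F)).2.2
    rwa [Equiv.symm_apply_apply] at this

theorem part1 (hSX : SpecSX) (hBEL : SpecBEL) (hM : M.Good) {C : E} {t : ℤ}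
    (hC : ¬ M.Fl C) (h1 : M.lo C < t) (h2 : t < M.hi C) (h3 : M.ht C (t - 1) ≠ M.ht C t) :
    ∃ f, M.X f = t ∧ M.RT f ∧ M.ot f = C := by
  obtain ⟨a1, a2, -, a4, a5, -⟩ := hBEL ι E M hM C t hC ⟨h1.le, h2⟩
  obtain ⟨b1, b2, -, b4, b5, -⟩ := hBEL ι E M hM C (t - 1) hC ⟨by omega, by omega⟩
  change M.Y (M.bel C (t - 1)) ≠ M.Y (M.bel C t) at h3
  -- the higher floor `F`
  obtain ⟨F, hF1, hF2, hF3, hF4⟩ : ∃ F, (M.lo F = t ∨ M.hi F = t) ∧ M.Y F < M.Y C ∧
      M.Y (M.bel C t) ≤ M.Y F ∧ M.Y (M.bel C (t - 1)) ≤ M.Y F := by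
    rcases lt_or_gt_of_ne h3 with h | h
    · refine ⟨M.bel C t, Or.inl ?_, a2, le_rfl, h.le⟩
      by_contra hc
      have h4 : M.Cov (M.bel C t) (t - 1) := ⟨by have := a1.1; omega, by have := a1.2; omega⟩
      have := b4 _ h4 a2
      omega
    · refine ⟨M.bel C (t - 1), Or.inr ?_, b2, h.le, le_rfl⟩
      by_contra hc
      have h4 : M.Cov (M.bel C (t - 1)) t := ⟨by have := b1.1; omega, by have := b1.2; omega⟩
      have := a4 _ h4 b2
      omega
  obtain ⟨f, hf1, hf2⟩ := exists_line F hF1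
  have s1 : M.S t (M.Y F) := a5 _ hF3 hF2
  have s2 : M.S (t - 1) (M.Y F) := b5 _ hF4 hF2
  have h4 := (hSX ι E M hM).1 f (M.Y F)
  rw [hf1] at h4
  have h5 := h4.1 ⟨fun _ => s2, fun _ => s1⟩
  have h6 := bo_le_tp (M := M) f
  have h7 : M.Y F = M.tp f := by
    rcases hf2 with h | h
    · exact h
    · by_contra hc
      exact h5 ⟨h.ge, by omega⟩
  refine ⟨f, hf1, ?_, ?_⟩
  · rw [RM.RT, hf1, ← h7]
    exact s1
  · have c1 : M.Cov C (M.X f) := by
      rw [hf1]
      exact ⟨h1.le, h2⟩
    obtain ⟨c2, c3, c4⟩ := ot_spec c1 (h7 ▸ hF2)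
    by_contra hc
    have c5 : M.Y (M.ot f) < M.Y C := lt_of_le_of_ne c4 fun h => hc (hM.Y_inj h)
    obtain ⟨c6, c7⟩ := span hM (Or.inl c2) c3
    have c8 := a4 _ (by rw [hf1] at c2; exact c2) c5
    omega

end LINM

open LINM in
theorem specLIN (hSX : SpecSX) (hFLC : SpecFLC) (hBEL : SpecBEL) : SpecLIN := by
  intro ι E _ _ M hM
  refine ⟨fun C t hC h1 h2 h3 => part1 hSX hBEL hM hC h1 h2 h3, ?_, ?_, ?_⟩
  · intro f hf
    obtain ⟨hC, h1, h2, h3, -⟩ := ot_facts hSX hFLC hM hf
    refine ⟨hC, h1, h2, h3, ?_⟩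
    rcases main hSX hFLC hBEL hM hf with h | h
    · exact h.1.ne
    · exact h.1.ne'
  · intro f hf ha
    rcases main hSX hFLC hBEL hM hf with h | h
    · exact h.2
    · exact absurd ha (not_lt.2 h.1.le)
  · intro f hf ha
    rcases main hSX hFLC hBEL hM hf with h | h
    · exact absurd h.1 ha
    · exact h.2

end Pool.Agent.Lib.MP06c549
end

section
/-! # MP_06c549_co: crossing the chord of an A-vertex (OWN) -/
namespace Pool.Agent.Lib.MP06c549

open Finset

theorem specOWN (hL : SpecLIN) (hA : SpecTGA) (hD : SpecTGD) : SpecOWN := by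
  intro ι E _ _ M hM wt wb Q hQ f hf ha hw hz
  obtain ⟨_, L2, _, _⟩ := hL ι E M hM
  obtain ⟨_, l2, l3, l4, _⟩ := L2 f hf
  obtain ⟨a1, _, a3, _⟩ := hA ι E M hM f hf ha
  rw [a1, a3, hQ.up f (M.tp f) le_rfl, if_pos l4]
  unfold RM.jt
  rw [if_pos hf, hw]
  have : ∑ g ∈ univ.filter (fun g => M.RT g ∧ M.ot g = M.ot f ∧ M.tl g = M.X f), wt g = 0 := by
    apply sum_eq_zero
    intro g hg
    rw [mem_filter] at hg
    obtain ⟨_, g1, g2, g3⟩ := hg
    have hna : ¬ M.asc g := by
      intro hga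
      obtain ⟨_, _, _, _, _, _, _, h8⟩ := hA ι E M hM g g1 hga
      rcases h8 with ⟨h8, _⟩ | ⟨_, g', k1, k2, k3, k4, _⟩
      · rw [g3, g2] at h8
        omega
      · rw [g3] at k3
        have := hM.X_inj k3
        subst this
        exact k4 ha
    obtain ⟨_, _, _, _, _, _, _, h8⟩ := hD ι E M hM g g1 hna
    rcases h8 with ⟨h8, _⟩ | ⟨_, g', k1, k2, k3, k4, k5, _⟩
    · rw [g3, g2] at h8
      omega
    · rw [g3] at k3
      have := hM.X_inj k3
      subst this
      exact hz g g1 hna k5.symm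
  rw [this, add_zero]

end Pool.Agent.Lib.MP06c549
end

section
/-!
# MP_06c549_co, module PD: polygons as real data
-/
namespace Pool.Agent.Lib.MP06c549

open Finset

namespace PDM

variable (P : HPoly)

lemma s_apply (i : Option (Fin P.h)) (t : ZMod (P.cu i).k) :
    P.rd.s (⟨i, t⟩ : P.EE) = ⟨i, t + 1⟩ := rfl

lemma s_symm_apply (i : Option (Fin P.h)) (t : ZMod (P.cu i).k) :
    P.rd.s.symm (⟨i, t⟩ : P.EE) = ⟨i, t - 1⟩ := by
  rw [Equiv.symm_apply_eq, s_apply, sub_add_cancel]

lemma hE_eq (i : Option (Fin P.h)) (t : ZMod (P.cu i).k) :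
    P.rd.hE (⟨i, t⟩ : P.EE) = (P.cu i).hEdge t := rfl

lemma vE_eq (i : Option (Fin P.h)) (t : ZMod (P.cu i).k) :
    P.rd.vE (⟨i, t⟩ : P.EE) = (P.cu i).vEdge t := by
  unfold RD.vE
  rw [s_symm_apply]
  rfl

lemma car_eq (i : Option (Fin P.h)) : P.rd.car i = (P.cu i).carrier := by
  ext p
  unfold RD.car Curve.carrier
  simp only [Set.mem_ofPred_eq, Set.mem_union, Set.mem_iUnion]
  constructor
  · rintro ⟨⟨j, t⟩, hj, h⟩
    change j = i at hj
    subst hj
    rw [hE_eq, vE_eq] at h
    rcases h with h | h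
    · exact Or.inl ⟨t, h⟩
    · exact Or.inr ⟨t, h⟩
  · rintro (⟨t, h⟩ | ⟨t, h⟩)
    · exact ⟨⟨i, t⟩, rfl, Or.inl (by rw [hE_eq]; exact h)⟩
    · exact ⟨⟨i, t⟩, rfl, Or.inr (by rw [vE_eq]; exact h)⟩

lemma simple (hP : P.IsPoly) (i : Option (Fin P.h)) : (P.cu i).IsSimple := by
  cases i with
  | none => exact hP.outer_simple
  | some i => exact hP.hole_simple i

lemma rp_eq [Fintype P.EE] (i : Option (Fin P.h)) (p : ℝ × ℝ) :
    P.rd.rp i p = {t : ZMod (P.cu i).k | p.2 < (P.cu i).y t ∧
      min ((P.cu i).x t) ((P.cu i).x (t + 1)) ≤ p.1 ∧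
      p.1 < max ((P.cu i).x t) ((P.cu i).x (t + 1))}.ncard := by
  classical
  unfold RD.rp
  rw [← Set.ncard_coe_finset]
  symm
  have hinj : Function.Injective (fun t : ZMod (P.cu i).k => (⟨i, t⟩ : P.EE)) := by
    intro a b hab
    simpa using hab
  rw [← Set.ncard_image_of_injective _ hinj]
  congr 1
  ext ⟨j, t⟩
  simp only [Set.mem_image, Set.mem_ofPred_eq, Finset.coe_filter, mem_univ, true_and]
  constructor
  · rintro ⟨t', ⟨h1, h2, h3⟩, h4⟩
    cases h4
    exact ⟨rfl, h1, h2, h3⟩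
  · rintro ⟨h0, h1, h2, h3⟩
    change j = i at h0
    subst h0
    exact ⟨t, ⟨h1, h2, h3⟩, rfl⟩

lemma ins_eq [Fintype P.EE] (i : Option (Fin P.h)) : P.rd.ins i = (P.cu i).inside := by
  ext p
  unfold RD.ins Curve.inside
  rw [Set.mem_ofPred_eq, Set.mem_ofPred_eq, car_eq, rp_eq]

lemma reg_eq [Fintype P.EE] (i : Option (Fin P.h)) : P.rd.reg i = (P.cu i).region := by
  unfold RD.reg Curve.region
  rw [ins_eq, car_eq]

lemma region_eq [Fintype P.EE] : P.rd.region = P.region := by
  unfold RD.region HPoly.region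
  have h1 : P.rd.reg P.rd.o = P.outer.region := reg_eq P none
  rw [h1]
  congr 1
  ext p
  simp only [Set.mem_ofPred_eq, Set.mem_iUnion]
  constructor
  · rintro ⟨i, hi, hp⟩
    cases i with
    | none => exact absurd rfl hi
    | some i => exact ⟨i, by rw [ins_eq] at hp; exact hp⟩
  · rintro ⟨i, hp⟩
    exact ⟨some i, (by intro h; cases h), by rw [ins_eq]; exact hp⟩

/-- different curves are disjoint -/
lemma car_disj (hP : P.IsPoly) (i j : Option (Fin P.h)) (hij : i ≠ j) :
    Disjoint (P.cu i).carrier (P.cu j).carrier := by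
  have key : ∀ a : Fin P.h, Disjoint P.outer.carrier (P.hole a).carrier := by
    intro a
    rw [Set.disjoint_left]
    intro p h1 h2
    have h3 : p ∈ P.outer.inside := hP.hole_in a (Or.inl h2)
    exact h3.1 h1
  cases i with
  | none =>
    cases j with
    | none => exact absurd rfl hij
    | some j => exact key j
  | some i =>
    cases j with
    | none => exact (key i).symm
    | some j =>
      have h := hP.hole_disj i j (by intro h; exact hij (by rw [h]))
      rw [Set.disjoint_left] at h ⊢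
      intro p h1 h2
      exact h (Or.inl h1) (Or.inl h2)

lemma hEdge_sub (c : Curve) (t : ZMod c.k) : c.hEdge t ⊆ c.carrier := by
  intro p hp
  exact Or.inl (Set.mem_iUnion.2 ⟨t, hp⟩)

lemma vEdge_sub (c : Curve) (t : ZMod c.k) : c.vEdge t ⊆ c.carrier := by
  intro p hp
  exact Or.inr (Set.mem_iUnion.2 ⟨t, hp⟩)

lemma s_pow (i : Option (Fin P.h)) (t : ZMod (P.cu i).k) (n : ℕ) :
    (P.rd.s ^ n) (⟨i, t⟩ : P.EE) = ⟨i, t + n⟩ := by
  induction n with
  | zero => simp
  | succ n ih =>
    rw [pow_succ', Equiv.Perm.mul_apply, ih, s_apply]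
    congr 1
    push_cast
    ring

end PDM

theorem specPD : SpecPD := by
  intro P _ _ hP
  have hs := PDM.simple P hP
  refine ⟨?_, PDM.region_eq P, ?_, ?_⟩
  · refine ⟨?_, ?_, ?_, ?_, ?_, ?_, ?_, ?_, ?_, ?_⟩
    · rintro ⟨i, t⟩
      exact (hs i).hne t
    · rintro ⟨i, t⟩
      rw [PDM.s_symm_apply]
      exact (hs i).vne t
    · rintro ⟨i, t⟩ ⟨j, u⟩ hne
      rw [PDM.hE_eq, PDM.hE_eq]
      by_cases hij : i = j
      · subst hij
        exact (hs i).hh t u (by intro h; exact hne (by rw [h]))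
      · exact (PDM.car_disj P hP i j hij).mono (PDM.hEdge_sub _ _) (PDM.hEdge_sub _ _)
    · rintro ⟨i, t⟩ ⟨j, u⟩ hne
      rw [PDM.vE_eq, PDM.vE_eq]
      by_cases hij : i = j
      · subst hij
        exact (hs i).vv t u (by intro h; exact hne (by rw [h]))
      · exact (PDM.car_disj P hP i j hij).mono (PDM.vEdge_sub _ _) (PDM.vEdge_sub _ _)
    · rintro ⟨i, t⟩ ⟨j, u⟩ hne
      rw [PDM.hE_eq, PDM.vE_eq] at hne
      by_cases hij : i = j
      · subst hij
        rw [PDM.s_apply]
        rcases (hs i).hv t u hne with h | h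
        · left; rw [h]
        · right; rw [h]
      · obtain ⟨p, h1, h2⟩ := hne
        exact absurd (PDM.vEdge_sub _ _ h2)
          (Set.disjoint_left.1 (PDM.car_disj P hP i j hij) (PDM.hEdge_sub _ _ h1))
    · rintro ⟨i, t⟩
      rfl
    · rintro ⟨i, t⟩ ⟨j, u⟩ hij
      change i = j at hij
      subst hij
      have : NeZero (P.cu i).k := ⟨by have := (hs i).two_le; omega⟩
      refine ⟨(u - t).val, ?_⟩
      rw [PDM.s_pow, ZMod.natCast_zmod_val]
      congr 1
      ring
    · intro i
      have : NeZero (P.cu i).k := ⟨by have := (hs i).two_le; omega⟩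
      exact ⟨⟨i, 0⟩, rfl⟩
    · intro i hi
      cases i with
      | none => exact absurd rfl hi
      | some i =>
        rw [PDM.reg_eq]
        have h : P.rd.ins P.rd.o = P.outer.inside := PDM.ins_eq P none
        rw [h]
        exact hP.hole_in i
    · intro i j hi hj hij
      cases i with
      | none => exact absurd rfl hi
      | some i =>
        cases j with
        | none => exact absurd rfl hj
        | some j =>
          rw [PDM.reg_eq, PDM.reg_eq]
          exact hP.hole_disj i j (by intro h; exact hij (by rw [h]))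
  · have : ∀ i, NeZero (P.cu i).k := fun i => ⟨by have := (hs i).two_le; omega⟩
    have hc : Fintype.card P.EE = ∑ i : Option (Fin P.h), (P.cu i).k := by
      have h0 : Fintype.card P.EE =
          @Fintype.card (Σ i : Option (Fin P.h), ZMod (P.cu i).k) Sigma.instFintype :=
        @Fintype.card_congr _ _ _ Sigma.instFintype (Equiv.refl _)
      rw [h0, Fintype.card_sigma]
      exact Finset.sum_congr rfl fun i _ => ZMod.card _
    rw [hc, Fintype.sum_option]
    unfold HPoly.n
    rw [← Finset.mul_sum]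
    change 2 * P.outer.k + 2 * ∑ i, (P.hole i).k = 2 * (P.outer.k + ∑ i, (P.hole i).k)
    ring
  · rintro ⟨i, t⟩
    have hv : (P.cu i).vertices ⊆ P.vertices := by
      intro p hp
      cases i with
      | none => exact Or.inl hp
      | some i => exact Or.inr (Set.mem_iUnion.2 ⟨i, hp⟩)
    exact ⟨hv ⟨t, Or.inl rfl⟩, hv ⟨t, Or.inr rfl⟩⟩

end Pool.Agent.Lib.MP06c549
end

section
/-! # Module QRT -/
namespace Pool.Agent.Lib.MP06c549

open Finset

theorem specQRT (hROT : SpecROT) : SpecQRT := by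
  intro ι E _ _ M hM wt wb Q hQ
  obtain ⟨-, hrr, hb, hcov, -, -, -, -⟩ := hROT ι E M hM
  have hX : ∀ f, M.rot.X f = - M.X f := fun _ => rfl
  have hY : ∀ f, M.rot.Y f = - M.Y f := fun _ => rfl
  refine ⟨?_, ?_, ?_, ?_⟩
  · intro a b h
    have h1 := hQ.vert (-1 - a) (-b) (fun e he hc => h e (by rw [hY]; omega)
      ((hcov e a).2 hc))
    show Q (-1 - a) (-1 - b) = Q (-1 - a) (-1 - (b - 1))
    rw [show -1 - (b - 1) = -b by ring, h1]
    congr 1
    ring
  · intro f b h
    rw [(hb f).2.2.2] at h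
    have h1 := hQ.down f (-1 - b) (by omega)
    show Q (-1 - M.rot.X f) (-1 - b) + Q (-1 - (M.rot.X f - 1)) (-1 - b) = _
    rw [hX, hY, show -1 - -M.X f = M.X f - 1 by ring, show -1 - (-M.X f - 1) = M.X f by ring,
      add_comm, h1]
    by_cases h2 : M.Y (M.rot.ot f) ≤ -1 - b
    · rw [if_pos h2, if_pos (by omega)]
    · rw [if_neg h2, if_neg (by omega)]
  · intro f b h
    rw [(hb f).2.2.1] at h
    have h1 := hQ.up f (-1 - b) (by omega)
    show Q (-1 - M.rot.X f) (-1 - b) + Q (-1 - (M.rot.X f - 1)) (-1 - b) = _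
    rw [hX, hY, hrr, show -1 - -M.X f = M.X f - 1 by ring, show -1 - (-M.X f - 1) = M.X f by ring,
      add_comm, h1]
    by_cases h2 : -1 - b < M.Y (M.ot f)
    · rw [if_pos h2, if_pos (by omega)]
    · rw [if_neg h2, if_neg (by omega)]
  · intro t b h
    have h1 := hQ.free (-t) (-1 - b) (fun f hf => h f (by rw [hX]; omega))
    show Q (-1 - t) (-1 - b) = Q (-1 - (t - 1)) (-1 - b)
    rw [show -1 - (t - 1) = -t by ring, h1]
    congr 1
    ring

end Pool.Agent.Lib.MP06c549
end

section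
/-!
# MP_06c549_co, module RDT: the theorem for real data
-/
namespace Pool.Agent.Lib.MP06c549

open Finset

theorem specRDT (hRNK : SpecRNK) (hRKX : SpecRKX) (hGD : SpecGD) (hHO : SpecHO) (hBIN : SpecBIN)
    (hCVB : SpecCVB) (hVIS : SpecVIS) : SpecRDT := by
  intro ι E _ _ _ _ D hD
  classical
  obtain ⟨X, hX⟩ := hRKX E D.x
  obtain ⟨Y, hY⟩ := hRKX E D.y
  have hg := hGD ι E D hD X Y hX hY
  have hh := hHO ι E D hD X Y hX hY
  obtain ⟨G, hG, hS⟩ := hRNK ι E (D.mod X Y) hg hh
  -- the vertical edge of the A-vertex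
  have hax : ∀ g : E, ∃ f, (f = g ∨ f = D.s g) ∧ X f = (D.mod X Y).ax g := by
    intro g
    have h1 : (D.mod X Y).lo g = X g ∨ (D.mod X Y).lo g = X (D.s g) := by
      unfold RM.lo; exact min_choice _ _
    have h2 : (D.mod X Y).hi g = X g ∨ (D.mod X Y).hi g = X (D.s g) := by
      unfold RM.hi; exact max_choice _ _
    unfold RM.ax
    split_ifs
    · rcases h1 with h | h
      · exact ⟨g, Or.inl rfl, h.symm⟩
      · exact ⟨D.s g, Or.inr rfl, h.symm⟩
    · rcases h2 with h | h
      · exact ⟨g, Or.inl rfl, h.symm⟩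
      · exact ⟨D.s g, Or.inr rfl, h.symm⟩
  choose v hv hvX using hax
  refine ⟨G.image fun g => (D.x (v g), D.y g), ?_, ?_, ?_⟩
  · have := card_image_le (s := G) (f := fun g => (D.x (v g), D.y g))
    omega
  · intro g hg'
    obtain ⟨e, -, rfl⟩ := mem_image.1 hg'
    refine ⟨e, ?_⟩
    rcases hv e with h | h
    · left; rw [h]
    · right; rw [h]
  · intro q hq
    obtain ⟨a, b, hab, hqb⟩ := hCVB ι E D hD X Y hX hY q hq
    obtain ⟨g, hgG, hsee⟩ := hS a b hab
    refine ⟨_, mem_image_of_mem _ hgG, ?_⟩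
    intro z hz
    have hsee' : (D.mod X Y).Sees (X (v g)) (Y g) a b := by rw [hvX]; exact hsee
    obtain ⟨a', b', hS', hz'⟩ := hVIS ι E D X Y hX hY a b g (v g) hsee' q hqb z hz
    exact hBIN ι E D hD X Y hX hY a' b' hS' hz'

end Pool.Agent.Lib.MP06c549
end

section
/-! # MP_06c549_co: module REG -/
namespace Pool.Agent.Lib.MP06c549

open Finset

namespace REGM

variable {ι E : Type} [Fintype ι] [Fintype E] [DecidableEq E] [DecidableEq ι]

lemma mem_ins (D : RD ι E) {i : ι} {q : ℝ × ℝ} (h : q ∉ D.car i) : q ∈ D.ins i ↔ Odd (D.rp i q) := by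
  unfold RD.ins
  simp [h]

/-- a point enclosed by the hole `i`: the total parity is even -/
lemma even_sum (D : RD ι E) (hD : D.OK) {i : ι} (hi : i ≠ D.o) {q : ℝ × ℝ}
    (hq : ∀ j, q ∉ D.car j) (h : Odd (D.rp i q)) : Even (∑ j, D.rp j q) := by
  have hmem : q ∈ D.reg i := Or.inr ((mem_ins D (hq i)).2 h)
  have ho : Odd (D.rp D.o q) := (mem_ins D (hq _)).1 (hD.hole_in i hi hmem)
  have hrest : Even (∑ j ∈ (univ.erase D.o).erase i, D.rp j q) := by
    refine Finset.even_sum _ fun j hj => ?_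
    simp only [mem_erase, mem_univ, and_true] at hj
    by_contra hodd
    rw [Nat.not_even_iff_odd] at hodd
    have hj' : q ∈ D.reg j := Or.inr ((mem_ins D (hq j)).2 hodd)
    exact Set.disjoint_left.1 (hD.hole_disj i j hi hj.2 (Ne.symm hj.1)) hmem hj'
  rw [← add_sum_erase univ _ (mem_univ D.o),
    ← add_sum_erase (univ.erase D.o) _ (mem_erase.2 ⟨hi, mem_univ i⟩), ← add_assoc]
  exact (ho.add_odd h).add hrest

end REGM

theorem specREG : SpecREG := by
  intro ι E _ _ _ _ D hD q
  refine ⟨?_, ?_, ?_⟩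
  · rintro ⟨i, hi⟩
    by_cases hio : i = D.o
    · subst hio
      refine ⟨Or.inl hi, ?_⟩
      rintro ⟨j, hj, hqj⟩
      exact (hD.hole_in j hj (Or.inr hqj)).1 hi
    · refine ⟨Or.inr (hD.hole_in i hio (Or.inl hi)), ?_⟩
      rintro ⟨j, hj, hqj⟩
      by_cases hij : i = j
      · subst hij
        exact hqj.1 hi
      · exact Set.disjoint_left.1 (hD.hole_disj i j hio hj hij) (Or.inl hi) (Or.inr hqj)
  · intro hq
    by_cases hex : ∃ i, i ≠ D.o ∧ Odd (D.rp i q)
    · obtain ⟨i, hi, hodd⟩ := hex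
      have h1 := REGM.even_sum D hD hi hq hodd
      have h2 : q ∉ D.region := fun hr => hr.2 ⟨i, hi, (REGM.mem_ins D (hq i)).2 hodd⟩
      simp only [h2, false_iff, Nat.not_odd_iff_even]
      exact h1
    · push Not at hex
      have hrest : Even (∑ j ∈ univ.erase D.o, D.rp j q) := by
        refine Finset.even_sum _ fun j hj => ?_
        simp only [mem_erase, mem_univ, and_true] at hj
        exact Nat.not_odd_iff_even.1 (hex j hj)
      rw [← add_sum_erase univ _ (mem_univ D.o), Nat.odd_add, iff_true_right hrest,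
        ← REGM.mem_ins D (hq _)]
      constructor
      · rintro ⟨h1 | h1, _⟩
        · exact absurd h1 (hq _)
        · exact h1
      · intro h1
        refine ⟨Or.inr h1, ?_⟩
        rintro ⟨j, hj, hqj⟩
        exact hex j hj ((REGM.mem_ins D (hq j)).1 hqj)
  · intro i hi hq hodd
    exact REGM.even_sum D hD hi hq hodd

end Pool.Agent.Lib.MP06c549
end

section
/-! # MP_06c549_co: the jumps of `Q` in a row (RJ) -/
namespace Pool.Agent.Lib.MP06c549

open Finset

namespace RJM

variable {ι E : Type} [Fintype E] [DecidableEq E]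

/-- the arrows of the row of `C` with target line `t`, seen as lines or as vertical edges -/
theorem sum_eq (hL : SpecLIN) {M : RM ι E} (hM : M.Good) {wt : E → ZMod 2}
    {w' : ℤ → ZMod 2} {C : E} (hC : ¬ M.Fl C)
    (h1 : ∀ f, M.RT f → M.ot f = C → w' (M.X f) = wt f) (t : ℤ) :
    ∑ t' ∈ (Ioo (M.lo C) (M.hi C)).filter (fun t' =>
      (M.ht C (t' - 1) < M.ht C t' ∧ PP (M.ht C) (M.lo C) t' = t) ∨
      (M.ht C t' < M.ht C (t' - 1) ∧ UU (M.ht C) (M.hi C) (t' - 1) = t)), w' t' =
    ∑ g ∈ univ.filter (fun g => M.RT g ∧ M.ot g = C ∧ M.tl g = t), wt g := by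
  classical
  obtain ⟨L1, L2, _, _⟩ := hL ι E M hM
  symm
  apply sum_bij (fun g _ => M.X g)
  · intro g hg
    rw [mem_filter] at hg
    obtain ⟨_, hg1, hg2, hg3⟩ := hg
    obtain ⟨_, k2, k3, _, k5⟩ := L2 g hg1
    rw [hg2] at k2 k3 k5
    rw [mem_filter, mem_Ioo]
    refine ⟨⟨k2, k3⟩, ?_⟩
    unfold RM.tl at hg3
    by_cases ha : M.asc g
    · left
      rw [if_pos ha, hg2] at hg3
      unfold RM.asc at ha
      rw [hg2] at ha
      exact ⟨ha, hg3⟩
    · right
      rw [if_neg ha, hg2] at hg3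
      unfold RM.asc at ha
      rw [hg2] at ha
      exact ⟨by omega, hg3⟩
  · intro g _ g' _ hgg
    exact hM.X_inj hgg
  · intro t' ht'
    rw [mem_filter, mem_Ioo] at ht'
    obtain ⟨⟨k1, k2⟩, k3⟩ := ht'
    have hne : M.ht C (t' - 1) ≠ M.ht C t' := by
      rcases k3 with ⟨k, _⟩ | ⟨k, _⟩ <;> omega
    obtain ⟨g, g1, g2, g3⟩ := L1 C t' hC k1 k2 hne
    refine ⟨g, ?_, g1⟩
    rw [mem_filter]
    refine ⟨mem_univ _, g2, g3, ?_⟩
    unfold RM.tl
    rcases k3 with ⟨k, k'⟩ | ⟨k, k'⟩
    · have ha : M.asc g := by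
        unfold RM.asc
        rw [g3, g1]
        exact k
      rw [if_pos ha, g3, g1]
      exact k'
    · have ha : ¬ M.asc g := by
        unfold RM.asc
        rw [g3, g1]
        omega
      rw [if_neg ha, g3, g1]
      exact k'
  · intro g hg
    rw [mem_filter] at hg
    exact (h1 g hg.2.1 hg.2.2.1).symm

/-- an inner target line of the row is a line of a vertical edge whose upper chord ends on `C` -/
theorem line_of_target (hL : SpecLIN) (hS : SpecSEQ) {M : RM ι E} (hM : M.Good) {C : E}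
    (hC : ¬ M.Fl C) {g : E} (hg : M.RT g) (hgC : M.ot g = C) {t : ℤ} (ht : M.tl g = t)
    (h1 : M.lo C < t) (h2 : t < M.hi C) : ∃ f, M.X f = t ∧ M.RT f ∧ M.ot f = C := by
  obtain ⟨L1, L2, _, _⟩ := hL ι E M hM
  obtain ⟨_, k2, k3, _, k5⟩ := L2 g hg
  rw [hgC] at k2 k3 k5
  apply L1 C t hC h1 h2
  unfold RM.tl at ht
  by_cases ha : M.asc g
  · rw [if_pos ha, hgC] at ht
    obtain ⟨p1, p2, p3, p4⟩ := hS.1 (M.ht C) (M.lo C) (M.X g) k2.le
    rw [ht] at p1 p2 p3 p4
    have e1 := p4 h1
    have e2 := p3 t le_rfl p2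
    omega
  · rw [if_neg ha, hgC] at ht
    obtain ⟨p1, p2, p3, p4⟩ := hS.2 (M.ht C) (M.hi C) (M.X g - 1) (by omega)
    rw [ht] at p1 p2 p3 p4
    have e1 := p4 h2
    have e2 := p3 (t - 1) (by omega) (by omega)
    omega

/-- position of a vertical edge crossing the line under `C` -/
theorem pos {M : RM ι E} (hM : M.Good) {C f : E} (h1 : M.lo C < M.X f) (h2 : M.X f < M.hi C) :
    M.tp f < M.Y C ∨ M.Y C < M.bo f := by
  have hnc := hM.nc C f
  have n1 : M.Y C ≠ M.Y f := by
    intro e
    have := hM.Y_inj e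
    subst this
    unfold RM.lo at h1
    unfold RM.hi at h2
    omega
  have n2 : M.Y C ≠ M.Y (M.s.symm f) := by
    intro e
    have := hM.Y_inj e
    have h3 : M.s C = f := by rw [this, Equiv.apply_symm_apply]
    unfold RM.lo at h1
    unfold RM.hi at h2
    rw [h3] at h1 h2
    omega
  unfold RM.bo RM.tp at *
  rcases lt_or_ge (max (M.Y (M.s.symm f)) (M.Y f)) (M.Y C) with h | h
  · left; exact h
  · right
    rcases lt_or_ge (M.Y C) (min (M.Y (M.s.symm f)) (M.Y f)) with h' | h'
    · exact h'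
    · exfalso
      apply hnc
      refine ⟨h1, h2, ?_, ?_⟩
      · rcases le_total (M.Y (M.s.symm f)) (M.Y f) with k | k
        · rw [min_eq_left k] at h' ⊢
          exact lt_of_le_of_ne h' (fun e => n2 e.symm)
        · rw [min_eq_right k] at h' ⊢
          exact lt_of_le_of_ne h' (fun e => n1 e.symm)
      · rcases le_total (M.Y (M.s.symm f)) (M.Y f) with k | k
        · rw [max_eq_right k] at h ⊢
          exact lt_of_le_of_ne h n1
        · rw [max_eq_left k] at h ⊢
          exact lt_of_le_of_ne h n2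

end RJM

open RJM in
theorem specRJ (hL : SpecLIN) (hO : SpecOTM) (hS : SpecSEQ) (hR : SpecROT) : SpecRJ := by
  intro ι E _ _ M hM wt wb Q hQ w' C hC h1 h2 t ht1 ht2
  classical
  have hsum := sum_eq hL hM hC h1 t
  obtain ⟨L1, L2, _, _⟩ := hL ι E M hM
  unfold rowJ
  rw [hsum]
  by_cases hA : ∃ f, M.X f = t ∧ M.RT f ∧ M.ot f = C
  · obtain ⟨f, f1, f2, f3⟩ := hA
    obtain ⟨_, _, _, k4, k5⟩ := L2 f f2
    rw [f3] at k4 k5
    rw [f1] at k5
    have hup := hQ.up f (M.Y C - 1) (by omega)
    rw [f1, f3, if_pos (by omega)] at hup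
    rw [hup, if_neg k5, ← f1, h1 f f2 f3]
    unfold RM.jt
    rw [if_pos f2, f3]
  · have hw0 : w' t = 0 := h2 t (fun f e1 e2 e3 => hA ⟨f, e1, e2, e3⟩)
    have hempty : univ.filter (fun g => M.RT g ∧ M.ot g = C ∧ M.tl g = t) = ∅ := by
      rw [filter_eq_empty_iff]
      rintro g _ ⟨g1, g2, g3⟩
      exact hA (line_of_target hL hS hM hC g1 g2 g3 ht1 ht2)
    rw [hempty, sum_empty, hw0, ite_self, add_zero]
    by_cases hB : ∃ f, M.X f = t
    · obtain ⟨f, f1⟩ := hB
      rw [← f1] at ht1 ht2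
      have hcov : M.Cov C (M.X f) := ⟨ht1.le, ht2⟩
      rcases pos hM ht1 ht2 with hp | hp
      · have hup := hQ.up f (M.Y C - 1) (by omega)
        rw [← f1, hup]
        split_ifs with hc
        · obtain ⟨_, _, o3⟩ := hO ι E M hM f C (Or.inl hcov) hp
          have : M.ot f = C := hM.Y_inj (by omega)
          have hnr : ¬ M.RT f := fun hr => hA ⟨f, f1, hr, this⟩
          unfold RM.jt
          rw [if_neg hnr]
        · rfl
      · have hdn := hQ.down f (M.Y C - 1) (by omega)
        rw [← f1, hdn]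
        obtain ⟨r1, _, r3, r4, _⟩ := hR ι E M hM
        have hcov' : M.rot.Cov C (M.rot.X f - 1) := by
          rw [r4]
          have : -1 - (M.rot.X f - 1) = M.X f := by
            show -1 - (- M.X f - 1) = M.X f
            ring
          rw [this]
          exact hcov
        have htp : M.rot.tp f < M.rot.Y C := by
          rw [(r3 f).2.2.2]
          show - M.bo f < - M.Y C
          omega
        obtain ⟨_, _, o3⟩ := hO ι E M.rot r1 f C (Or.inr hcov') htp
        have o4 : - M.Y (M.rot.ot f) ≤ - M.Y C := o3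
        rw [if_neg (by omega)]
    · have hfree := hQ.free t (M.Y C - 1) (fun f e => hB ⟨f, e⟩)
      rw [hfree]
      exact CharTwo.add_self_eq_zero _

end Pool.Agent.Lib.MP06c549
end

section
/-!
# RKX: ranks exist
-/
set_option autoImplicit false

namespace Pool.Agent.Lib.MP06c549

open Finset

theorem specRKX : SpecRKX := by
  classical
  intro E _ x
  let idx : E ≃ Fin (Fintype.card E) := Fintype.equivFin E
  let κ : E → ℝ ×ₗ Fin (Fintype.card E) := fun e => toLex (x e, idx e)
  have hκ : Function.Injective κ := by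
    intro e f h
    have h1 : (x e, idx e) = (x f, idx f) := toLex.injective h
    exact idx.injective (Prod.ext_iff.1 h1).2
  let X : E → ℤ := fun e => ((univ.filter fun f => κ f < κ e).card : ℤ)
  have hX : ∀ e f, κ e < κ f → X e < X f := by
    intro e f h
    have h1 : (univ.filter fun g => κ g < κ e) ⊂ univ.filter fun g => κ g < κ f := by
      rw [Finset.ssubset_iff_of_subset fun g hg => by
        simp only [mem_filter, mem_univ, true_and] at hg ⊢
        exact hg.trans h]
      exact ⟨e, by simpa using h, by simp⟩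
    exact Int.ofNat_lt.2 (Finset.card_lt_card h1)
  refine ⟨X, ?_, ?_⟩
  · intro e f h
    by_contra hne
    rcases lt_or_gt_of_ne (hκ.ne hne) with h1 | h1
    · exact (hX e f h1).ne h
    · exact (hX f e h1).ne' h
  · intro e f h
    refine hX e f ?_
    rw [Prod.Lex.toLex_lt_toLex]
    exact Or.inl h

end Pool.Agent.Lib.MP06c549
end

section
/-!
# MP_06c549_co, module RNK: the theorem in the rank model
-/
namespace Pool.Agent.Lib.MP06c549

open Finset

namespace RNKM

/-- the smaller colour class together with `D` -/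
lemma count {E : Type} [Fintype E] [DecidableEq E] (D : Finset E) (col : E → ZMod 2)
    (hD : 4 * D.card ≤ Fintype.card E) : ∃ c : ZMod 2,
    8 * (D ∪ univ.filter (fun e => col e = c)).card ≤ 5 * Fintype.card E := by
  classical
  have h01 : ∀ z : ZMod 2, z = 0 ∨ z = 1 := by decide
  set A0 := (univ \ D).filter fun e => col e = 0 with hA0
  set A1 := (univ \ D).filter fun e => col e = 1 with hA1
  have hsum : A0.card + A1.card + D.card = Fintype.card E := by
    have hdis : Disjoint A0 A1 := by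
      rw [disjoint_left]
      intro e h0 h1
      rw [hA0, mem_filter] at h0
      rw [hA1, mem_filter] at h1
      have := h0.2.symm.trans h1.2
      exact absurd this (by decide)
    have hun : A0 ∪ A1 = univ \ D := by
      ext e
      simp only [hA0, hA1, mem_union, mem_filter]
      constructor
      · rintro (h | h) <;> exact h.1
      · intro h
        rcases h01 (col e) with h' | h'
        · exact Or.inl ⟨h, h'⟩
        · exact Or.inr ⟨h, h'⟩
    have h2 : (univ \ D).card + D.card = Fintype.card E := by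
      rw [← card_univ]
      exact card_sdiff_add_card_eq_card (subset_univ D)
    rw [← h2, ← hun, card_union_of_disjoint hdis]
  have key : ∀ c : ZMod 2, (D ∪ univ.filter (fun e => col e = c)).card ≤
      D.card + ((univ \ D).filter fun e => col e = c).card := by
    intro c
    have : D ∪ univ.filter (fun e => col e = c) ⊆ D ∪ (univ \ D).filter fun e => col e = c := by
      intro e he
      rw [mem_union, mem_filter] at he
      rw [mem_union, mem_filter, mem_sdiff]
      by_cases h : e ∈ D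
      · exact Or.inl h
      · rcases he with he | he
        · exact Or.inl he
        · exact Or.inr ⟨⟨mem_univ _, h⟩, he.2⟩
    exact (card_le_card this).trans (card_union_le _ _)
  rcases le_total A0.card A1.card with h | h
  · refine ⟨0, ?_⟩
    have := key 0
    rw [← hA0] at this
    omega
  · refine ⟨1, ?_⟩
    have := key 1
    rw [← hA1] at this
    omega

end RNKM

theorem specRNK (hJN : SpecJN) (hBAL : SpecBAL) (hEXA : SpecEXA) (hLIN : SpecLIN) (hROT : SpecROT)
    (hCOL : SpecCOL) (hCOV : SpecCOV) (hCVR : SpecCVR) (hCEL : SpecCEL) : SpecRNK := by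
  intro ι E _ _ _ _ M hg hh
  classical
  obtain ⟨D, wt, wb, hD, hwt, hwb, hbal⟩ := hJN ι E M hg hh
  obtain ⟨hrg, hrr, hlh, hcov, hS, hFl, hax, hbx⟩ := hROT ι E M hg
  have hL := (hLIN ι E M hg).2.1
  have hLr := (hLIN ι E M.rot hrg).2.1
  -- exactness
  obtain ⟨Q, hQ1, hQ2, hQ3, hQ4⟩ := hEXA ι E M hg (M.jt wt) (M.rot.jt wb) M.ot M.rot.ot
    (by
      intro f hf
      have hR : M.RT f := by
        by_contra h
        exact hf (by simp [RM.jt, h])
      obtain ⟨-, h1, h2, h3, -⟩ := hL f hR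
      exact ⟨h1, h2, h3⟩)
    (by
      intro f hf
      have hR : M.rot.RT f := by
        by_contra h
        exact hf (by simp [RM.jt, h])
      obtain ⟨-, h1, h2, h3, -⟩ := hLr f hR
      rw [(hlh _).1] at h1
      rw [(hlh _).2.1] at h2
      rw [(hlh _).2.2.2] at h3
      have hX : M.rot.X f = - M.X f := rfl
      have hY : M.rot.Y (M.rot.ot f) = - M.Y (M.rot.ot f) := rfl
      rw [hX] at h1 h2
      rw [hY] at h3
      refine ⟨by omega, by omega, by omega⟩)
    (by
      intro i
      have h1 := hBAL ι E M hg wt i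
      have h2 := hBAL ι E M.rot hrg wb i
      have h3 := hbal i
      have hc : M.rot.comp = M.comp := rfl
      rw [hc] at h2
      rw [sum_add_distrib]
      calc _ = (∑ f ∈ univ.filter (fun f => M.comp f = i), M.jt wt f +
                ∑ f ∈ univ.filter (fun f => M.comp (M.ot f) = i), M.jt wt f) +
              (∑ f ∈ univ.filter (fun f => M.comp f = i), M.rot.jt wb f +
                ∑ f ∈ univ.filter (fun f => M.comp (M.rot.ot f) = i), M.rot.jt wb f) := by ring
        _ = 0 := by rw [h1, h2]; exact h3)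
  have hQG : QGood M wt wb Q := ⟨hQ1, hQ2, hQ3, hQ4⟩
  obtain ⟨col, hcol⟩ := hCOL ι E M hg wt wb Q D hQG hwt hwb
  obtain ⟨c, hc⟩ := RNKM.count D col hD
  refine ⟨_, hc, ?_⟩
  intro a b hab
  obtain ⟨C, hC, hCa, hCb, hbC⟩ := hCEL ι E M hg a b hab
  have s1 := hCOV ι E M hg C a b hC hCa hCb hbC
  have s2 := hCVR ι E M hg C a b hC hCa hCb hbC
  rcases hcol C a hC hCa with h | h | h
  · exact ⟨_, mem_union_left _ h, s1⟩
  · exact ⟨_, mem_union_left _ h, s2⟩
  · have h01 : ∀ x y z : ZMod 2, x ≠ y → x = z ∨ y = z := by decide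
    rcases h01 _ _ c h with h' | h'
    · exact ⟨_, mem_union_right _ (mem_filter.2 ⟨mem_univ _, h'⟩), s1⟩
    · exact ⟨_, mem_union_right _ (mem_filter.2 ⟨mem_univ _, h'⟩), s2⟩

end Pool.Agent.Lib.MP06c549
end

section
/-! # MP_06c549_co: the row lemma (ROW) -/
namespace Pool.Agent.Lib.MP06c549

open Finset

namespace ROWM

theorem self_add (x : ZMod 2) : x + x = 0 := CharTwo.add_self_eq_zero x

/-- ascents: the line and its target are both between `i` and `U` or both not -/
theorem asc_iff (hS : SpecSEQ) {h : ℤ → ℤ} {l r : ℤ}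
    (heq : ∀ i k j, l ≤ i → i ≤ k → k ≤ j → j < r → h i = h j → h i ≤ h k)
    {i U : ℤ} (hi : l ≤ i) (hU : U ≤ r) (hle : ∀ k, i ≤ k → k < U → h k ≤ h i)
    (hlt : U < r → h i < h U) {t : ℤ} (ht1 : l < t) (ht2 : t < r) (ha : h (t - 1) < h t) :
    (i < t ∧ t < U) ↔ (i < PP h l t ∧ PP h l t < U) := by
  obtain ⟨h1, h2, h3, h4⟩ := hS.1 h l t ht1.le
  have hpt : PP h l t < t := by
    rcases lt_or_eq_of_le h2 with h' | h'
    · exact h'
    · exfalso
      have := h4 (by omega)
      rw [h'] at this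
      omega
  constructor
  · rintro ⟨ha1, ha2⟩
    have e1 := hle t ha1.le ha2
    have e2 : h t ≠ h i := by
      intro e
      have := heq i (t - 1) t hi (by omega) (by omega) ht2 e.symm
      omega
    refine ⟨?_, by omega⟩
    by_contra hc
    have := h3 i (by omega) (by omega)
    omega
  · rintro ⟨hb1, hb2⟩
    refine ⟨by omega, ?_⟩
    by_contra hc
    have e1 := h4 (by omega)
    have e2 := hle (PP h l t - 1) (by omega) (by omega)
    have e3 := h3 U (by omega) (by omega)
    have e4 := hlt (by omega)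
    omega

/-- descents -/
theorem desc_iff (hS : SpecSEQ) {h : ℤ → ℤ} {r : ℤ}
    {i U : ℤ} (hle : ∀ k, i ≤ k → k < U → h k ≤ h i) (hU : U ≤ r)
    (hlt : U < r → h i < h U) {t : ℤ} (ht2 : t < r) (ha : h t < h (t - 1))
    (hne : i < t → t < U → UU h r (t - 1) ≠ U) :
    (i < t ∧ t < U) ↔ (i < UU h r (t - 1) ∧ UU h r (t - 1) < U) := by
  obtain ⟨h1, h2, h3, h4⟩ := hS.2 h r (t - 1) (by omega)
  have hut : t < UU h r (t - 1) := by
    rcases lt_or_eq_of_le (by omega : t ≤ UU h r (t - 1)) with h' | h'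
    · exact h'
    · exfalso
      have := h4 (by omega)
      rw [← h'] at this
      omega
  constructor
  · rintro ⟨ha1, ha2⟩
    have e1 := hle (t - 1) (by omega) (by omega)
    have e2 := hne ha1 ha2
    refine ⟨by omega, ?_⟩
    by_contra hc
    have e3 := h3 U (by omega) (by omega)
    have e4 := hlt (by omega)
    omega
  · rintro ⟨hb1, hb2⟩
    refine ⟨?_, by omega⟩
    by_contra hc
    have e1 := h4 (by omega)
    have e2 := hle (UU h r (t - 1)) (by omega) (by omega)
    have e3 := h3 i (by omega) (by omega)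
    omega

end ROWM

open ROWM in
theorem specROW (hS : SpecSEQ) : SpecROW := by
  intro h l r w heq i U hi hiU hU hle hlt hw
  classical
  have hsub : Ioo i U ⊆ Ioo l r := by
    intro x hx
    rw [mem_Ioo] at hx ⊢
    omega
  have e1 : ∑ s ∈ Ioo i U, (if h (s - 1) = h s then (0 : ZMod 2) else w s) =
      ∑ t ∈ Ioo l r, (if (i < t ∧ t < U) then (if h (t - 1) = h t then (0 : ZMod 2) else w t)
        else 0) := by
    rw [← sum_filter]
    apply sum_congr _ (fun _ _ => rfl)
    ext x
    simp only [mem_Ioo, mem_filter]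
    omega
  have e2 : ∑ s ∈ Ioo i U, ∑ t ∈ (Ioo l r).filter (fun t => (h (t - 1) < h t ∧ PP h l t = s) ∨
      (h t < h (t - 1) ∧ UU h r (t - 1) = s)), w t =
      ∑ t ∈ Ioo l r, ∑ s ∈ Ioo i U, (if (h (t - 1) < h t ∧ PP h l t = s) ∨
      (h t < h (t - 1) ∧ UU h r (t - 1) = s) then w t else 0) := by
    rw [sum_comm]
    apply sum_congr rfl
    intro s _
    rw [sum_filter]
  unfold rowJ
  rw [sum_add_distrib, e1, e2, ← sum_add_distrib]
  apply sum_eq_zero
  intro t ht
  rw [mem_Ioo] at ht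
  rcases lt_trichotomy (h (t - 1)) (h t) with ha | ha | ha
  · have k1 := asc_iff hS heq hi hU hle hlt ht.1 ht.2 ha
    have k2 : ∑ s ∈ Ioo i U, (if (h (t - 1) < h t ∧ PP h l t = s) ∨
      (h t < h (t - 1) ∧ UU h r (t - 1) = s) then w t else 0) =
      if (i < PP h l t ∧ PP h l t < U) then w t else 0 := by
      have : ∀ s ∈ Ioo i U, (if (h (t - 1) < h t ∧ PP h l t = s) ∨
        (h t < h (t - 1) ∧ UU h r (t - 1) = s) then w t else 0) =
        if PP h l t = s then w t else 0 := by
        intro s _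
        congr 1
        have : ¬ (h t < h (t - 1)) := by omega
        simp [ha, this]
      rw [sum_congr rfl this, sum_ite_eq]
      simp only [mem_Ioo]
    rw [k2, if_neg (ne_of_lt ha)]
    by_cases hc : i < t ∧ t < U
    · rw [if_pos hc, if_pos (k1.1 hc)]
      exact self_add _
    · rw [if_neg hc, if_neg (fun h' => hc (k1.2 h'))]
      rfl
  · have k2 : ∑ s ∈ Ioo i U, (if (h (t - 1) < h t ∧ PP h l t = s) ∨
      (h t < h (t - 1) ∧ UU h r (t - 1) = s) then w t else 0) = 0 := by
      apply sum_eq_zero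
      intro s _
      rw [if_neg]
      rintro (⟨h1, _⟩ | ⟨h1, _⟩) <;> omega
    rw [k2, if_pos ha]
    simp
  · by_cases hwt : w t = 0
    · simp [hwt]
    have k1 := desc_iff hS hle hU hlt ht.2 ha
      (fun a b c => hwt (hw t a b ha c))
    have k2 : ∑ s ∈ Ioo i U, (if (h (t - 1) < h t ∧ PP h l t = s) ∨
      (h t < h (t - 1) ∧ UU h r (t - 1) = s) then w t else 0) =
      if (i < UU h r (t - 1) ∧ UU h r (t - 1) < U) then w t else 0 := by
      have : ∀ s ∈ Ioo i U, (if (h (t - 1) < h t ∧ PP h l t = s) ∨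
        (h t < h (t - 1) ∧ UU h r (t - 1) = s) then w t else 0) =
        if UU h r (t - 1) = s then w t else 0 := by
        intro s _
        congr 1
        have : ¬ (h (t - 1) < h t) := by omega
        simp [ha, this]
      rw [sum_congr rfl this, sum_ite_eq]
      simp only [mem_Ioo]
    rw [k2, if_neg (ne_of_gt ha)]
    by_cases hc : i < t ∧ t < U
    · rw [if_pos hc, if_pos (k1.1 hc)]
      exact self_add _
    · rw [if_neg hc, if_neg (fun h' => hc (k1.2 h'))]
      rfl

end Pool.Agent.Lib.MP06c549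
end
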