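import Pool.Agent.Lib.MP_06c549_co.Spec

section
/-! # MP_06c549_co: module SEQ -/
set_option autoImplicit false

namespace Pool.Agent.Lib.MP06c549

namespace SEQM

/-- the defining properties of `PP` -/
lemma pp (h : ℤ → ℤ) (l i : ℤ) (hli : l ≤ i) : l ≤ PP h l i ∧ PP h l i ≤ i ∧
    (∀ k, PP h l i ≤ k → k ≤ i → h k ≤ h i) ∧ (l < PP h l i → h i < h (PP h l i - 1)) := by
  set T : Set ℤ := {p : ℤ | l ≤ p ∧ ∀ k, p ≤ k → k ≤ i → h k ≤ h i} with hT
  have hiT : i ∈ T := ⟨hli, fun k h1 h2 => by rw [le_antisymm h2 h1]⟩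
  have hbd : BddBelow T := ⟨l, fun p hp => hp.1⟩
  have hmem : PP h l i ∈ T := Int.csInf_mem ⟨i, hiT⟩ hbd
  refine ⟨hmem.1, csInf_le hbd hiT, hmem.2, fun hlt => ?_⟩
  by_contra hcon
  push Not at hcon
  have h1 : PP h l i - 1 ∈ T := by
    refine ⟨by omega, fun k hk1 hk2 => ?_⟩
    rcases eq_or_lt_of_le hk1 with h2 | h2
    · rw [← h2]; exact hcon
    · exact hmem.2 k (by omega) hk2
  have h2 : PP h l i ≤ PP h l i - 1 := csInf_le hbd h1
  omega

/-- the defining properties of `UU` -/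
lemma uu (h : ℤ → ℤ) (r i : ℤ) (hir : i < r) : i < UU h r i ∧ UU h r i ≤ r ∧
    (∀ k, i ≤ k → k < UU h r i → h k ≤ h i) ∧ (UU h r i < r → h i < h (UU h r i)) := by
  set T : Set ℤ := {q : ℤ | q ≤ r ∧ ∀ k, i ≤ k → k < q → h k ≤ h i} with hT
  have hiT : i + 1 ∈ T := ⟨by omega, fun k h1 h2 => by rw [show k = i by omega]⟩
  have hbd : BddAbove T := ⟨r, fun p hp => hp.1⟩
  have hmem : UU h r i ∈ T := Int.csSup_mem ⟨i + 1, hiT⟩ hbd
  have hle : i + 1 ≤ UU h r i := le_csSup hbd hiT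
  refine ⟨by omega, hmem.1, hmem.2, fun hlt => ?_⟩
  by_contra hcon
  push Not at hcon
  have h1 : UU h r i + 1 ∈ T := by
    refine ⟨by omega, fun k hk1 hk2 => ?_⟩
    rcases eq_or_lt_of_le (show k ≤ UU h r i by omega) with h2 | h2
    · rw [h2]; exact hcon
    · exact hmem.2 k hk1 h2
  have h2 : UU h r i + 1 ≤ UU h r i := le_csSup hbd h1
  omega

end SEQM

theorem specSEQ : SpecSEQ := ⟨SEQM.pp, SEQM.uu⟩

end Pool.Agent.Lib.MP06c549
end

section
/-!
# Module SX: the crossing rules for the set of cells of the polygon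
-/
set_option autoImplicit false

namespace Pool.Agent.Lib.MP06c549

open Finset

theorem specSX (hCR : SpecCR) : SpecSX := by
  intro ι E _ _ M hM
  obtain ⟨h1, h2, h3, h4, h5⟩ := hCR ι E M hM.X_inj hM.Y_inj hM.s_ne univ (fun e => by simp)
  refine ⟨?_, ?_, ?_, ?_, ?_, ?_⟩
  · intro f b
    have := h1 f b
    simp only [mem_univ, true_and] at this
    exact this
  · intro a b h
    exact h2 a b fun f _ => h f
  · intro e a h
    exact h3 e (mem_univ e) a h
  · intro a b h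
    unfold RM.S
    rw [h4 a b fun e _ => h e]
  · intro a b h
    exact Nat.not_odd_iff_even.2 (h5 a b fun e _ => h e)
  · intro a b h
    unfold RM.S RM.cnt
    rw [filter_eq_empty_iff.2 fun e _ h' => absurd (h e) (not_le.2 h'.2), card_empty]
    exact Nat.not_odd_zero

end Pool.Agent.Lib.MP06c549
end

section
/-!
# Module TGA: the arrow of an ascent
-/
namespace Pool.Agent.Lib.MP06c549

open Finset

/-- TGA. -/
theorem specTGA (hLIN : SpecLIN) (hSEQ : SpecSEQ) (hBEL : SpecBEL) : SpecTGA := by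
  intro ι E _ _ M hM f hf ha
  obtain ⟨l1, l2, l3, l4⟩ := hLIN ι E M hM
  obtain ⟨c1, c2, c3, c4, -⟩ := l2 f hf
  obtain ⟨d1, d2, d3⟩ := l3 f hf ha
  have hta : M.ta f = M.bel (M.ot f) (M.X f) := if_pos ha
  obtain ⟨-, -, b3, -⟩ := hBEL ι E M hM (M.ot f) (M.X f) c1 ⟨c2.le, c3⟩
  have htl : M.tl f = PP (M.ht (M.ot f)) (M.lo (M.ot f)) (M.X f) := if_pos ha
  have htb : M.tb f = M.ul (M.ot f) (M.X f) := if_pos ha
  obtain ⟨s1, s2, s3, s4⟩ := hSEQ.1 (M.ht (M.ot f)) (M.lo (M.ot f)) (M.X f) c2.le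
  rw [← htl] at s1 s2 s3 s4
  have ha' : M.ht (M.ot f) (M.X f - 1) < M.ht (M.ot f) (M.X f) := ha
  have hlt : M.tl f < M.X f := by
    rcases s2.lt_or_eq with h | h
    · exact h
    · have := s4 (by rw [h]; exact c2)
      rw [h] at this
      exact absurd this (not_lt.2 ha'.le)
  have hax : M.ax (M.ta f) = M.X f := by
    rw [hta]
    unfold RM.ax
    rw [if_pos b3, d1]
  refine ⟨hax, by rw [hta]; exact b3, by rw [hta]; exact d2, by rw [hta]; exact d3, ?_⟩
  by_cases hp : M.tl f = M.lo (M.ot f)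
  · have htb' : M.tb f = M.ot f := by
      rw [htb]
      unfold RM.ul
      rw [← htl, if_pos hp]
    refine ⟨?_, hlt, by rw [htb']; exact c4, Or.inl ⟨hp, htb'⟩⟩
    rw [htb', hp]
    unfold RM.bx
    rw [if_neg c1]
  · have htb' : M.tb f = M.bel (M.ot f) (M.tl f - 1) := by
      rw [htb]
      unfold RM.ul
      rw [← htl, if_neg hp]
    have hlo : M.lo (M.ot f) < M.tl f := lt_of_le_of_ne s1 (Ne.symm hp)
    have h1 := s4 hlo
    have h2 := s3 (M.tl f) le_rfl s2
    obtain ⟨g, g1, g2, g3⟩ := l1 (M.ot f) (M.tl f) c1 hlo (by omega) (by omega)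
    have hg : ¬ M.asc g := by
      unfold RM.asc
      rw [g3, g1]
      omega
    obtain ⟨e1, e2, e3⟩ := l4 g g2 hg
    rw [g3, g1] at e1 e2 e3
    obtain ⟨-, -, q3, -⟩ := hBEL ι E M hM (M.ot f) (M.tl f - 1) c1 ⟨by omega, by omega⟩
    have hY : M.Y (M.bel (M.ot f) (M.tl f - 1)) = M.ht (M.ot f) (M.tl f - 1) := rfl
    refine ⟨?_, hlt, ?_, Or.inr ⟨hlo, g, g2, g3, g1, hg, ?_, ?_⟩⟩
    · rw [htb']
      unfold RM.bx
      rw [if_pos q3, e1]
    · rw [htb', hY, ← d2]
      exact h1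
    · rw [htb']
      unfold RM.tb
      rw [if_neg hg, g3, g1]
    · rw [htb', e3]

end Pool.Agent.Lib.MP06c549
end

section
/-!
# Module TGD: the arrow of a descent
-/
namespace Pool.Agent.Lib.MP06c549

open Finset

/-- TGD. -/
theorem specTGD (hLIN : SpecLIN) (hSEQ : SpecSEQ) (hBEL : SpecBEL) : SpecTGD := by
  intro ι E _ _ M hM f hf ha
  obtain ⟨l1, l2, l3, l4⟩ := hLIN ι E M hM
  obtain ⟨c1, c2, c3, c4, c5⟩ := l2 f hf
  obtain ⟨d1, d2, d3⟩ := l4 f hf ha
  have htb : M.tb f = M.bel (M.ot f) (M.X f - 1) := if_neg ha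
  obtain ⟨-, -, b3, -⟩ := hBEL ι E M hM (M.ot f) (M.X f - 1) c1 ⟨by omega, by omega⟩
  have htl : M.tl f = UU (M.ht (M.ot f)) (M.hi (M.ot f)) (M.X f - 1) := if_neg ha
  have hta : M.ta f = M.ur (M.ot f) (M.X f - 1) := if_neg ha
  obtain ⟨s1, s2, s3, s4⟩ := hSEQ.2 (M.ht (M.ot f)) (M.hi (M.ot f)) (M.X f - 1) (by omega)
  rw [← htl] at s1 s2 s3 s4
  have ha' : M.ht (M.ot f) (M.X f) < M.ht (M.ot f) (M.X f - 1) := by
    have : ¬ M.ht (M.ot f) (M.X f - 1) < M.ht (M.ot f) (M.X f) := ha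
    omega
  have hlt : M.X f < M.tl f := by
    rcases lt_or_eq_of_le (show M.X f ≤ M.tl f by omega) with h | h
    · exact h
    · have := s4 (by rw [← h]; exact c3)
      rw [← h] at this
      exact absurd this (not_lt.2 ha'.le)
  have hbx : M.bx (M.tb f) = M.X f := by
    rw [htb]
    unfold RM.bx
    rw [if_pos b3, d1]
  refine ⟨hbx, by rw [htb]; exact b3, by rw [htb]; exact d2, by rw [htb]; exact d3, ?_⟩
  by_cases hp : M.tl f = M.hi (M.ot f)
  · have hta' : M.ta f = M.ot f := by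
      rw [hta]
      unfold RM.ur
      rw [← htl, if_pos hp]
    refine ⟨?_, hlt, by rw [hta']; exact c4, Or.inl ⟨hp, hta'⟩⟩
    rw [hta', hp]
    unfold RM.ax
    rw [if_neg c1]
  · have hta' : M.ta f = M.bel (M.ot f) (M.tl f) := by
      rw [hta]
      unfold RM.ur
      rw [← htl, if_neg hp]
    have hhi : M.tl f < M.hi (M.ot f) := lt_of_le_of_ne s2 hp
    have h1 := s4 hhi
    have h2 := s3 (M.tl f - 1) (by omega) (by omega)
    obtain ⟨g, g1, g2, g3⟩ := l1 (M.ot f) (M.tl f) c1 (by omega) hhi (by omega)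
    have hg : M.asc g := by
      unfold RM.asc
      rw [g3, g1]
      omega
    obtain ⟨e1, e2, e3⟩ := l3 g g2 hg
    rw [g3, g1] at e1 e2 e3
    obtain ⟨-, -, q3, -⟩ := hBEL ι E M hM (M.ot f) (M.tl f) c1 ⟨by omega, by omega⟩
    have hY : M.Y (M.bel (M.ot f) (M.tl f)) = M.ht (M.ot f) (M.tl f) := rfl
    refine ⟨?_, hlt, ?_, Or.inr ⟨hhi, g, g2, g3, g1, hg, ?_, ?_⟩⟩
    · rw [hta']
      unfold RM.ax
      rw [if_pos q3, e1]
    · rw [hta', hY, ← d2]
      exact h1
    · rw [hta']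
      unfold RM.ta
      rw [if_pos hg, g3, g1]
    · rw [hta', e3]

end Pool.Agent.Lib.MP06c549
end

section
/-! # Module URF -/
namespace Pool.Agent.Lib.MP06c549

open Finset

namespace URFM

variable {ι E : Type} [Fintype E] [DecidableEq E]

/-- the two cases of the definition of `ur`; in the second one the label is the A-vertex of an
ascent line -/
theorem ur_cases (hSEQ : SpecSEQ) (hLIN : SpecLIN) (hBEL : SpecBEL) {M : RM ι E} (hM : M.Good)
    (C : E) (i : ℤ) (hC : ¬ M.Fl C) (hCi : M.Cov C i) :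
    i < UU (M.ht C) (M.hi C) i ∧ UU (M.ht C) (M.hi C) i ≤ M.hi C ∧
    (∀ k, i ≤ k → k < UU (M.ht C) (M.hi C) i → M.ht C k ≤ M.ht C i) ∧
    ((UU (M.ht C) (M.hi C) i = M.hi C ∧ M.ur C i = C) ∨
      (UU (M.ht C) (M.hi C) i < M.hi C ∧ M.ht C i < M.ht C (UU (M.ht C) (M.hi C) i) ∧
        M.ur C i = M.bel C (UU (M.ht C) (M.hi C) i) ∧ M.Fl (M.ur C i) ∧
        M.lo (M.ur C i) = UU (M.ht C) (M.hi C) i ∧
        ∃ f, M.X f = UU (M.ht C) (M.hi C) i ∧ M.RT f ∧ M.asc f ∧ M.ta f = M.ur C i ∧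
          M.ot f = C)) := by
  obtain ⟨h1, h2, h3, h4⟩ := hSEQ.2 (M.ht C) (M.hi C) i hCi.2
  refine ⟨h1, h2, h3, ?_⟩
  have hur : M.ur C i = if UU (M.ht C) (M.hi C) i = M.hi C then C else
      M.bel C (UU (M.ht C) (M.hi C) i) := rfl
  generalize UU (M.ht C) (M.hi C) i = U at *
  by_cases hU : U = M.hi C
  · left
    exact ⟨hU, by rw [hur, if_pos hU]⟩
  · right
    rw [if_neg hU] at hur
    have hlt : U < M.hi C := lt_of_le_of_ne h2 hU
    have h5 := h4 hlt
    have h6 := h3 (U - 1) (by omega) (by omega)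
    have hCU : M.Cov C U := ⟨hCi.1.trans h1.le, hlt⟩
    have hb := hBEL ι E M hM C U hC hCU
    obtain ⟨l1, l2, l3, l4⟩ := hLIN ι E M hM
    have hlo := hCi.1
    obtain ⟨f, hf1, hf2, hf3⟩ := l1 C U hC (by omega) hlt (by omega)
    have hasc : M.asc f := by
      unfold RM.asc
      rw [hf3, hf1]
      omega
    have hl := l3 f hf2 hasc
    rw [hf3, hf1] at hl
    refine ⟨hlt, h5, hur, by rw [hur]; exact hb.2.2.1, by rw [hur]; exact hl.1, f, hf1, hf2,
      hasc, ?_, hf3⟩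
    unfold RM.ta
    rw [if_pos hasc, hf3, hf1, hur]

end URFM

theorem specURF (hSEQ : SpecSEQ) (hLIN : SpecLIN) (hBEL : SpecBEL) : SpecURF := by
  intro ι E _ _ M hM C i hC hCi
  obtain ⟨-, -, -, h⟩ := URFM.ur_cases hSEQ hLIN hBEL hM C i hC hCi
  rcases h with ⟨-, h1⟩ | ⟨-, -, -, h2, -, f, -, hf1, hf2, hf3, hf4⟩
  · refine ⟨fun h => ?_, fun _ => h1⟩
    rw [h1] at h
    exact absurd h hC
  · exact ⟨fun _ => ⟨f, hf1, hf2, hf3, hf4⟩, fun h => absurd h2 h⟩

end Pool.Agent.Lib.MP06c549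
end

section
/-! # Module UPC -/
namespace Pool.Agent.Lib.MP06c549

open Finset

namespace UPCM

theorem two_eq_zero (x : ZMod 2) : x + x = 0 := CharTwo.add_self_eq_zero x

/-- telescoping -/
theorem tele (q : ℤ → ZMod 2) (i : ℤ) : ∀ n : ℕ,
    ∑ s ∈ Ioo i (i + 1 + n), (q s + q (s - 1)) = q (i + n) + q i := by
  intro n
  induction n with
  | zero =>
    have h : Ioo i (i + 1 + ((0 : ℕ) : ℤ)) = ∅ := by
      ext x
      simp only [mem_Ioo, Nat.cast_zero, add_zero, notMem_empty, iff_false]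
      omega
    rw [h, sum_empty, Nat.cast_zero, add_zero, two_eq_zero]
  | succ n ih =>
    have h : Ioo i (i + 1 + ((n + 1 : ℕ) : ℤ)) = insert (i + 1 + (n : ℤ)) (Ioo i (i + 1 + (n : ℤ))) := by
      ext x
      simp only [mem_Ioo, mem_insert, Nat.cast_add, Nat.cast_one]
      omega
    rw [h, sum_insert (by simp), ih]
    have e1 : i + 1 + (n : ℤ) - 1 = i + n := by ring
    have e2 : i + ((n + 1 : ℕ) : ℤ) = i + 1 + n := by push_cast; ring
    rw [e1, e2]
    have := two_eq_zero (q (i + n))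
    linear_combination this

variable {ι E : Type} [Fintype E] [DecidableEq E]

/-- `Q` is constant on the cells of a column between two heights -/
theorem down {Q : ℤ → ℤ → ZMod 2} {M : RM ι E}
    (hv : ∀ a b, (∀ e, M.Y e = b → ¬ M.Cov e a) → Q a b = Q a (b - 1)) (a y : ℤ) :
    ∀ n : ℕ, (∀ e, M.Cov e a → y < M.Y e → y + n < M.Y e) → Q a (y + n) = Q a y := by
  intro n
  induction n with
  | zero => intro _; simp
  | succ n ih =>
    intro h
    have h1 := ih (fun e h1 h2 => by have := h e h1 h2; push_cast at this; omega)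
    rw [← h1]
    have h2 := hv a (y + (n + 1 : ℕ)) (by
      intro e he hc
      have := h e hc (by push_cast at he; omega)
      omega)
    rw [h2]
    congr 1
    push_cast
    ring

end UPCM

open UPCM in
theorem specUPC (hRJ : SpecRJ) (hROW : SpecROW) (hHH : SpecHH) (hSEQ : SpecSEQ) (hLIN : SpecLIN)
    (hBEL : SpecBEL) : SpecUPC := by
  intro ι E _ _ M hM wt wb Q hQ C i hC hCi hw
  classical
  obtain ⟨h1, h2, h3, hcase⟩ := URFM.ur_cases hSEQ hLIN hBEL hM C i hC hCi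
  obtain ⟨U, hU⟩ : ∃ U, U = UU (M.ht C) (M.hi C) i := ⟨_, rfl⟩
  rw [← hU] at h1 h2 h3 hcase
  obtain ⟨l1, l2, l3, l4⟩ := hLIN ι E M hM
  -- the weights of the lines
  obtain ⟨w', hw'⟩ : ∃ w' : ℤ → ZMod 2, w' = fun t =>
      if h : ∃ f, M.X f = t ∧ M.RT f ∧ M.ot f = C then wt h.choose else 0 := ⟨_, rfl⟩
  have hw1 : ∀ f, M.RT f → M.ot f = C → w' (M.X f) = wt f := by
    intro f hf1 hf2
    have h : ∃ g, M.X g = M.X f ∧ M.RT g ∧ M.ot g = C := ⟨f, rfl, hf1, hf2⟩
    rw [hw']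
    simp only
    rw [dif_pos h]
    congr 1
    exact hM.X_inj h.choose_spec.1
  have hw2 : ∀ t, (∀ f, M.X f = t → M.RT f → M.ot f ≠ C) → w' t = 0 := by
    intro t ht
    rw [hw']
    simp only
    rw [dif_neg]
    rintro ⟨f, hf1, hf2, hf3⟩
    exact ht f hf1 hf2 hf3
  have hrj := hRJ ι E M hM wt wb Q hQ w' C hC hw1 hw2
  have hlo := hCi.1
  have hrow := hROW (M.ht C) (M.lo C) (M.hi C) w'
    (fun i k j a1 a2 a3 a4 a5 => hHH ι E M hM C i k j hC a1 a2 a3 a4 a5) i U hCi.1 h1 h2 h3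
    (by
      intro hlt
      rcases hcase with ⟨hc, -⟩ | ⟨-, hc, -⟩
      · omega
      · exact hc)
    (by
      intro t ht1 ht2 ht3 ht4
      obtain ⟨f, hf1, hf2, hf3⟩ := l1 C t hC (by omega) (by omega) (by omega)
      rw [← hf1, hw1 f hf2 hf3]
      have hnasc : ¬ M.asc f := by
        unfold RM.asc
        rw [hf3, hf1]
        omega
      apply hw f hf2 hnasc
      unfold RM.ta
      rw [if_neg hnasc, hf3, hf1]
      unfold RM.ur
      rw [ht4, ← hU])
  have hsum : ∑ s ∈ Ioo i U, (Q s (M.Y C - 1) + Q (s - 1) (M.Y C - 1)) = 0 := by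
    rw [← hrow]
    apply sum_congr rfl
    intro s hs
    rw [mem_Ioo] at hs
    exact hrj s (by omega) (by omega)
  obtain ⟨n, hn⟩ := Int.eq_ofNat_of_zero_le (show 0 ≤ U - (i + 1) by omega)
  have hUn : U = i + 1 + (n : ℤ) := by omega
  have htele := tele (fun s => Q s (M.Y C - 1)) i n
  rw [← hUn, hsum] at htele
  have hq : Q i (M.Y C - 1) = Q (U - 1) (M.Y C - 1) := by
    have e1 : U - 1 = i + (n : ℤ) := by omega
    rw [e1]
    have h6 := two_eq_zero (Q i (M.Y C - 1))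
    linear_combination htele + h6
  rw [hq]
  rcases hcase with ⟨hc1, hc2⟩ | ⟨hc1, hc2, hc3, hc4, hc5, -⟩
  · rw [hc2, if_neg hC]
    unfold RM.ax
    rw [if_neg hC, hc1]
  · rw [if_pos hc4]
    have hax : M.ax (M.ur C i) = U := by
      unfold RM.ax
      rw [if_pos hc4, hc5]
    rw [hax]
    have hb := hBEL ι E M hM C U hC ⟨by omega, hc1⟩
    have hb' := hBEL ι E M hM C (U - 1) hC ⟨by omega, by omega⟩
    rw [← hc3] at hb
    have hYe : M.Y (M.ur C i) = M.ht C U := by rw [hc3]; rfl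
    have h6 := h3 (U - 1) (by omega) (by omega)
    have hlt : M.Y (M.bel C (U - 1)) < M.Y (M.ur C i) := by
      have : M.Y (M.bel C (U - 1)) = M.ht C (U - 1) := rfl
      omega
    have hlt2 := hb.2.1
    obtain ⟨k, hk⟩ := Int.eq_ofNat_of_zero_le (show 0 ≤ M.Y C - 1 - M.Y (M.ur C i) by omega)
    have h7 := down hQ.vert (U - 1) (M.Y (M.ur C i)) k (by
      intro e he1 he2
      by_contra hcon
      have := hb'.2.2.2.1 e he1 (by omega)
      omega)
    rw [show M.Y (M.ur C i) + (k : ℤ) = M.Y C - 1 by omega] at h7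
    exact h7

end Pool.Agent.Lib.MP06c549
end

section
/-!
# VIS: visibility
-/
set_option autoImplicit false

namespace Pool.Agent.Lib.MP06c549

open Finset

namespace VISM

theorem le_of_lt {E : Type} {x : E → ℝ} {X : E → ℤ} (h : RD.Ranks x X) {e f : E}
    (hef : X e < X f) : x e ≤ x f := by
  by_contra hc
  push Not at hc
  exact absurd (h.2 f e hc) (not_lt.2 hef.le)

theorem le_of_le {E : Type} {x : E → ℝ} {X : E → ℤ} (h : RD.Ranks x X) {e f : E}
    (hef : X e ≤ X f) : x e ≤ x f := by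
  rcases lt_or_eq_of_le hef with h1 | h1
  · exact le_of_lt h h1
  · rw [h.1 h1]

/-- the column of a point of the segment -/
theorem col {E : Type} [Fintype E] {x : E → ℝ} {X : E → ℤ} (h : RD.Ranks x X) (a : ℤ) (f : E)
    {q z α β : ℝ} (hq1 : ∀ e, X e ≤ a → x e ≤ q) (hq2 : ∀ e, a < X e → q ≤ x e) (hα : 0 ≤ α)
    (hβ : 0 ≤ β) (hαβ : α + β = 1) (hz : α * x f + β * q = z) :
    ∃ a' : ℤ, min a (X f) ≤ a' ∧ a' < max (a + 1) (X f) ∧ (∀ e, X e ≤ a' → x e ≤ z) ∧
      ∀ e, a' < X e → z ≤ x e := by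
  classical
  have hα1 : α = 1 - β := by linarith
  have hβ1 : β ≤ 1 := by linarith
  rcases le_or_gt (X f) a with hf | hf
  · have h1 := hq1 f hf
    have hz1 : x f ≤ z := by
      rw [← hz, hα1]
      nlinarith
    have hz2 : z ≤ q := by
      rw [← hz, hα1]
      nlinarith
    let A : Finset E := univ.filter fun g => X g ≤ a ∧ x g ≤ z
    have hA : A.Nonempty := ⟨f, by simp [A, hf, hz1]⟩
    obtain ⟨g, hg, hmax⟩ := exists_max_image A X hA
    have hg' : X g ≤ a ∧ x g ≤ z := by simpa [A] using hg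
    refine ⟨X g, ?_, ?_, ?_, ?_⟩
    · exact (min_le_right _ _).trans (hmax f (by simp [A, hf, hz1]))
    · exact lt_max_of_lt_left (by omega)
    · intro e he
      exact (le_of_le h he).trans hg'.2
    · intro e he
      rcases le_or_gt (X e) a with h2 | h2
      · by_contra hc
        push Not at hc
        have h3 : e ∈ A := by simp [A, h2, hc.le]
        exact absurd (hmax e h3) (not_le.2 he)
      · exact hz2.trans (hq2 e h2)
  · have h1 := hq2 f hf
    have hz1 : z ≤ x f := by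
      rw [← hz, hα1]
      nlinarith
    have hz2 : q ≤ z := by
      rw [← hz, hα1]
      nlinarith
    let A : Finset E := univ.filter fun g => a < X g ∧ X g < X f ∧ x g ≤ z
    rcases A.eq_empty_or_nonempty with hA | hA
    · refine ⟨a, min_le_left _ _, lt_max_of_lt_left (by omega), ?_, ?_⟩
      · intro e he
        exact (hq1 e he).trans hz2
      · intro e he
        rcases lt_or_ge (X e) (X f) with h2 | h2
        · by_contra hc
          push Not at hc
          have h3 : e ∈ A := by simp [A, he, h2, hc.le]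
          rw [hA] at h3
          exact absurd h3 (notMem_empty _)
        · exact hz1.trans (le_of_le h h2)
    · obtain ⟨g, hg, hmax⟩ := exists_max_image A X hA
      have hg' : a < X g ∧ X g < X f ∧ x g ≤ z := by simpa [A] using hg
      refine ⟨X g, (min_le_left _ _).trans hg'.1.le, lt_max_of_lt_right hg'.2.1, ?_, ?_⟩
      · intro e he
        exact (le_of_le h he).trans hg'.2.2
      · intro e he
        rcases lt_or_ge (X e) (X f) with h2 | h2
        · by_contra hc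
          push Not at hc
          have h3 : e ∈ A := by simp [A, hg'.1.trans he, h2, hc.le]
          exact absurd (hmax e h3) (not_le.2 he)
        · exact hz1.trans (le_of_le h h2)

end VISM

open VISM in
theorem specVIS : SpecVIS := by
  intro ι E _ _ _ D X Y hX hY a b e f hS q hq z hz
  obtain ⟨hq1, hq2, hq3, hq4⟩ := hq
  obtain ⟨α, β, hα, hβ, hαβ, rfl⟩ := hz
  obtain ⟨a', ha1, ha2, ha3, ha4⟩ := col hX a f hq1 hq2 hα hβ hαβ rfl
  obtain ⟨b', hb1, hb2, hb3, hb4⟩ := col hY b e hq3 hq4 hα hβ hαβ rfl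
  exact ⟨a', b', hS a' b' ha1 ha2 hb1 hb2, ha3, ha4, hb3, hb4⟩

end Pool.Agent.Lib.MP06c549
end
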