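import Pool.Agent.Lib.MP_06c549_co.LOC
import Pool.Agent.Lib.MP_06c549_co.VIS
import Pool.Agent.Lib.MP_06c549_co.ROW
import Pool.Agent.Lib.MP_06c549_co.EXA
import Pool.Agent.Lib.MP_06c549_co.REP

section
/-! # Module ROT -/
namespace Pool.Agent.Lib.MP06c549

open Finset

namespace ROTM

variable {ι E : Type} [Fintype E] [DecidableEq E]

theorem rot_rot (M : RM ι E) : M.rot.rot = M := by
  cases M
  simp [RM.rot]

theorem lo_rot (M : RM ι E) (e : E) : M.rot.lo e = - M.hi e := by
  show min (- M.X e) (- M.X (M.s e)) = - max (M.X e) (M.X (M.s e))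
  omega

theorem hi_rot (M : RM ι E) (e : E) : M.rot.hi e = - M.lo e := by
  show max (- M.X e) (- M.X (M.s e)) = - min (M.X e) (M.X (M.s e))
  omega

theorem bo_rot (M : RM ι E) (e : E) : M.rot.bo e = - M.tp e := by
  show min (- M.Y (M.s.symm e)) (- M.Y e) = - max (M.Y (M.s.symm e)) (M.Y e)
  omega

theorem tp_rot (M : RM ι E) (e : E) : M.rot.tp e = - M.bo e := by
  show max (- M.Y (M.s.symm e)) (- M.Y e) = - min (M.Y (M.s.symm e)) (M.Y e)
  omega

theorem cov_rot (M : RM ι E) (e : E) (a : ℤ) : M.rot.Cov e a ↔ M.Cov e (-1 - a) := by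
  unfold RM.Cov
  rw [lo_rot, hi_rot]
  omega

theorem good_rot {M : RM ι E} (hM : M.Good) : M.rot.Good where
  X_inj := fun a b h => hM.X_inj (neg_injective h)
  Y_inj := fun a b h => hM.Y_inj (neg_injective h)
  s_ne := hM.s_ne
  nc := by
    intro e f
    rw [lo_rot, hi_rot, bo_rot, tp_rot]
    have h := hM.nc e f
    intro h'
    obtain ⟨h1, h2, h3, h4⟩ := h'
    have h1' : - M.hi e < - M.X f := h1
    have h2' : - M.X f < - M.lo e := h2
    have h3' : - M.tp f < - M.Y e := h3
    have h4' : - M.Y e < - M.bo f := h4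
    exact h ⟨by omega, by omega, by omega, by omega⟩
  comp_s := hM.comp_s
  comp_conn := hM.comp_conn

/-- the number of edges below plus the number of edges above -/
theorem cnt_rot (M : RM ι E) (K : Finset E) (a b : ℤ) :
    M.rot.cnt K a b + M.cnt K (-1 - a) (-1 - b) = (K.filter fun e => M.Cov e (-1 - a)).card := by
  unfold RM.cnt
  have h1 : (K.filter fun e => M.rot.Cov e a ∧ b < M.rot.Y e) =
      (K.filter fun e => M.Cov e (-1 - a)).filter (fun e => ¬ (-1 - b < M.Y e)) := by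
    ext e
    simp only [mem_filter]
    rw [cov_rot]
    have : M.rot.Y e = - M.Y e := rfl
    rw [this]
    constructor
    · rintro ⟨h1, h2, h3⟩
      exact ⟨⟨h1, h2⟩, by omega⟩
    · rintro ⟨⟨h1, h2⟩, h3⟩
      exact ⟨h1, h2, by omega⟩
  have h2 : (K.filter fun e => M.Cov e (-1 - a) ∧ -1 - b < M.Y e) =
      (K.filter fun e => M.Cov e (-1 - a)).filter (fun e => -1 - b < M.Y e) := by
    rw [filter_filter]
  rw [h1, h2, add_comm]
  exact card_filter_add_card_filter_not _

/-- all the edges are above a low row -/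
theorem cnt_low (M : RM ι E) (K : Finset E) (a b : ℤ) (h : ∀ e ∈ K, b < M.Y e) :
    M.cnt K a b = (K.filter fun e => M.Cov e a).card := by
  unfold RM.cnt
  congr 1
  apply filter_congr
  intro e he
  exact ⟨fun h' => h'.1, fun h' => ⟨h', h e he⟩⟩

theorem exists_low (M : RM ι E) : ∃ b, ∀ e, b < M.Y e := by
  rcases isEmpty_or_nonempty E with hE | hE
  · exact ⟨0, fun e => (hE.false e).elim⟩
  · obtain ⟨e₀, -, h⟩ := exists_min_image (univ : Finset E) M.Y univ_nonempty
    exact ⟨M.Y e₀ - 1, fun e => by have := h e (mem_univ e); omega⟩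

end ROTM

open ROTM in
theorem specROT (hSX : SpecSX) (hFLC : SpecFLC) : SpecROT := by
  intro ι E _ _ M hM
  obtain ⟨s1, s2, s3, s4, s5, s6⟩ := hSX ι E M hM
  have hS : ∀ a b, M.rot.S a b ↔ M.S (-1 - a) (-1 - b) := by
    intro a b
    have h1 := cnt_rot M univ a b
    obtain ⟨b₀, hb₀⟩ := exists_low M
    have h2 := s5 (-1 - a) b₀ hb₀
    unfold RM.S at h2 ⊢
    rw [cnt_low M univ (-1 - a) b₀ (fun e _ => hb₀ e), ← h1, Nat.not_odd_iff_even,
      Nat.even_add] at h2
    rw [← Nat.not_even_iff_odd, ← Nat.not_even_iff_odd, h2]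
  have hF : ∀ e, M.rot.Fl e ↔ ¬ M.Fl e := by
    intro e
    have h1 := FLCM.lo_lt_hi hM e
    have h2 := (hFLC ι E M hM e (M.hi e - 1) ⟨by omega, by omega⟩).2
    rw [← h2]
    unfold RM.Fl
    rw [hS, lo_rot]
    have h3 : M.rot.Y e = - M.Y e := rfl
    rw [h3, show -1 - -M.hi e = M.hi e - 1 by ring, show -1 - -M.Y e = M.Y e - 1 by ring]
  refine ⟨good_rot hM, rot_rot M, fun e => ⟨lo_rot M e, hi_rot M e, bo_rot M e, tp_rot M e⟩,
    cov_rot M, hS, hF, ?_, ?_⟩
  · intro e
    unfold RM.ax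
    by_cases h : M.Fl e
    · rw [if_neg (fun h' => (hF e).1 h' h), if_pos h, hi_rot]
    · rw [if_pos ((hF e).2 h), if_neg h, lo_rot]
  · intro e
    unfold RM.bx
    by_cases h : M.Fl e
    · rw [if_neg (fun h' => (hF e).1 h' h), if_pos h, lo_rot]
    · rw [if_pos ((hF e).2 h), if_neg h, hi_rot]

end Pool.Agent.Lib.MP06c549
end

section
/-! # Module RHO -/
namespace Pool.Agent.Lib.MP06c549

open Finset

theorem specRHO (hCR : SpecCR) (hROT : SpecROT) : SpecRHO := by
  intro ι E _ _ _ M hM hH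
  obtain ⟨-, -, -, -, hS, -, -, -⟩ := hROT ι E M hM
  refine ⟨hH.surj, ?_⟩
  intro i hi a b hodd
  rw [hS]
  apply hH.hole i hi
  have hK : ∀ e, M.s e ∈ (univ.filter fun e => M.comp e = i) ↔
      e ∈ (univ.filter fun e => M.comp e = i) := by
    intro e
    simp only [mem_filter, mem_univ, true_and]
    rw [hM.comp_s]
  obtain ⟨-, -, -, -, h5⟩ := hCR ι E M hM.X_inj hM.Y_inj hM.s_ne _ hK
  obtain ⟨b₀, hb₀⟩ := ROTM.exists_low M
  have h2 := h5 (-1 - a) b₀ (fun e _ => hb₀ e)
  rw [ROTM.cnt_low M _ (-1 - a) b₀ (fun e _ => hb₀ e),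
    ← ROTM.cnt_rot M _ a b, Nat.even_add] at h2
  have hodd' : Odd (M.rot.cnt (univ.filter fun e => M.comp e = i) a b) := hodd
  rw [← Nat.not_even_iff_odd, h2, Nat.not_even_iff_odd] at hodd'
  exact hodd'

end Pool.Agent.Lib.MP06c549
end

section
/-!
# MP_06c549_co: assembly
-/
namespace Pool.Agent.Lib.MP06c549

open Finset

/-- The theorem for polygons from the theorem for real data. -/
theorem main_of (hRDT : SpecRDT) (hPD : SpecPD) : MainStatement := by
  intro P hP
  classical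
  have hs := PDM.simple P hP
  have : ∀ i, NeZero (P.cu i).k := fun i => ⟨by have := (hs i).two_le; omega⟩
  obtain ⟨hOK, hreg, hn, hv⟩ := hPD P hP
  obtain ⟨G, hG, hGv, hGs⟩ := hRDT _ _ P.rd hOK
  refine ⟨G, ?_, ?_, ?_⟩
  · intro g hg
    obtain ⟨e, he | he⟩ := hGv g hg
    · rw [he]; exact (hv e).1
    · rw [he]; exact (hv e).2
  · rw [Nat.le_div_iff_mul_le (by norm_num), hn]
    omega
  · intro p hp
    rw [← hreg] at hp ⊢
    exact hGs p hp

theorem main : MainStatement := by
  have hCR := specCR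
  have hSX := specSX hCR
  have hFLC := specFLC hSX
  have hROT := specROT hSX hFLC
  have hBEL := specBEL hSX hFLC
  have hCEL := specCEL hSX hFLC hBEL
  have hHH := specHH hBEL
  have hLIN := specLIN hSX hFLC hBEL
  have hOTM := specOTM
  have hSEQ := specSEQ
  have hROW := specROW hSEQ
  have hTGA := specTGA hLIN hSEQ hBEL
  have hTGD := specTGD hLIN hSEQ hBEL
  have hBAL := specBAL hLIN hTGA hTGD
  have hQRT := specQRT hROT
  have hRJ := specRJ hLIN hOTM hSEQ hROT
  have hURF := specURF hSEQ hLIN hBEL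
  have hCOV := specCOV hSEQ hLIN hBEL
  have hCVR := specCVR hCOV hROT hBEL
  have hRHO := specRHO hCR hROT
  have hREP := specREP hCR
  have hLOC := specLOC hCR
  have hREG := specREG
  have hHO := specHO hREP hREG
  have hBIN := specBIN hLOC hREG
  have hEXA := specEXA specPOT
  have hUPC := specUPC hRJ hROW hHH hSEQ hLIN hBEL
  have hOWN := specOWN hLIN hTGA hTGD
  have hCOL := specCOL hUPC hOWN hURF hQRT hROT hBEL
  have hEXT := specEXT hSX hLIN
  have hEXU := specEXU hSX hLIN
  have hINC := specINC hEXT hEXU hRHO hROT hTGA hTGD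
  have hTJ := specTJ specSEB specCON
  have hJN := specJN hTJ hINC
  have hRNK := specRNK hJN hBAL hEXA hLIN hROT hCOL hCOV hCVR hCEL
  have hGD := specGD
  have hCVB := specCVB specCAN hSX hGD hREG
  have hRDT := specRDT hRNK specRKX hGD hHO hBIN hCVB specVIS
  exact main_of hRDT specPD

end Pool.Agent.Lib.MP06c549
end
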