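import Mathlib

/-!
# MP_06c549_co: rectilinear polygons with holes, vertex guards

The definitions used by the statement of the hand-in.
-/

namespace Pool.Agent.Lib.MP06c549

open Finset

/-- The data of a closed rectilinear curve with `k` horizontal and `k` vertical edges. Its vertices,
in cyclic order, are `(x 0, y 0), (x 1, y 0), (x 1, y 1), (x 2, y 1), (x 2, y 2), ...`. -/
structure Curve where
  k : ℕ
  x : ZMod k → ℝ
  y : ZMod k → ℝ

namespace Curve

/-- The horizontal edge `t`, from the vertex `(x t, y t)` to the vertex `(x (t+1), y t)`. -/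
def hEdge (c : Curve) (t : ZMod c.k) : Set (ℝ × ℝ) :=
  {p | p.2 = c.y t ∧ p.1 ∈ Set.uIcc (c.x t) (c.x (t + 1))}

/-- The vertical edge `t`, from the vertex `(x t, y (t-1))` to the vertex `(x t, y t)`. -/
def vEdge (c : Curve) (t : ZMod c.k) : Set (ℝ × ℝ) :=
  {p | p.1 = c.x t ∧ p.2 ∈ Set.uIcc (c.y (t - 1)) (c.y t)}

/-- The set of points of the curve. -/
def carrier (c : Curve) : Set (ℝ × ℝ) := (⋃ t, c.hEdge t) ∪ ⋃ t, c.vEdge t

/-- The set of vertices of the curve. -/
def vertices (c : Curve) : Set (ℝ × ℝ) :=
  {p | ∃ t, p = (c.x t, c.y t) ∨ p = (c.x (t + 1), c.y t)}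

/-- The curve is a simple polygon all whose edges are parallel to the axes: the edges have positive
length, two horizontal edges are disjoint, two vertical edges are disjoint, and a horizontal and a
vertical edge meet only if they are consecutive. The polygon has exactly `2k` vertices. -/
structure IsSimple (c : Curve) : Prop where
  two_le : 2 ≤ c.k
  hne : ∀ t, c.x t ≠ c.x (t + 1)
  vne : ∀ t, c.y (t - 1) ≠ c.y t
  hh : ∀ s t, s ≠ t → Disjoint (c.hEdge s) (c.hEdge t)
  vv : ∀ s t, s ≠ t → Disjoint (c.vEdge s) (c.vEdge t)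
  hv : ∀ s t, (c.hEdge s ∩ c.vEdge t).Nonempty → t = s ∨ t = s + 1

/-- The points enclosed by the curve (not on it): the vertical ray going up crosses the curve an
odd number of times. -/
def inside (c : Curve) : Set (ℝ × ℝ) :=
  {p | p ∉ c.carrier ∧
    Odd {t : ZMod c.k | p.2 < c.y t ∧ min (c.x t) (c.x (t + 1)) ≤ p.1 ∧
      p.1 < max (c.x t) (c.x (t + 1))}.ncard}

/-- The closed region bounded by the curve. -/
def region (c : Curve) : Set (ℝ × ℝ) := c.carrier ∪ c.inside

end Curve

/-- The data of a rectilinear polygon with `h` holes. -/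
structure HPoly where
  outer : Curve
  h : ℕ
  hole : Fin h → Curve

namespace HPoly

/-- The outer boundary and the holes are simple, the holes lie in the interior of the outer
boundary and are pairwise disjoint. -/
structure IsPoly (P : HPoly) : Prop where
  outer_simple : P.outer.IsSimple
  hole_simple : ∀ i, (P.hole i).IsSimple
  hole_in : ∀ i, (P.hole i).region ⊆ P.outer.inside
  hole_disj : ∀ i j, i ≠ j → Disjoint (P.hole i).region (P.hole j).region

/-- The polygon as a closed region: the interiors of the holes are removed. -/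
def region (P : HPoly) : Set (ℝ × ℝ) := P.outer.region \ ⋃ i, (P.hole i).inside

/-- The vertices of the polygon (of the outer boundary and of the holes). -/
def vertices (P : HPoly) : Set (ℝ × ℝ) := P.outer.vertices ∪ ⋃ i, (P.hole i).vertices

/-- The number of vertices. -/
def n (P : HPoly) : ℕ := 2 * P.outer.k + ∑ i, 2 * (P.hole i).k

/-- Every point of the polygon is seen by a point of `G`. -/
def Guards (P : HPoly) (G : Finset (ℝ × ℝ)) : Prop :=
  ∀ p ∈ P.region, ∃ g ∈ G, segment ℝ g p ⊆ P.region

end HPoly

/-- The main theorem of this hand-in. -/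
def MainStatement : Prop :=
  ∀ P : HPoly, P.IsPoly → ∃ G : Finset (ℝ × ℝ), (G : Set (ℝ × ℝ)) ⊆ P.vertices ∧
    G.card ≤ 5 * P.n / 16 ∧ P.Guards G

end Pool.Agent.Lib.MP06c549
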