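import Pool.Agent.Lib.MP_06c549_co.Defs

/-!
# MP_06c549_co: specifications of the modules (every rectilinear polygon with holes with `n` vertices
is guarded by `⌊5n/16⌋` vertices)

Rank model: `E` indexes horizontal edges and vertical edges (`n = 2 |E|`). Cells `(a, b)` are unit
cells `[a, a+1] × [b, b+1]`; `Cov e a`: the horizontal edge `e` passes above/below column `a`.
All statements were tested numerically on thousands of random polygons.
-/

namespace Pool.Agent.Lib.MP06c549

open Finset

/-! ## A. Crossing lemmas, rotation -/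

/-- CR (120 lines). `K` is a union of components. Proof: `Cov e a` and `Cov e (a-1)` differ iff
exactly one end of `e` is at `a`, i.e. (as `X e ≠ X (s e)`) iff `X e = a ∨ X (s e) = a`, hence
`[Cov e a] + [Cov e (a-1)] = [X e = a] + [X (s e) = a]` in `ZMod 2`. Sum over `e ∈ K` with
`b < Y e`: `cnt K a b + cnt K (a-1) b = Σ_{f ∈ K, X f = a} ([b < Y f] + [b < Y (s⁻¹ f)])` and at most
one `f` has `X f = a`; the bracket is odd iff `bo f ≤ b < tp f`. (1)(2). If `b < Y e` for all `e ∈ K`
the sum is `0`, so the parity does not depend on `a`, and it is `0` for `a` very small. (5).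
(3): the sets for `b = Y e - 1` and `b = Y e` differ exactly by `e`. (4) clear. -/
def SpecCR : Prop := ∀ (ι E : Type) [Fintype E] [DecidableEq E] (M : RM ι E),
  Function.Injective M.X → Function.Injective M.Y → (∀ e, M.s e ≠ e) →
  ∀ K : Finset E, (∀ e, M.s e ∈ K ↔ e ∈ K) →
  (∀ f b, (Odd (M.cnt K (M.X f) b) ↔ Odd (M.cnt K (M.X f - 1) b)) ↔
    ¬ (f ∈ K ∧ M.bo f ≤ b ∧ b < M.tp f)) ∧
  (∀ a b, (∀ f ∈ K, M.X f ≠ a) → (Odd (M.cnt K a b) ↔ Odd (M.cnt K (a - 1) b))) ∧
  (∀ e ∈ K, ∀ a, M.Cov e a → (Odd (M.cnt K a (M.Y e)) ↔ ¬ Odd (M.cnt K a (M.Y e - 1)))) ∧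
  (∀ a b, (∀ e ∈ K, M.Y e = b → ¬ M.Cov e a) → M.cnt K a b = M.cnt K a (b - 1)) ∧
  (∀ a b, (∀ e ∈ K, b < M.Y e) → Even (M.cnt K a b))

/-- SX (40 lines, from CR with `K = univ`): the crossing rules for `S`. -/
def SpecSX : Prop := ∀ (ι E : Type) [Fintype E] [DecidableEq E] (M : RM ι E), M.Good →
  (∀ f b, (M.S (M.X f) b ↔ M.S (M.X f - 1) b) ↔ ¬ (M.bo f ≤ b ∧ b < M.tp f)) ∧
  (∀ a b, (∀ f, M.X f ≠ a) → (M.S a b ↔ M.S (a - 1) b)) ∧
  (∀ e a, M.Cov e a → (M.S a (M.Y e) ↔ ¬ M.S a (M.Y e - 1))) ∧
  (∀ a b, (∀ e, M.Y e = b → ¬ M.Cov e a) → (M.S a b ↔ M.S a (b - 1))) ∧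
  (∀ a b, (∀ e, b < M.Y e) → ¬ M.S a b) ∧
  (∀ a b, (∀ e, M.Y e ≤ b) → ¬ M.S a b)

/-- FLC (60 lines, from SX). Along an edge `e` the cells just above have constant status: for
`lo e < a < hi e`, the edge `f` with `X f = a` (if any) does not span the row `Y e` by `nc` (and
`Y e ≠ Y f`, `Y e ≠ Y (s⁻¹ f)`: otherwise `f = e` or `f = s e` and `X f` is an end of `e`). -/
def SpecFLC : Prop := ∀ (ι E : Type) [Fintype E] [DecidableEq E] (M : RM ι E), M.Good →
  ∀ e a, M.Cov e a → (M.S a (M.Y e) ↔ M.Fl e) ∧ (M.S a (M.Y e - 1) ↔ ¬ M.Fl e)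

/-- ROT (120 lines, from SX, FLC). Rotation by 180 degrees. `M.rot.lo e = - M.hi e` etc. The number of
edges covering the column is even (SX, last two clauses / CR (5)), so the parity of the number of
edges above a cell equals the parity of the number of edges below it. -/
def SpecROT : Prop := ∀ (ι E : Type) [Fintype E] [DecidableEq E] (M : RM ι E), M.Good →
  M.rot.Good ∧ M.rot.rot = M ∧
  (∀ e, M.rot.lo e = - M.hi e ∧ M.rot.hi e = - M.lo e ∧ M.rot.bo e = - M.tp e ∧
    M.rot.tp e = - M.bo e) ∧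
  (∀ e a, M.rot.Cov e a ↔ M.Cov e (-1 - a)) ∧
  (∀ a b, M.rot.S a b ↔ M.S (-1 - a) (-1 - b)) ∧
  (∀ e, M.rot.Fl e ↔ ¬ M.Fl e) ∧
  (∀ e, M.rot.ax e = - M.ax e) ∧ (∀ e, M.rot.bx e = - M.bx e)

/-! ## B. Rows: the columns under a ceiling -/

/-- BEL (100 lines, from SX, FLC). Under a ceiling `C` in a covered column `a` there is a highest edge
`bel C a` below `C`; it is a floor and the cells between are in the polygon: the cell
`(a, Y C - 1)` is in `S`; going down, `S` changes only at edges covering `a`; if no edge below `C`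
covered `a`, all cells below would be in `S`, contradicting SX (5). The last clause: the lowest edge
above the floor `bel C a` in the column `a` is `C` (in rotated form). -/
def SpecBEL : Prop := ∀ (ι E : Type) [Fintype E] [DecidableEq E] (M : RM ι E), M.Good →
  ∀ C a, ¬ M.Fl C → M.Cov C a →
  M.Cov (M.bel C a) a ∧ M.Y (M.bel C a) < M.Y C ∧ M.Fl (M.bel C a) ∧
  (∀ e, M.Cov e a → M.Y e < M.Y C → M.Y e ≤ M.Y (M.bel C a)) ∧
  (∀ b, M.Y (M.bel C a) ≤ b → b < M.Y C → M.S a b) ∧
  M.rot.bel (M.bel C a) (-1 - a) = C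

/-- CEL (60 lines, from SX, FLC, BEL). Every cell of the polygon lies in a run: below a ceiling `C`
with `ht C a ≤ b`. (`C` = the lowest edge above the cell covering the column; it exists by SX (6); it
is a ceiling as the cells up to it are in `S`; `bel C a` is not above `b` because the edges strictly
between `b` and `Y C` do not cover `a`.) -/
def SpecCEL : Prop := ∀ (ι E : Type) [Fintype E] [DecidableEq E] (M : RM ι E), M.Good →
  ∀ a b, M.S a b → ∃ C, ¬ M.Fl C ∧ M.Cov C a ∧ M.ht C a ≤ b ∧ b < M.Y C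

/-- HH (40 lines, from BEL). Equal floor heights: the same edge (`Y` injective), it covers all the
columns between, and `bel` is the highest. -/
def SpecHH : Prop := ∀ (ι E : Type) [Fintype E] [DecidableEq E] (M : RM ι E), M.Good →
  ∀ C i k j, ¬ M.Fl C → M.lo C ≤ i → i ≤ k → k ≤ j → j < M.hi C → M.ht C i = M.ht C j →
  M.ht C i ≤ M.ht C k

/-- LIN (200 lines, from SX, FLC, BEL): lines in a row.
(1) if the floor changes at the line `t` under `C` then the vertical edge `f` at `t` has its upper end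
there: say `ht (t-1) < ht t` (the other case is symmetric). `F = bel C t` does not cover `t-1`
(otherwise `ht (t-1) ≥ Y F`), so `lo F = t`, `t ∈ {X F, X (s F)}`; let `f ∈ {F, s F}` with `X f = t`.
The cells `(t-1, Y F)` and `(t, Y F)` are in `S`, so by SX `f` does not span the row `Y F`; as `Y F`
is an end of `f`, `tp f = Y F`; `RT f`; and `ot f = C` since no edge strictly between `Y F` and `Y C`
covers `t`.
(2) if `RT f` then `C = ot f` exists (SX (6)), is a ceiling, `lo C < X f < hi C` (an edge at height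
`> tp f` has no end at the line `X f`, as the only horizontal edges with an end there are `f` and
`s⁻¹ f`), and the floor changes: one of `f`, `s⁻¹ f` has height `tp f`, its end is at `X f`, it covers
exactly one of the columns `X f - 1`, `X f`; it is `bel C` of this column (no covering edge strictly
between `tp f` and `Y C`), in the other column the floor is lower (edges at height `tp f` do not
cover it: `Y` injective).
(3), (4): identification of this edge. `comp (s⁻¹ f) = comp f`. -/
def SpecLIN : Prop := ∀ (ι E : Type) [Fintype E] [DecidableEq E] (M : RM ι E), M.Good →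
  (∀ C t, ¬ M.Fl C → M.lo C < t → t < M.hi C → M.ht C (t - 1) ≠ M.ht C t →
    ∃ f, M.X f = t ∧ M.RT f ∧ M.ot f = C) ∧
  (∀ f, M.RT f → ¬ M.Fl (M.ot f) ∧ M.lo (M.ot f) < M.X f ∧ M.X f < M.hi (M.ot f) ∧
    M.tp f < M.Y (M.ot f) ∧ M.ht (M.ot f) (M.X f - 1) ≠ M.ht (M.ot f) (M.X f)) ∧
  (∀ f, M.RT f → M.asc f → M.lo (M.bel (M.ot f) (M.X f)) = M.X f ∧
    M.ht (M.ot f) (M.X f) = M.tp f ∧ M.comp (M.bel (M.ot f) (M.X f)) = M.comp f) ∧
  (∀ f, M.RT f → ¬ M.asc f → M.hi (M.bel (M.ot f) (M.X f - 1)) = M.X f ∧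
    M.ht (M.ot f) (M.X f - 1) = M.tp f ∧ M.comp (M.bel (M.ot f) (M.X f - 1)) = M.comp f)

/-- OTM (40 lines, from SX): `ot f` is the lowest edge above the upper end: if `e` covers the column
`X f` or the column `X f - 1` and `tp f < Y e` then it covers both and `Y (ot f) ≤ Y e`. -/
def SpecOTM : Prop := ∀ (ι E : Type) [Fintype E] [DecidableEq E] (M : RM ι E), M.Good →
  ∀ f e, (M.Cov e (M.X f) ∨ M.Cov e (M.X f - 1)) → M.tp f < M.Y e →
  M.lo e < M.X f ∧ M.X f < M.hi e ∧ M.Y (M.ot f) ≤ M.Y e

/-! ## C. Sequences -/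

/-- SEQ (60 lines): the defining properties of `PP` and `UU` (`Int.csInf_mem`, `csInf_le`, ...). -/
def SpecSEQ : Prop :=
  (∀ (h : ℤ → ℤ) (l i : ℤ), l ≤ i → l ≤ PP h l i ∧ PP h l i ≤ i ∧
    (∀ k, PP h l i ≤ k → k ≤ i → h k ≤ h i) ∧ (l < PP h l i → h i < h (PP h l i - 1))) ∧
  (∀ (h : ℤ → ℤ) (r i : ℤ), i < r → i < UU h r i ∧ UU h r i ≤ r ∧
    (∀ k, i ≤ k → k < UU h r i → h k ≤ h i) ∧ (UU h r i < r → h i < h (UU h r i)))

/-- The jump at the line `s` of a row with floor heights `h` over the columns `l, ..., r-1` when the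
arrow of the line `t` has weight `w t`. -/
noncomputable def rowJ (h : ℤ → ℤ) (l r : ℤ) (w : ℤ → ZMod 2) (s : ℤ) : ZMod 2 :=
  (if h (s - 1) = h s then 0 else w s) +
    ∑ t ∈ (Ioo l r).filter (fun t => (h (t - 1) < h t ∧ PP h l t = s) ∨
      (h t < h (t - 1) ∧ UU h r (t - 1) = s)), w t

/-- ROW (150 lines, from SEQ). Let `U` be the next greater line after the column `i` (or `r`). Exchange
the sums: `Σ_{i < s < U} rowJ s = Σ_t w t ([i < t < U, h (t-1) ≠ h t] + [i < target t < U])` over the
lines `t` with `h (t-1) ≠ h t`. Every term vanishes: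
* `t ∈ (i, U)`, ascent (`h (t-1) < h t`). `h t ≤ h i`, and `h t = h i` is impossible (hypothesis on
  equal heights applied to `i ≤ t-1 ≤ t`, resp. `t - 1 = i`). So `h t < h i` and `i < PP h l t < t`
  (`PP ≤ i` would give `h i ≤ h t`; `PP = t` would give `h t < h (t-1)`; `l < PP` as `l ≤ i`): both
  brackets are `1`.
* `t ∈ (i, U)`, descent: `h (t-1) ≤ h i < h U` (if `U < r`), so `t ≤ UU h r (t-1) ≤ U`; not `UU = t`
  (this would give `h (t-1) < h t`). If `UU = U`, then `w t = 0` by hypothesis. Otherwise both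
  brackets are `1`.
* `t ≤ i`, ascent: the target is `≤ t ≤ i`. `t ≤ i`, descent with target `s ∈ (i, U)`:
  `h s > h (t-1) ≥ h i` (as `t - 1 ≤ i < s`), but `s < U` gives `h s ≤ h i`.
* `t ≥ U`, descent: the target is `> t-1 ≥ U - 1`, so not in `(i, U)`. `t ≥ U`, ascent with target
  `p ∈ (i, U)`, `p > l`: `h t < h (p-1) ≤ h i` (`i ≤ p - 1 < U`) and `U ∈ [p, t]` gives
  `h U ≤ h t < h i`; but `U ≤ t < r`, so `h i < h U`. -/
def SpecROW : Prop := ∀ (h : ℤ → ℤ) (l r : ℤ) (w : ℤ → ZMod 2),
  (∀ i k j, l ≤ i → i ≤ k → k ≤ j → j < r → h i = h j → h i ≤ h k) →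
  ∀ i U, l ≤ i → i < U → U ≤ r → (∀ k, i ≤ k → k < U → h k ≤ h i) → (U < r → h i < h U) →
  (∀ t, i < t → t < U → h t < h (t - 1) → UU h r (t - 1) = U → w t = 0) →
  ∑ s ∈ Ioo i U, rowJ h l r w s = 0

/-! ## D. Arrows -/

/-- TGA (80 lines, from LIN, SEQ, BEL, FLC): the arrow of an ascent `f` (source = A-vertex of `ta f`).
`C = ot f`, `h = ht C`, `t = X f`. `ta f = bel C t` is a floor with left end at `t` and height `tp f`.
`tl f = PP h (lo C) t ≤ t - 1` as `h (t-1) < h t`. If `tl f = lo C`, `tb f = C` (a ceiling: its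
B-vertex is its left end). Otherwise `tb f = bel C (tl f - 1)`, `h (tl f - 1) > h t = tp f` and
`h (tl f) ≤ h t`: the floor drops at the line `tl f`; LIN (1) gives `g`, LIN (4) (its `¬ asc`) gives
that `tb f` is a floor with right end `tl f`. -/
def SpecTGA : Prop := ∀ (ι E : Type) [Fintype E] [DecidableEq E] (M : RM ι E), M.Good →
  ∀ f, M.RT f → M.asc f →
  M.ax (M.ta f) = M.X f ∧ M.Fl (M.ta f) ∧ M.Y (M.ta f) = M.tp f ∧ M.comp (M.ta f) = M.comp f ∧
  M.bx (M.tb f) = M.tl f ∧ M.tl f < M.X f ∧ M.tp f < M.Y (M.tb f) ∧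
  ((M.tl f = M.lo (M.ot f) ∧ M.tb f = M.ot f) ∨
    (M.lo (M.ot f) < M.tl f ∧ ∃ g, M.RT g ∧ M.ot g = M.ot f ∧ M.X g = M.tl f ∧ ¬ M.asc g ∧
      M.tb g = M.tb f ∧ M.comp g = M.comp (M.tb f)))

/-- TGD (80 lines, from LIN, SEQ, BEL, FLC): the arrow of a descent `f` (source = B-vertex of
`tb f`). Mirror image of TGA. -/
def SpecTGD : Prop := ∀ (ι E : Type) [Fintype E] [DecidableEq E] (M : RM ι E), M.Good →
  ∀ f, M.RT f → ¬ M.asc f →
  M.bx (M.tb f) = M.X f ∧ M.Fl (M.tb f) ∧ M.Y (M.tb f) = M.tp f ∧ M.comp (M.tb f) = M.comp f ∧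
  M.ax (M.ta f) = M.tl f ∧ M.X f < M.tl f ∧ M.tp f < M.Y (M.ta f) ∧
  ((M.tl f = M.hi (M.ot f) ∧ M.ta f = M.ot f) ∨
    (M.tl f < M.hi (M.ot f) ∧ ∃ g, M.RT g ∧ M.ot g = M.ot f ∧ M.X g = M.tl f ∧ M.asc g ∧
      M.ta g = M.ta f ∧ M.comp g = M.comp (M.ta f)))

/-- BAL (150 lines, from TGA, TGD). The chord ends of the jump function on the component `i`, for the
arrows with weights `w`: exchange the sums; the arrow `g` contributes at `f = g`:
`[comp g = i] + [comp (ot g) = i]`, and, if its target line is not an end of the row, at the unique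
`f` with `RT f`, `ot f = ot g`, `X f = tl g`: `[comp f = i] + [comp (ot g) = i]`; if the target is the
end of the row then no `f` has `RT f ∧ ot f = ot g ∧ X f = tl g` (LIN (2): `lo < X f < hi`) and the
label of the target is `ot g`. -/
def SpecBAL : Prop := ∀ (ι E : Type) [DecidableEq ι] [Fintype E] [DecidableEq E] (M : RM ι E),
  M.Good →
  ∀ (w : E → ZMod 2) (i : ι),
  ∑ f ∈ univ.filter (fun f => M.comp f = i), M.jt w f +
    ∑ f ∈ univ.filter (fun f => M.comp (M.ot f) = i), M.jt w f =
  ∑ f ∈ univ.filter (fun f => M.RT f), w f *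
    ((if M.comp (M.ta f) = i then 1 else 0) + (if M.comp (M.tb f) = i then 1 else 0))

/-! ## E. Exactness -/

/-- POT (80 lines). A function with sum zero on every cycle is a coboundary: choose a representative
`e₀` of every component (`comp_conn`), put `p ((s^n) e₀) = Σ_{j<n} d ((s^j) e₀)`; well defined because
the sum over the whole cycle is `0` (`n ↦ (s^n) e₀` is periodic with period the length of the cycle,
i.e. `Finset.sum` over `range (orderOf ...)`/`minimalPeriod` is the sum over the component). -/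
def SpecPOT : Prop := ∀ (ι E : Type) [Fintype E] [DecidableEq E] [DecidableEq ι]
  (s : Equiv.Perm E) (comp : E → ι) (d : E → ZMod 2), (∀ e, comp (s e) = comp e) →
  (∀ e f, comp e = comp f → ∃ n : ℕ, (s ^ n) e = f) →
  (∀ i, ∑ e ∈ univ.filter (fun e => comp e = i), d e = 0) →
  ∃ p : E → ZMod 2, ∀ e, p (s e) = p e + d e

/-- EXA (250 lines, from POT). `jt`, `jb` are the prescribed jumps across the upward chord of the upper
end and the downward chord of the lower end of each vertical edge; the chords end on the interiors of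
the horizontal edges `ut f`, `ub f`. If the number of ends is even on every component, there is `Q`.
Proof: `own f e := [Y e = tp f] jt f + [Y e = bo f] jb f`,
`δ t e := Σ_{f, X f = t} ([ut f = e] jt f + [ub f = e] jb f)`, `d e := own e e + own (s e) e +
Σ_{lo e < t < hi e} δ t e`. The sum of `d` over the component `i` is the left side of the balance
hypothesis (for `e` fixed, `own f e + own f (s⁻¹ f)`-terms give `jt f + jb f`). POT gives `p`. Put
`β t e := p e + own e e + Σ_{X e < u ≤ t} δ u e` if `X e < X (s e)` and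
`p e + own e e + Σ_{t < u < X e} δ u e` otherwise (`Cov e t`). Then: (i) for `lo e < t < hi e`:
`β t e + β (t-1) e = δ t e`; (ii) in the column next to the end `X e`: `β = p e + own e e`; next to the
end `X (s e)`: `β = p (s e) + own (s e) e`. `Q a b := Σ_{e, Cov e a, b < Y e} β a e`. (1) is clear.
For the line `t`: `Q t b + Q (t-1) b = Σ_{b < Y e, lo e < t < hi e} δ t e +
Σ_{f, X f = t} Σ_{e ∈ {f, s⁻¹ f}, b < Y e} (p f + own f e)`. If no `f` is at `t` it is `0`. If `f` is
at `t` it equals `[b < Y (ut f)] jt f + [b < Y (ub f)] jb f + [b < tp f] (p f + jt f) +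
[b < bo f] (p f + jb f)`. Cases `b ≥ tp f`, `b < bo f`. -/
def SpecEXA : Prop := ∀ (ι E : Type) [DecidableEq ι] [Fintype E] [DecidableEq E] (M : RM ι E),
  M.Good →
  ∀ (jt jb : E → ZMod 2) (ut ub : E → E),
  (∀ f, jt f ≠ 0 → M.lo (ut f) < M.X f ∧ M.X f < M.hi (ut f) ∧ M.tp f < M.Y (ut f)) →
  (∀ f, jb f ≠ 0 → M.lo (ub f) < M.X f ∧ M.X f < M.hi (ub f) ∧ M.Y (ub f) < M.bo f) →
  (∀ i, ∑ f ∈ univ.filter (fun f => M.comp f = i), (jt f + jb f) +
    ∑ f ∈ univ.filter (fun f => M.comp (ut f) = i), jt f +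
    ∑ f ∈ univ.filter (fun f => M.comp (ub f) = i), jb f = 0) →
  ∃ Q : ℤ → ℤ → ZMod 2,
    (∀ a b, (∀ e, M.Y e = b → ¬ M.Cov e a) → Q a b = Q a (b - 1)) ∧
    (∀ f b, M.tp f ≤ b → Q (M.X f) b + Q (M.X f - 1) b = if b < M.Y (ut f) then jt f else 0) ∧
    (∀ f b, b < M.bo f → Q (M.X f) b + Q (M.X f - 1) b = if M.Y (ub f) ≤ b then jb f else 0) ∧
    (∀ t b, (∀ f, M.X f ≠ t) → Q t b = Q (t - 1) b)

/-! ## F. The colouring -/

/-- The properties of `Q` used for the colouring (the conclusion of EXA for the jump functions of the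
arrow weights `wt` in `M` and `wb` in `M.rot`). -/
structure QGood {ι E : Type} [Fintype E] [DecidableEq E] (M : RM ι E) (wt wb : E → ZMod 2)
    (Q : ℤ → ℤ → ZMod 2) : Prop where
  vert : ∀ a b, (∀ e, M.Y e = b → ¬ M.Cov e a) → Q a b = Q a (b - 1)
  up : ∀ f b, M.tp f ≤ b → Q (M.X f) b + Q (M.X f - 1) b =
    if b < M.Y (M.ot f) then M.jt wt f else 0
  down : ∀ f b, b < M.bo f → Q (M.X f) b + Q (M.X f - 1) b =
    if M.Y (M.rot.ot f) ≤ b then M.rot.jt wb f else 0
  free : ∀ t b, (∀ f, M.X f ≠ t) → Q t b = Q (t - 1) b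

/-- QRT (60 lines, from ROT): `Q` rotates: `(a, b) ↦ Q (-1-a) (-1-b)`. (`M.rot.rot = M`.) -/
def SpecQRT : Prop := ∀ (ι E : Type) [Fintype E] [DecidableEq E] (M : RM ι E), M.Good →
  ∀ wt wb Q, QGood M wt wb Q → QGood M.rot wb wt (fun a b => Q (-1 - a) (-1 - b))

/-- RJ (150 lines, from LIN, OTM, SEQ). In the row of the ceiling `C` the jump of `Q` at the line `t` is
`rowJ` with the weights `w' t = wt f` if some `f` has `X f = t`, `RT f`, `ot f = C`, else `0`.
Proof: if `f` with `X f = t` exists: `C` covers `t-1` and `t`, so by `nc` (and injectivity of `Y`)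
`tp f < Y C` or `Y C < bo f`. If `tp f < Y C`: `up` with `b = Y C - 1`; `Y (ot f) ≤ Y C` by OTM, with
equality iff `ot f = C` (Y injective). If `ot f = C` and `RT f` the jump is `jt wt f` which is
`rowJ ... t` (LIN: the lines `t'` with `h (t'-1) ≠ h t'` correspond to the `g` with `RT g`,
`ot g = C`, `X g = t'`; `asc g` iff ascent; `tl g` = the target); if `ot f ≠ C` or `¬ RT f` it is `0`,
and `rowJ ... t = 0`: the floor does not change at `t` (LIN (1)), and no arrow has its target at `t`
(targets `lo C < s < hi C` are lines where the floor changes, SEQ). If `Y C < bo f`: `down` with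
`b = Y C - 1`: `Y (M.rot.ot f) ≥ Y C` (OTM for `M.rot`: use ROT), so the jump is `0`; as before. If
there is no `f` at `t`: `free`. -/
def SpecRJ : Prop := ∀ (ι E : Type) [Fintype E] [DecidableEq E] (M : RM ι E), M.Good →
  ∀ wt wb Q, QGood M wt wb Q → ∀ w' : ℤ → ZMod 2, ∀ C, ¬ M.Fl C →
  (∀ f, M.RT f → M.ot f = C → w' (M.X f) = wt f) →
  (∀ t, (∀ f, M.X f = t → M.RT f → M.ot f ≠ C) → w' t = 0) →
  ∀ t, M.lo C < t → t < M.hi C →
  Q t (M.Y C - 1) + Q (t - 1) (M.Y C - 1) = rowJ (M.ht C) (M.lo C) (M.hi C) w' t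

/-- UPC (120 lines, from RJ, ROW, HH, SEQ, LIN, TGD, BEL, FLC). The value of `Q` on the run (column `i`,
ceiling `C`) equals its value just to the left of the A-vertex of `ur C i`. Let `U = UU ...`:
`Q i (Y C - 1) + Q (U-1) (Y C - 1) = Σ_{i<t<U} (jump at t) = 0` (telescoping, RJ, ROW; the hypothesis
of ROW on descents `t` with target `U`: the edge `f` of the line `t` has `¬ asc f` and
`ta f = ur C (t-1) = ur C i` because `UU (t-1) = U`). If `U = hi C` then `ur C i = C`, `ax C = hi C`,
not a floor. Otherwise `e = ur C i = bel C U` is a floor with left end `U` (LIN) and height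
`ht C U > ht C (U-1)`: the cells `(U-1, b)`, `Y e ≤ b ≤ Y C - 1` are in one run (`vert`, BEL). -/
def SpecUPC : Prop := ∀ (ι E : Type) [Fintype E] [DecidableEq E] (M : RM ι E), M.Good →
  ∀ wt wb Q, QGood M wt wb Q → ∀ C i, ¬ M.Fl C → M.Cov C i →
  (∀ f, M.RT f → ¬ M.asc f → M.ta f = M.ur C i → wt f = 0) →
  Q i (M.Y C - 1) = Q (M.ax (M.ur C i) - 1)
    (if M.Fl (M.ur C i) then M.Y (M.ur C i) else M.Y (M.ur C i) - 1)

/-- OWN (100 lines, from LIN, TGA, TGD, SEQ). Crossing the chord of the A-vertex `e` itself. Let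
`RT f`, `asc f`, `ta f = e`, all descending arrows with A-end `e` have weight `0`, `wt f = 1`. Then
`jt wt f = 1`: the arrows `g` with `ot g = ot f`, `tl g = X f` are descents (for an ascent `g` the line
`tl g > lo` is a line where the floor drops, TGA gives `¬ asc`; `X` is injective) and have `ta g = e`
(TGD). So by `up` with `b = tp f = Y e`: the jump is `1`. -/
def SpecOWN : Prop := ∀ (ι E : Type) [Fintype E] [DecidableEq E] (M : RM ι E), M.Good →
  ∀ wt wb Q, QGood M wt wb Q → ∀ f, M.RT f → M.asc f → wt f = 1 →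
  (∀ g, M.RT g → ¬ M.asc g → M.ta g = M.ta f → wt g = 0) →
  Q (M.ax (M.ta f)) (M.Y (M.ta f)) + Q (M.ax (M.ta f) - 1) (M.Y (M.ta f)) = 1

/-- URF (40 lines, from SEQ, LIN, BEL): if the label `e = ur C i` is a floor then it comes from an ascent
line: there is `f` with `RT f`, `asc f`, `ta f = e`, `ot f = C`. If it is not a floor it is `C`. -/
def SpecURF : Prop := ∀ (ι E : Type) [Fintype E] [DecidableEq E] (M : RM ι E), M.Good →
  ∀ C i, ¬ M.Fl C → M.Cov C i →
  (M.Fl (M.ur C i) → ∃ f, M.RT f ∧ M.asc f ∧ M.ta f = M.ur C i ∧ M.ot f = C) ∧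
  (¬ M.Fl (M.ur C i) → M.ur C i = C)

/-- COL (150 lines, from UPC, OWN, URF, QRT, ROT, BEL, FLC). `col e := Q (lo e) (Y e) + 1` for a floor
`e`, `col e := Q (hi e - 1) (Y e - 1)` for a ceiling. Claim: for a run `(C, a)`, `q = Q a (Y C - 1)`:
if `e = ur C a ∉ D` then `col e = q`; if `e' = M.rot.ur (bel C a) (-1-a) ∉ D` then `col e' = q + 1`.
First claim: UPC gives `q = Q (ax e - 1) ...`: if `e` is a ceiling this is `col e`. If `e` is a floor,
URF and OWN: `q = Q (lo e - 1) (Y e) = Q (lo e) (Y e) + 1 = col e` (the arrow `f` of URF has weight `1`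
as `ta f = e ∉ D`). Second claim: apply the first one to `M.rot` and the rotated `Q` (QRT): for
`M.rot` the function `col` is `M.col + 1` (floors and ceilings exchanged), and the value of the
rotated `Q` on the run `(bel C a, -1-a)` of `M.rot` is `Q a (ht C a) = Q a (Y C - 1)` (`vert`,
BEL). -/
def SpecCOL : Prop := ∀ (ι E : Type) [Fintype E] [DecidableEq E] (M : RM ι E), M.Good →
  ∀ (wt wb : E → ZMod 2) (Q : ℤ → ℤ → ZMod 2) (D : Finset E), QGood M wt wb Q →
  (∀ f, M.RT f → M.ta f ∉ D → wt f = if M.asc f then 1 else 0) →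
  (∀ f, M.rot.RT f → M.rot.ta f ∉ D → wb f = if M.rot.asc f then 1 else 0) →
  ∃ col : E → ZMod 2, ∀ C a, ¬ M.Fl C → M.Cov C a →
    M.ur C a ∈ D ∨ M.rot.ur (M.bel C a) (-1 - a) ∈ D ∨
      col (M.ur C a) ≠ col (M.rot.ur (M.bel C a) (-1 - a))

/-! ## G. Coverage -/

/-- COV (100 lines, from SEQ, LIN, BEL, FLC). The A-vertex of `ur C a` sees the whole run: `U = UU ...`;
in the columns `k ∈ [a, U)` the floor is `≤ ht C a`, so the cells `(k, b)`, `ht C a ≤ b < Y C` are in
the polygon (BEL), and the vertex is `(U, Y C)` or `(U, ht C U)` with `ht C a < ht C U < Y C`. -/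
def SpecCOV : Prop := ∀ (ι E : Type) [Fintype E] [DecidableEq E] (M : RM ι E), M.Good →
  ∀ C a b, ¬ M.Fl C → M.Cov C a → M.ht C a ≤ b → b < M.Y C →
  M.Sees (M.ax (M.ur C a)) (M.Y (M.ur C a)) a b

/-- CVR (60 lines, from COV, ROT, BEL): the same for the lower left vertex. (In `M.rot` the run of the
ceiling `bel C a` in the column `-1-a`; `M.rot.ht (bel C a) (-1-a) = - Y C` by BEL.) -/
def SpecCVR : Prop := ∀ (ι E : Type) [Fintype E] [DecidableEq E] (M : RM ι E), M.Good →
  ∀ C a b, ¬ M.Fl C → M.Cov C a → M.ht C a ≤ b → b < M.Y C →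
  M.Sees (M.ax (M.rot.ur (M.bel C a) (-1 - a))) (M.Y (M.rot.ur (M.bel C a) (-1 - a))) a b

/-! ## H. Incidence -/

/-- EXT (120 lines, from SX, FLC, SpecCR). Let `X` be a nonempty set of holes (`o ∉ X`), and let
`(X f, Y e)`, `e ∈ {f, s⁻¹ f}`, be the vertex of `X` with the largest value of `X f + Y e` among the
vertices of the components of `X`. Then it is the upper end of `f` (`Y e = tp f`), the right end of
`e` (`X f = hi e`), `RT f`, and `¬ asc f`, `tb f = e`. Proof: the other vertex of `e` has not larger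
value, so `X f = hi e`; the other vertex of `f` too, so `Y e = tp f`. Let `i = comp f`. The cell
`(X f - 1, Y e - 1)` has exactly one edge of the component `i` above it, namely `e`: another edge
`e'` of the component `i` covering the column `X f - 1` with `Y e' ≥ Y e` has `Y e' > Y e` and
`hi e' ≥ X f`, and its right end is a vertex of larger value. So by `Holes` this cell is not in the
polygon. Crossing `e` upward (column `X f - 1`): `(X f - 1, Y e) ∈ S`; crossing the line `X f` in the
row `Y e = tp f`: `(X f, tp f) ∈ S`, i.e. `RT f`. By LIN exactly one of the two columns next to the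
line `X f` has its floor at height `tp f`; it is `X f - 1` since `e` covers it, so `¬ asc f` and
`tb f = bel (ot f) (X f - 1) = e` (`Y` injective, LIN (4)). -/
def SpecEXT : Prop := ∀ (ι E : Type) [Fintype ι] [DecidableEq ι] [Fintype E] [DecidableEq E]
  (M : RM ι E), M.Good → M.Holes → ∀ X : Finset ι, M.o ∉ X → ∀ e f : E,
  (f = e ∨ f = M.s e) → M.comp e ∈ X →
  (∀ e' f', (f' = e' ∨ f' = M.s e') → M.comp e' ∈ X → M.X f' + M.Y e' ≤ M.X f + M.Y e) →
  M.RT f ∧ ¬ M.asc f ∧ M.tb f = e ∧ M.X f = M.hi e ∧ M.Y e = M.tp f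

/-- EXU (120 lines, like EXT): the direction `(-1, 1)`. Let `(X f, Y e)` be the vertex of `X` with the
largest value of `Y e - X f`. Then it is the left end of `e`, the upper end of `f`, `RT f`, `asc f`,
`ta f = e`. (The cell `(X f, Y e - 1)` has exactly one edge of the component above it.) -/
def SpecEXU : Prop := ∀ (ι E : Type) [Fintype ι] [DecidableEq ι] [Fintype E] [DecidableEq E]
  (M : RM ι E), M.Good → M.Holes → ∀ X : Finset ι, M.o ∉ X → ∀ e f : E,
  (f = e ∨ f = M.s e) → M.comp e ∈ X →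
  (∀ e' f', (f' = e' ∨ f' = M.s e') → M.comp e' ∈ X → M.Y e' - M.X f' ≤ M.Y e - M.X f) →
  M.RT f ∧ M.asc f ∧ M.ta f = e ∧ M.X f = M.lo e ∧ M.Y e = M.tp f

/-- RHO (60 lines, from ROT): the rotated model has holes too (the parity of the edges of the component
above a cell equals the parity of those below it, CR (5) with `K` = the component). -/
def SpecRHO : Prop := ∀ (ι E : Type) [DecidableEq ι] [Fintype E] [DecidableEq E]
  (M : RM ι E), M.Good → M.Holes → M.rot.Holes

/-- The A-vertex of the edge `a` is the A-end of an arrow whose B-end is on a component of `X`. -/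
def Adj {ι E : Type} [Fintype E] [DecidableEq E] (M : RM ι E) (a : E) (X : Finset ι) : Prop :=
  (∃ f, M.RT f ∧ M.ta f = a ∧ M.comp (M.tb f) ∈ X) ∨
    (∃ f, M.rot.RT f ∧ M.rot.ta f = a ∧ M.comp (M.rot.tb f) ∈ X)

/-- INC (150 lines, from EXT, EXU, RHO, ROT, TGA, TGD). For every nonempty proper set `X` of components
two A-vertices not owned by `X` are adjacent to `X`.
Case `o ∉ X`: `f` from EXT: `tb f = e` owned by `X`; `a := ta f` has `ax a + Y a > X f + Y e` (TGD), and
`(ax a, Y a)` is a vertex of `comp a`, so `comp a ∉ X` by maximality. The same in `M.rot` gives `a'`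
with `- ax a' - Y a' >` the maximum of `- X f - Y e` over `X`, so
`ax a' + Y a' < min ≤ max < ax a + Y a`, so `a ≠ a'`.
Case `o ∈ X`: let `X'` be the complement, nonempty, `o ∉ X'`. EXU for `X'` in `M`: `a := ta f = e` is
owned by `X'`, and `tb f` has `Y (tb f) - bx (tb f) > Y e - X f` (TGA), so `comp (tb f) ∉ X'`, i.e.
`∈ X`. The same in `M.rot` gives `a' := M.rot.ta f'`, a vertex where `Y e - X f` is minimal on `X'`.
`a ≠ a'`: `a` is a floor of `M` and `a'` a floor of `M.rot` (TGA), i.e. a ceiling of `M`. -/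
def SpecINC : Prop := ∀ (ι E : Type) [Fintype ι] [DecidableEq ι] [Fintype E] [DecidableEq E]
  (M : RM ι E), M.Good → M.Holes → ∀ X : Finset ι, X.Nonempty → X ≠ univ →
  ∃ a a' : E, a ≠ a' ∧ M.comp a ∉ X ∧ M.comp a' ∉ X ∧ Adj M a X ∧ Adj M a' X

/-! ## I. T-joins in bipartite graphs -/

/-- boundary of the edge set `J` of the multigraph with edges `a : A` joining `p a` and `q a` -/
def bd {V A : Type} [DecidableEq V] (p q : A → V) (J : Finset A) (v : V) : ZMod 2 :=
  ((J.filter fun a => p a = v).card : ZMod 2) + ((J.filter fun a => q a = v).card : ZMod 2)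

/-- PL (60 lines): pairing lemma. If `bd F v = 1` there are `z ≠ v` with `bd F z = 1` and `H ⊆ F` with
boundary exactly `{v, z}`. Induction on `|F|`: an edge `e ∈ F` at `v`, other end `u ≠ v`. If
`bd F u = 1` take `H = {e}`. Otherwise `F₁ = F.erase e` has `bd F₁ u = 1`, `bd F₁ v = 0`; induction
gives `z ≠ u`, `bd F₁ z = 1` (so `z ≠ v`), `H₁ ⊆ F₁`; take `H = insert e H₁`. -/
def SpecPL : Prop := ∀ (V A : Type) [DecidableEq V] [DecidableEq A] (p q : A → V),
  (∀ a, p a ≠ q a) → ∀ (F : Finset A) (v : V), bd p q F v = 1 →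
  ∃ z, z ≠ v ∧ bd p q F z = 1 ∧ ∃ H ⊆ F, ∀ u, bd p q H u = if u = v ∨ u = z then 1 else 0

/-- weight of the edge set `F`: `+1` outside `J`, `-1` in `J` -/
def wt {A : Type} [DecidableEq A] (J F : Finset A) : ℤ := ((F \ J).card : ℤ) - ((F ∩ J).card : ℤ)

/-- SEB (150 lines, from PL): Sebo's vertex. `J` is nonempty and conservative: even sets (boundary `0`)
have weight `≥ 0`. Then there are a vertex `t` and an edge `e₀ ∈ J` at `t`, the only edge of `J` at
`t`, such that every even set `Z` with an edge at `t` and `e₀ ∉ Z` has weight `≥ 1`.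
Proof. Among all edge sets `P` whose boundary is `[u = r] + [u = t]` for some `r`, `t` (it is `0` if
`r = t`) take one with `wt J P` minimal, and then `|P|` minimal. `wt < 0` (a single edge of `J`), so the boundary is a pair `{r, t}`, `r ≠ t`.
(i) `P` contains no nonempty even set `Z` (remove it: weight not larger, fewer edges).
(ii) an edge of `J` at `t` not in `P` could be added (weight decreases, boundary `{r, u}` or `0`); an
edge `e ∉ J` of `P` at `t` could be removed (weight decreases by 1). So the edges of `P` at `t` are the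
edges of `J` at `t`; their number is odd. If there are two, `e = tu`, `e' = tu'`: in `P \ {e, e'}` the
degree of `t` is odd; PL gives `H ⊆ P \ {e, e'}` with boundary `{t, z}`, `z` odd in `P \ {e, e'}`, so
`z ∈ {r, u, u'}`; `z = u`: `H ∪ {e}` is even, nonempty, contradicts (i); same for `u'`; `z = r`:
`P \ H` is even and contains `e`, contradicts (i). So there is exactly one, `e₀`.
(iii) Suppose `Z` is even, `g ∈ Z` is at `t`, `e₀ ∉ Z`, `wt J Z ≤ 0`, so `= 0`. We may take `Z` minimal
for inclusion among the even subsets of `Z` containing `g` (both parts have weight `≥ 0`, so `= 0`).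
`g ∉ J`; let `u` be its other end. `Z.erase g` has boundary `{t, u}` and weight `-1`. First, `P ∩ Z` is
nonempty: otherwise `P ∪ Z.erase g` (disjoint) has boundary `[r] + [u]` and weight `wt P - 1`. In
`P \ Z` the degree of `t` is `1` (`e₀`): PL gives `H ⊆ P \ Z` with boundary `{t, z}`, `z ≠ t` odd in
`P \ Z`. If `z = r`: `P \ H` is even, so empty by (i), so `P ∩ Z` is empty, no. So `z ≠ r`, and then `z`
is odd in `P ∩ Z` (`bd (P \ Z) = [r] + [t] + bd (P ∩ Z)`), so there is an edge `ε ∈ P ∩ Z` at `z`; `ε` is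
not at `t` (the only edge of `P` at `t` is `e₀ ∉ Z`); let `z'` be its other end. `P \ H` has boundary
`[r] + [z]` and fewer edges than `P`, so `wt (P \ H) > wt P`, `wt H < 0`. Claim: there is `Z₁ ⊆ Z` with
boundary `{t, z}`: apply PL to `(Z.erase g).erase ε` at `t` (its boundary is `[t]+[u]+[z]+[z']`): the
partner is `z` (done), or `z'` (add `ε`), or `u` (add `g`: an even set containing `g`, strictly smaller
than `Z` as `ε` is missing, contradiction). Finally `Z₁` or `Z \ Z₁` has weight `≤ 0`; both have boundary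
`{t, z}` and are disjoint from `H`: the union with `H` is an even set of negative weight, no. -/
def SpecSEB : Prop := ∀ (V A : Type) [Fintype V] [DecidableEq V] [Fintype A] [DecidableEq A]
  (p q : A → V) (J : Finset A), (∀ a, p a ≠ q a) → J.Nonempty →
  (∀ Z : Finset A, (∀ v, bd p q Z v = 0) → 0 ≤ wt J Z) →
  ∃ (t : V) (e₀ : A), e₀ ∈ J ∧ (p e₀ = t ∨ q e₀ = t) ∧
    (∀ e ∈ J, (p e = t ∨ q e = t) → e = e₀) ∧
    ∀ (g : A) (Z : Finset A), g ∈ Z → (p g = t ∨ q g = t) → e₀ ∉ Z → (∀ v, bd p q Z v = 0) →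
      1 ≤ wt J Z

/-- CON (150 lines, from PL, SEB): contraction of the star of `t`. In a bipartite graph, let `J`, `t`,
`e₀` be as in SEB. Let `Z'` be a set of edges not at `t` whose boundary vanishes except at neighbours of
`t`. Then `0 ≤ wt (J.erase e₀) Z'`. Proof: induction on `|Z'|`. If the boundary is `0`: hypothesis on
`J` (`e₀ ∉ Z'`). Otherwise let `u` be a neighbour of `t` with `bd Z' u = 1`; PL: `H ⊆ Z'` with boundary
`{u, u'}`, `u'` another neighbour of `t`. `Z' \ H` is handled by induction. `wt J H ≥ 0`: let `g`, `g'`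
be edges from `t` to `u`, `u'` (`g ≠ g'`), `Z = H ∪ {g, g'}` even. All neighbours of `t` have the same
colour, so `|H|` is even and `wt J H` is even. If `g` or `g'` is `e₀`: `0 ≤ wt J Z = wt J H + 0`
(one of the two is `e₀ ∈ J`, the other not in `J`). Otherwise `g, g' ∉ J` and `e₀ ∉ Z`, SEB gives
`1 ≤ wt J Z = wt J H + 2`, so `wt J H ≥ -1`, hence `≥ 0` by parity. -/
def SpecCON : Prop := ∀ (V A : Type) [Fintype V] [DecidableEq V] [Fintype A] [DecidableEq A]
  (p q : A → V) (col : V → Bool) (J : Finset A) (t : V) (e₀ : A), (∀ a, col (p a) ≠ col (q a)) →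
  (∀ Z : Finset A, (∀ v, bd p q Z v = 0) → 0 ≤ wt J Z) →
  e₀ ∈ J → (p e₀ = t ∨ q e₀ = t) → (∀ e ∈ J, (p e = t ∨ q e = t) → e = e₀) →
  (∀ (g : A) (Z : Finset A), g ∈ Z → (p g = t ∨ q g = t) → e₀ ∉ Z → (∀ v, bd p q Z v = 0) →
      1 ≤ wt J Z) →
  ∀ Z' : Finset A, (∀ a ∈ Z', p a ≠ t ∧ q a ≠ t) →
    (∀ v, bd p q Z' v ≠ 0 → ∃ a, (p a = t ∧ q a = v) ∨ (p a = v ∧ q a = t)) →
    0 ≤ wt (J.erase e₀) Z'

/-- the edges leaving `U` -/
def cut {V A : Type} [DecidableEq V] [Fintype A] (p q : A → V) (U : Finset V) : Finset A :=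
  univ.filter fun a => (p a ∈ U ∧ q a ∉ U) ∨ (p a ∉ U ∧ q a ∈ U)

/-- TJ (200 lines, from PL, SEB, CON): fractional form of the theorem of Seymour (Sebo's proof).
`y ≥ 0` with `y (cut U) ≥ 1` for every `U` with `T (U) = 1` all of whose leaving edges have their end
in `U` of the same colour. Then there is a T-join with at most `Σ y` edges. Induction on `|V|` (strong),
for all types. If there is no T-join at all: some component `U` of the graph has `T (U) = 1` (PL or the
fact that the boundaries of paths generate the functions with sum `0` on components): its cut is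
empty, contradiction with `1 ≤ y (∅) = 0`. Otherwise let `J` be a T-join with the least number of
edges: it is conservative (`J Δ Z` is a T-join with `|J| + wt J Z` edges). If `J = ∅` done. Otherwise
SEB gives `t`, `e₀`. Let `N` be the set of neighbours of `t`, `V' = {v // v ∉ N}` (`t ∈ V'`),
`π : V → V'` maps `N` to `t` and is the identity elsewhere; `A' = {a // p a ≠ t ∧ q a ≠ t}`;
`p' = π ∘ p`, `q' = π ∘ q`; `col' = col` except `col' t = !col t`: edges of `A'` with an end in `N` have
the other end of colour `col t`, so the graph is bipartite. `T' v' = Σ_{π v = v'} T v`. The cut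
condition: for `U' ⊆ V'`, `U = π⁻¹ U'` has `T (U) = T' (U')`, the same cut (no edge at `t` leaves `U`),
and the same colours at the ends (the end `t` never occurs; ends in `N` have the colour `!col t`). So
by induction there is a T'-join `J'` of `A'` with `|J'| ≤ Σ_{A'} y`. `J.erase e₀` is a T'-join as well
(`T' t = T t + Σ_N T`), so `Z' = J' Δ (J.erase e₀)` satisfies the hypothesis of CON, and
`0 ≤ wt (J.erase e₀) Z' = |J'| - (|J| - 1)`. So `|J| ≤ |J'| + 1 ≤ Σ_{A'} y + 1` and
`1 ≤ y (cut {t})` (`T t = 1` because `J` has exactly one edge at `t`; the cut of `{t}` is monochromatic)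
`= Σ_{a ∉ A'} y`. -/
def SpecTJ : Prop := ∀ (V A : Type) [Fintype V] [DecidableEq V] [Fintype A] [DecidableEq A]
  (p q : A → V) (col : V → Bool) (T : V → ZMod 2) (y : A → ℚ),
  (∀ a, col (p a) ≠ col (q a)) → (∀ a, 0 ≤ y a) →
  (∀ U : Finset V, ∑ v ∈ U, T v = 1 →
    (∃ c : Bool, ∀ a, (p a ∈ U → q a ∉ U → col (p a) = c) ∧ (q a ∈ U → p a ∉ U → col (q a) = c)) →
    1 ≤ ∑ a ∈ cut p q U, y a) →
  ∃ J : Finset A, (∀ v, bd p q J v = T v) ∧ (J.card : ℚ) ≤ ∑ a, y a

/-- JN (200 lines, from TJ, INC). The set `D` and the weights. Graph: vertices `ι ⊕ E` (components and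
A-vertices), edges: for each `a : E` the owner edge `a - comp a`; for each `f` with `M.RT f` the edge
`ta f - comp (tb f)`; for each `f` with `M.rot.RT f` the edge `rot.ta f - comp (rot.tb f)`. `T` is `0` on
`E` and on `ι` it is `T i = Σ_{RT f, asc f} ([comp (ta f) = i] + [comp (tb f) = i])` + the same for
`M.rot`. `y = 1/2` on owner edges, `0` on the others. Cut condition: `X := U ∩ ι`; `T (U) = T (X) = 1`,
so `X` is nonempty (empty sum) and proper (the sum of `T` over all of `ι` is `0`). If the leaving edges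
have their end in `U` in `E`: INC for `X` gives `a ≠ a'` not owned by `X` and adjacent to `X`; `a ∈ U`
(otherwise the edge from `X` to `a` leaves `U` at its `ι`-end), and its owner is not in `U`: the owner
edge is in the cut; same for `a'`: `y (cut) ≥ 1`. If the leaving edges have their end in `U` in `ι`:
INC for the complement of `X`: `a ≠ a'` owned by `X` and adjacent to some component outside `X`;
`a ∉ U` (otherwise that edge leaves `U` at its `E`-end), so the owner edge is in the cut. TJ gives `J`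
with `|J| ≤ |E| / 2`. `D := {a | some edge of J at a}`: every `a ∈ D` has an even positive number of
edges of `J`, so `2 |D| ≤ |J|`. `wt f := [asc f] + [arrow edge of f in J]`, same for `wb`. The balance:
the sum over the arrows in `J` of `[comp A-end = i] + [comp B-end = i]` is
`Σ_{arrows in J} [comp B-end = i] + Σ_a [comp a = i] #(arrows of J at a)` and
`#(arrows of J at a) = [owner edge of a in J]` mod 2; so it is the degree of `i` in `J`, which is
`T i`. -/
def SpecJN : Prop := ∀ (ι E : Type) [Fintype ι] [DecidableEq ι] [Fintype E] [DecidableEq E]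
  (M : RM ι E), M.Good → M.Holes → ∃ (D : Finset E) (wt wb : E → ZMod 2),
  4 * D.card ≤ Fintype.card E ∧
  (∀ f, M.RT f → M.ta f ∉ D → wt f = if M.asc f then 1 else 0) ∧
  (∀ f, M.rot.RT f → M.rot.ta f ∉ D → wb f = if M.rot.asc f then 1 else 0) ∧
  ∀ i, ∑ f ∈ univ.filter (fun f => M.RT f), wt f *
      ((if M.comp (M.ta f) = i then 1 else 0) + (if M.comp (M.tb f) = i then 1 else 0)) +
    ∑ f ∈ univ.filter (fun f => M.rot.RT f), wb f *
      ((if M.comp (M.rot.ta f) = i then 1 else 0) +
        (if M.comp (M.rot.tb f) = i then 1 else 0)) = 0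

/-- RNK (150 lines, from JN, BAL, EXA, LIN, ROT, COL, COV, CVR, CEL): the theorem in the rank model.
JN gives `D`, `wt`, `wb`. `EXA` for `jt := M.jt wt`, `jb := M.rot.jt wb`, `ut := M.ot`,
`ub := M.rot.ot` (hypotheses from LIN for `M` and `M.rot`; the balance from BAL for `M` and `M.rot`)
gives `Q`. COL gives a colouring. The smaller colour class of the complement of `D` together with `D`
has at most `(|E| - |D|)/2 + |D| ≤ (5/8) |E|` elements. A cell of the polygon lies in a run (CEL),
whose labels `ur`, `rot.ur` both see it (COV, CVR), and one of them is chosen. -/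
def SpecRNK : Prop := ∀ (ι E : Type) [Fintype ι] [DecidableEq ι] [Fintype E] [DecidableEq E]
  (M : RM ι E), M.Good → M.Holes → ∃ G : Finset E, 8 * G.card ≤ 5 * Fintype.card E ∧
  ∀ a b, M.S a b → ∃ g ∈ G, M.Sees (M.ax g) (M.Y g) a b

/-! ## J. From real polygons to the rank model -/

/-- RKX (40 lines): ranks exist. `X e :=` number of `f` with `toLex (x f, idx f) < toLex (x e, idx e)`,
`idx : E ≃ Fin (card E)`. -/
def SpecRKX : Prop := ∀ (E : Type) [Fintype E] (x : E → ℝ), ∃ X : E → ℤ, RD.Ranks x X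

/-- GD (60 lines): the rank model of real data is good. `nc`: strict inequalities of ranks give weak
inequalities of the numbers, so `(x f, y e)` lies on `hE e ∩ vE f`; by `hv` `f = e` or `f = s e`, but
then `X f` is an end of `e`. `s e ≠ e` from `xne`. -/
def SpecGD : Prop := ∀ (ι E : Type) [Fintype E] [DecidableEq E] [DecidableEq ι] (D : RD ι E), D.OK →
  ∀ X Y, RD.Ranks D.x X → RD.Ranks D.y Y → (D.mod X Y).Good

/-- CAN (80 lines): the canonical cell of a real point: `X e ≤ a ↔ x e ≤ q.1`, `Y e ≤ b ↔ y e ≤ q.2`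
(`a` = the largest rank of an `e` with `x e ≤ q.1`, or anything smaller than all ranks); then the real
parities at `q` are the rank counts. -/
def SpecCAN : Prop := ∀ (ι E : Type) [Fintype E] [DecidableEq E] [DecidableEq ι] (D : RD ι E), D.OK →
  ∀ X Y, RD.Ranks D.x X → RD.Ranks D.y Y → ∀ q : ℝ × ℝ,
  ∃ a b, (∀ e, X e ≤ a ↔ D.x e ≤ q.1) ∧ (∀ e, Y e ≤ b ↔ D.y e ≤ q.2) ∧
    ∀ i, D.rp i q = (D.mod X Y).cnt (univ.filter fun e => D.comp e = i) a b

/-- LOC (120 lines, from CR, GD, CAN): if `q` is in the box of the rank cell `(a, b)` and not on the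
component `i`, the parity of the component `i` at the cell `(a, b)` is the real one. Proof: let
`(a₀, b₀)` be the canonical cell. Move from the column `a` to `a₀` (one line at a time, `a ≤ a₀`
without loss of generality: the lines `f` with `a < X f ≤ a₀` have `x f = q.1`; if `a > a₀` there is no
line between, since `X f ≤ a → x f ≤ q.1 → X f ≤ a₀`) in the row `b`: the parity changes only at a
vertical edge `f` of the component `i` with `bo f ≤ b < tp f`, but then `q ∈ vE f`. Then move from
the row `b` to `b₀` in the column `a₀`: it changes only at an edge `e` of the component with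
`Cov e a₀`, `b < Y e ≤ b₀`, but then `y e = q.2` and `q ∈ hE e`. -/
def SpecLOC : Prop := ∀ (ι E : Type) [Fintype E] [DecidableEq E] [DecidableEq ι] (D : RD ι E), D.OK →
  ∀ X Y, RD.Ranks D.x X → RD.Ranks D.y Y → ∀ a b, ∀ q ∈ D.box X Y a b, ∀ i, q ∉ D.car i →
  (Odd ((D.mod X Y).cnt (univ.filter fun e => D.comp e = i) a b) ↔ Odd (D.rp i q))

/-- REP (200 lines, from CR, GD, CAN): every rank cell has a real representative off all lines. Choose
`q₀` in the box of `(a, b)` (`q₀.1 = max {x e : X e ≤ a}` or, if there is none, the minimum of all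
`x e`). The vertical edges `f` with `x f = q₀.1` and `bo f ≤ b < tp f` contain `q₀`, so there is at
most one (`vv`). If there is none with `a < X f`: take `x₁ > q₀.1` smaller than all `x e > q₀.1`: the
lines between `a` and the canonical column of `x₁` are the `f` with `a < X f`, `x f = q₀.1`, which do
not span the row `b`. Otherwise take `x₁ < q₀.1` larger than all `x e < q₀.1`: the lines between are
the `f` with `X f ≤ a`, `x f = q₀.1`. In both cases the parities (of all components) in the column of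
`x₁` and row `b` are those of `(a, b)`, `x₁ ≠ x e` for all `e`. The same vertically with
`q₁ = (x₁, q₀.2)` and the horizontal edges `e` covering the column of `x₁` with `y e = q₀.2` (at most
one, `hh`). -/
def SpecREP : Prop := ∀ (ι E : Type) [Fintype E] [DecidableEq E] [DecidableEq ι] (D : RD ι E), D.OK →
  ∀ X Y, RD.Ranks D.x X → RD.Ranks D.y Y → ∀ a b, ∃ q : ℝ × ℝ, (∀ e, D.x e ≠ q.1) ∧
  (∀ e, D.y e ≠ q.2) ∧
  ∀ i, (Odd ((D.mod X Y).cnt (univ.filter fun e => D.comp e = i) a b) ↔ Odd (D.rp i q))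

/-- REG (100 lines): a point off all boundary curves is in the region iff the total parity is odd
(`o` odd and all others even; `hole_in`, `hole_disj`); points on a boundary curve are in the region;
enclosed by a hole (off all curves) means total parity even. -/
def SpecREG : Prop := ∀ (ι E : Type) [Fintype ι] [Fintype E] [DecidableEq E] [DecidableEq ι]
  (D : RD ι E), D.OK → ∀ q : ℝ × ℝ,
  ((∃ i, q ∈ D.car i) → q ∈ D.region) ∧
  ((∀ i, q ∉ D.car i) → (q ∈ D.region ↔ Odd (∑ i, D.rp i q))) ∧
  (∀ i, i ≠ D.o → (∀ j, q ∉ D.car j) → Odd (D.rp i q) → Even (∑ j, D.rp j q))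

/-- HO (60 lines, from REP, REG): the rank model has holes. (`cnt univ = Σ_i cnt (comp = i)`.) -/
def SpecHO : Prop := ∀ (ι E : Type) [Fintype ι] [Fintype E] [DecidableEq E] [DecidableEq ι]
  (D : RD ι E), D.OK → ∀ X Y, RD.Ranks D.x X → RD.Ranks D.y Y → (D.mod X Y).Holes

/-- BIN (60 lines, from LOC, REG): the box of a cell of the polygon is in the region. -/
def SpecBIN : Prop := ∀ (ι E : Type) [Fintype ι] [Fintype E] [DecidableEq E] [DecidableEq ι]
  (D : RD ι E), D.OK → ∀ X Y, RD.Ranks D.x X → RD.Ranks D.y Y → ∀ a b, (D.mod X Y).S a b →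
  D.box X Y a b ⊆ D.region

/-- CVB (150 lines, from CAN, SX, GD, REG): every point of the region is in the box of a cell of the
polygon. Off the curves: the canonical cell. On a horizontal edge `e`: the column `a` is the canonical
one if `q.1 < max`, and `hi e - 1` if `q.1 = max` (then `Cov e a` and `q` is in the boxes of
`(a, Y e)` and `(a, Y e - 1)`), one of the two cells is in `S` by SX (3). On a vertical edge `f`:
similarly with the row and SX (1). -/
def SpecCVB : Prop := ∀ (ι E : Type) [Fintype ι] [Fintype E] [DecidableEq E] [DecidableEq ι]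
  (D : RD ι E), D.OK → ∀ X Y, RD.Ranks D.x X → RD.Ranks D.y Y → ∀ q ∈ D.region,
  ∃ a b, (D.mod X Y).S a b ∧ q ∈ D.box X Y a b

/-- VIS (120 lines): visibility. If the vertex `(X f, Y e)` sees the cell `(a, b)` in the rank model and
`q` is in the box of `(a, b)`, every point `z` of the segment from `(x f, y e)` to `q` is in the box of
some cell of the spanned rectangle. For the column: if `X f ≤ a`, take the largest `X g ≤ a` with
`x g ≤ z.1` (`g = f` is allowed); if `a < X f` the maximum of `a` and the largest `X g < X f` with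
`x g ≤ z.1`. The same for the row. -/
def SpecVIS : Prop := ∀ (ι E : Type) [Fintype E] [DecidableEq E] [DecidableEq ι] (D : RD ι E),
  ∀ X Y, RD.Ranks D.x X → RD.Ranks D.y Y → ∀ a b e f, (D.mod X Y).Sees (X f) (Y e) a b →
  ∀ q ∈ D.box X Y a b, ∀ z ∈ segment ℝ (D.x f, D.y e) q,
  ∃ a' b', (D.mod X Y).S a' b' ∧ z ∈ D.box X Y a' b'

/-- RDT (60 lines, from RNK, RKX, GD, HO, BIN, CVB, VIS): the theorem for real data. -/
def SpecRDT : Prop := ∀ (ι E : Type) [Fintype ι] [Fintype E] [DecidableEq E] [DecidableEq ι]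
  (D : RD ι E), D.OK → ∃ G : Finset (ℝ × ℝ), 8 * G.card ≤ 5 * Fintype.card E ∧
  (∀ g ∈ G, ∃ e, g = (D.x e, D.y e) ∨ g = (D.x (D.s e), D.y e)) ∧
  ∀ q ∈ D.region, ∃ g ∈ G, segment ℝ g q ⊆ D.region

/-- PD (150 lines): the data of a polygon are OK (for any `Fintype` and `DecidableEq` instances on the
index type; `ZMod k` with `k ≥ 2`), same region, same vertices, `n = 2 |E|`. Edges of different
components are disjoint because the regions are (holes) or because the outer curve is disjoint from its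
inside. -/
def SpecPD : Prop := ∀ (P : HPoly) [Fintype P.EE] [DecidableEq P.EE], P.IsPoly →
  P.rd.OK ∧ P.rd.region = P.region ∧ P.n = 2 * Fintype.card P.EE ∧
  ∀ e, (P.rd.x e, P.rd.y e) ∈ P.vertices ∧ (P.rd.x (P.rd.s e), P.rd.y e) ∈ P.vertices

end Pool.Agent.Lib.MP06c549
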